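import Pool.Agent.N996.FP.Sc

/-!
# Elements of degree minus two of the double commutant of a Lie algebra acting semisimply
-/

set_option linter.unusedSectionVars false

namespace Pool.Agent.L0h10.TS

open Matrix Pool.Agent.N996.BP Pool.Agent.N996.FP ComplexConjugate ComplexOrder

variable {ι : Type} [Fintype ι] [DecidableEq ι] {h h' : Submodule ℂ (Matrix ι ι ℂ)}
  {A : Type} [Ring A] [Algebra ℂ A] {N P z : Matrix ι ι ℂ}

lemma TL_mono {x : Matrix ι ι ℂ} {c d : ℝ} (h : c ≤ d) : TL x c ≤ TL x d :=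
  Submodule.span_mono fun _ ⟨e, he, hv⟩ => ⟨e, lt_of_lt_of_le he h, hv⟩

lemma TL_of {x : Matrix ι ι ℂ} {c d : ℝ} {v : ι → ℂ} (hd : d < c) (hv : x *ᵥ v = (d : ℂ) • v) :
    v ∈ TL x c := Submodule.subset_span ⟨d, hd, hv⟩

/-- The elements of degree minus two of `h'` belong to `h`. -/
theorem mem_top' (hl : ∀ a ∈ h, ∀ b ∈ h, br a b ∈ h) (hh' : IsLA h') (hle : h ≤ h')
    (D : PD h' z A) (hN : N ∈ h) (hPH : Pᴴ = P) (hPV : ∀ v, P *ᵥ v ∈ D.V)
    (hPv : ∀ v ∈ D.V, P *ᵥ v = v) (hPc : ∀ w ∈ h', P * w = w * P) (hPP : P * P = P)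
    (hNN : N * N * P = P) (hf : ∀ w ∈ h', w * P = 0 → w = 0)
    (hproj : ∀ S : Submodule ℂ (ι → ℂ), (∀ a ∈ h, ∀ v ∈ S, a *ᵥ v ∈ S) →
      ∃ E : Matrix ι ι ℂ, (∀ v, E *ᵥ v ∈ S) ∧ (∀ v ∈ S, E *ᵥ v = v) ∧ ∀ a ∈ h, E * a = a * E)
    (hcc : ∀ w ∈ h', ∀ y : Matrix ι ι ℂ, (∀ a ∈ h, y * a = a * y) → w * y = y * w)
    {X : Matrix ι ι ℂ} (hX : X ∈ h') (hXN : br N X = (-2 : ℂ) • X) : X ∈ h := by
  obtain ⟨e, he0, ⟨m, hm⟩, he2, hetr⟩ := exists_evec D (hle hN) hPV hPv hPc hPP hNN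
  obtain ⟨Q, hQ⟩ : ∃ Q, Q = (2⁻¹ : ℂ) • (P + N * P) := ⟨_, rfl⟩
  have hPN := hPc N (hle hN)
  have hNQ : N * Q = Q := by
    rw [hQ, Matrix.mul_smul, Matrix.mul_add, ← Matrix.mul_assoc, hNN, add_comm]
  have hPQ : P * Q = Q := by
    rw [hQ, Matrix.mul_smul, Matrix.mul_add, ← Matrix.mul_assoc, hPP, hPN, Matrix.mul_assoc, hPP]
  have hNR : N * (P - Q) = -(P - Q) := by
    rw [Matrix.mul_sub, hNQ, hQ]
    module
  have hPR : P * (P - Q) = P - Q := by rw [Matrix.mul_sub, hPQ, hPP]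
  have hNe : N *ᵥ e = (m : ℂ) • e := hm
  -- the trace formula
  have htr : ∀ Z ∈ h', br N Z = (2 : ℂ) • Z → ∀ Y ∈ h', br N Y = (-2 : ℂ) • Y →
      Z *ᵥ (Y *ᵥ e) = (Z * Y * P).trace • e := by
    intro Z hZ hZN Y hY hYN
    have hZN' : N * Z = Z * N + (2 : ℂ) • Z := by rw [← hZN, br]; abel
    have hYN' : N * Y = Y * N + (-2 : ℂ) • Y := by rw [← hYN, br]; abel
    have h1 : br N (br Z Y) = 0 := by
      have e1 : br N (br Z Y) = (N * Z) * Y - Z * (Y * N) - (N * Y) * Z + Y * (Z * N) := by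
        simp only [br, Matrix.sub_mul, Matrix.mul_sub, Matrix.mul_assoc]
        abel
      rw [e1, hZN', hYN', Matrix.add_mul, Matrix.add_mul]
      have e2 : Z * N * Y = Z * (Y * N) + (-2 : ℂ) • (Z * Y) := by
        rw [Matrix.mul_assoc, hYN', Matrix.mul_add, Matrix.mul_smul]
      have e3 : Y * N * Z = Y * (Z * N) + (2 : ℂ) • (Y * Z) := by
        rw [Matrix.mul_assoc, hZN', Matrix.mul_add, Matrix.mul_smul]
      rw [e2, e3, Matrix.smul_mul, Matrix.smul_mul]
      module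
    have h2 : Z *ᵥ (Y *ᵥ e) = br Z Y *ᵥ e := by
      rw [br, Matrix.sub_mulVec, ← Matrix.mulVec_mulVec, ← Matrix.mulVec_mulVec, he2 Z hZ hZN,
        Matrix.mulVec_zero, sub_zero]
    rw [h2, hetr _ (hh'.lie _ hZ _ hY) h1]
    congr 1
    rw [← hQ]
    have h3 : Z * Q = 0 := kill hNN (hPc Z hZ) hPQ (c := 3) (by norm_num) (by
      rw [← Matrix.mul_assoc, hZN', Matrix.add_mul, Matrix.mul_assoc, hNQ, Matrix.smul_mul]
      module)
    have h4 : Y * (P - Q) = 0 := kill hNN (hPc Y hY) hPR (c := -3) (by norm_num) (by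
      rw [← Matrix.mul_assoc, hYN', Matrix.add_mul, Matrix.mul_assoc, hNR, Matrix.smul_mul,
        Matrix.mul_neg]
      module)
    have h5 : Y * P = Y * Q := by
      rw [Matrix.mul_sub, sub_eq_zero] at h4
      exact h4
    rw [br, Matrix.sub_mul, Matrix.mul_assoc Y, h3, Matrix.mul_zero, sub_zero, Matrix.mul_assoc,
      Matrix.mul_assoc, h5]
  -- the elements of degree minus two of `h`
  let Hm : Submodule ℂ (Matrix ι ι ℂ) :=
    { carrier := {w | w ∈ h ∧ br N w = (-2 : ℂ) • w}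
      add_mem' := by
        rintro a b ⟨h1, h2⟩ ⟨h3, h4⟩
        refine ⟨Submodule.add_mem _ h1 h3, ?_⟩
        rw [← aN_apply, map_add, aN_apply, aN_apply, h2, h4, smul_add]
      zero_mem' := ⟨Submodule.zero_mem _, by rw [← aN_apply, map_zero, smul_zero]⟩
      smul_mem' := by
        rintro c a ⟨h1, h2⟩
        refine ⟨Submodule.smul_mem _ _ h1, ?_⟩
        rw [← aN_apply, map_smul, aN_apply, h2, smul_comm] }
  let ev : Matrix ι ι ℂ →ₗ[ℂ] (ι → ℂ) :=
    { toFun := fun w => w *ᵥ e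
      map_add' := fun a b => Matrix.add_mulVec a b e
      map_smul' := fun c a => Matrix.smul_mulVec c a e }
  -- the module generated by `e`
  let W : Submodule ℂ (ι → ℂ) := sInf {S | e ∈ S ∧ ∀ y ∈ h, (br N y = 0 ∨
    br N y = (-2 : ℂ) • y) → ∀ v ∈ S, y *ᵥ v ∈ S}
  have hWe : e ∈ W := by
    rw [Submodule.mem_sInf]
    intro S hS
    exact hS.1
  have hWst : ∀ y ∈ h, (br N y = 0 ∨ br N y = (-2 : ℂ) • y) → ∀ v ∈ W, y *ᵥ v ∈ W := by
    intro y hy hyN v hv
    rw [Submodule.mem_sInf] at hv ⊢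
    intro S hS
    exact hS.2 y hy hyN v (hv S hS)
  have hWle : ∀ S : Submodule ℂ (ι → ℂ), e ∈ S → (∀ y ∈ h, (br N y = 0 ∨
    br N y = (-2 : ℂ) • y) → ∀ v ∈ S, y *ᵥ v ∈ S) → W ≤ S := fun S h1 h2 => sInf_le ⟨h1, h2⟩
  have hW2 : ∀ z ∈ h, br N z = (2 : ℂ) • z → ∀ v ∈ W, z *ᵥ v ∈ W := by
    let S : Submodule ℂ (ι → ℂ) :=
      { carrier := {v | v ∈ W ∧ ∀ z ∈ h, br N z = (2 : ℂ) • z → z *ᵥ v ∈ W}
        add_mem' := by
          rintro a b ⟨h1, h2⟩ ⟨h3, h4⟩
          refine ⟨Submodule.add_mem _ h1 h3, fun z hz hzN => ?_⟩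
          rw [Matrix.mulVec_add]
          exact Submodule.add_mem _ (h2 z hz hzN) (h4 z hz hzN)
        zero_mem' := ⟨Submodule.zero_mem _, fun z _ _ => by
          rw [Matrix.mulVec_zero]; exact Submodule.zero_mem _⟩
        smul_mem' := by
          rintro c a ⟨h1, h2⟩
          refine ⟨Submodule.smul_mem _ _ h1, fun z hz hzN => ?_⟩
          rw [Matrix.mulVec_smul]
          exact Submodule.smul_mem _ _ (h2 z hz hzN) }
    have h1 : W ≤ S := by
      refine hWle S ⟨hWe, fun z hz hzN => by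
        rw [he2 z (hle hz) hzN]; exact Submodule.zero_mem _⟩ ?_
      rintro y hy hyN v ⟨hv1, hv2⟩
      refine ⟨hWst y hy hyN v hv1, fun z hz hzN => ?_⟩
      have h2 : z *ᵥ (y *ᵥ v) = br z y *ᵥ v + y *ᵥ (z *ᵥ v) := by
        rw [br, Matrix.sub_mulVec, Matrix.mulVec_mulVec, Matrix.mulVec_mulVec]
        abel
      rw [h2]
      refine Submodule.add_mem _ ?_ (hWst y hy hyN _ (hv2 z hz hzN))
      have hzN' : N * z = z * N + (2 : ℂ) • z := by rw [← hzN, br]; abel
      have e1 : br N (br z y) = (N * z) * y - z * (y * N) - (N * y) * z + y * (z * N) := by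
        simp only [br, Matrix.sub_mul, Matrix.mul_sub, Matrix.mul_assoc]
        abel
      rcases hyN with hyN | hyN
      · have hyN' : N * y = y * N := by
          rw [br, sub_eq_zero] at hyN
          exact hyN
        refine hv2 _ (hl z hz y hy) ?_
        rw [e1, hzN', hyN', Matrix.add_mul]
        have e2 : z * N * y = z * (y * N) := by rw [Matrix.mul_assoc, hyN']
        have e3 : y * N * z = y * (z * N) + (2 : ℂ) • (y * z) := by
          rw [Matrix.mul_assoc, hzN', Matrix.mul_add, Matrix.mul_smul]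
        rw [e2, e3, Matrix.smul_mul, br]
        module
      · have hyN' : N * y = y * N + (-2 : ℂ) • y := by rw [← hyN, br]; abel
        refine hWst _ (hl z hz y hy) (Or.inl ?_) _ hv1
        rw [e1, hzN', hyN', Matrix.add_mul, Matrix.add_mul]
        have e2 : z * N * y = z * (y * N) + (-2 : ℂ) • (z * y) := by
          rw [Matrix.mul_assoc, hyN', Matrix.mul_add, Matrix.mul_smul]
        have e3 : y * N * z = y * (z * N) + (2 : ℂ) • (y * z) := by
          rw [Matrix.mul_assoc, hzN', Matrix.mul_add, Matrix.mul_smul]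
        rw [e2, e3, Matrix.smul_mul, Matrix.smul_mul]
        module
    intro z hz hzN v hv
    exact (h1 hv).2 z hz hzN
  have hWh : ∀ y ∈ h, ∀ v ∈ W, y *ᵥ v ∈ W := by
    intro y hy v hv
    obtain ⟨a, ha, b, hb, c, hc, rfl, ha', hb', hc', -⟩ := exists_ad hle hl hh'.lie hN hPc
      hNN hf hy
    rw [Matrix.add_mulVec, Matrix.add_mulVec]
    exact Submodule.add_mem _ (Submodule.add_mem _ (hWst a ha (Or.inr ha') v hv)
      (hWst b hb (Or.inl hb') v hv)) (hW2 c hc hc' v hv)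
  -- the shape of the module
  have hTL0 : ∀ y, br N y = 0 → ∀ v ∈ TL N (m - 2), y *ᵥ v ∈ TL N (m - 2) := by
    intro y hyN v hv
    have h4 : N * y = y * N := by
      rw [br, sub_eq_zero] at hyN
      exact hyN
    induction hv using Submodule.span_induction with
    | mem v hv =>
      obtain ⟨d, hd, hv⟩ := hv
      refine TL_of hd ?_
      rw [Matrix.mulVec_mulVec, h4, ← Matrix.mulVec_mulVec, hv, Matrix.mulVec_smul]
    | zero => rw [Matrix.mulVec_zero]; exact Submodule.zero_mem _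
    | add u v _ _ hu hv => rw [Matrix.mulVec_add]; exact Submodule.add_mem _ hu hv
    | smul c u _ hu => rw [Matrix.mulVec_smul]; exact Submodule.smul_mem _ _ hu
  have hTL2 : ∀ y, br N y = (-2 : ℂ) • y → ∀ v ∈ TL N (m - 2), y *ᵥ v ∈ TL N (m - 2) := by
    intro y hyN v hv
    have h4 : N * y = y * N + (-2 : ℂ) • y := by rw [← hyN, br]; abel
    induction hv using Submodule.span_induction with
    | mem v hv =>
      obtain ⟨d, hd, hv⟩ := hv
      refine TL_of (d := d - 2) (by linarith) ?_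
      rw [Matrix.mulVec_mulVec, h4, Matrix.add_mulVec, ← Matrix.mulVec_mulVec, hv,
        Matrix.mulVec_smul, Matrix.smul_mulVec]
      push_cast
      module
    | zero => rw [Matrix.mulVec_zero]; exact Submodule.zero_mem _
    | add u v _ _ hu hv => rw [Matrix.mulVec_add]; exact Submodule.add_mem _ hu hv
    | smul c u _ hu => rw [Matrix.mulVec_smul]; exact Submodule.smul_mem _ _ hu
  have hNY : ∀ Y, br N Y = (-2 : ℂ) • Y → N *ᵥ (Y *ᵥ e) = ((m - 2 : ℝ) : ℂ) • (Y *ᵥ e) := by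
    intro Y hYN
    have hYN' : N * Y = Y * N + (-2 : ℂ) • Y := by rw [← hYN, br]; abel
    rw [Matrix.mulVec_mulVec, hYN', Matrix.add_mulVec, ← Matrix.mulVec_mulVec, hNe,
      Matrix.mulVec_smul, Matrix.smul_mulVec]
    push_cast
    module
  have hshape : W ≤ Submodule.span ℂ {e} ⊔ (Hm.map ev ⊔ TL N (m - 2)) := by
    refine hWle _ (Submodule.mem_sup_left (Submodule.mem_span_singleton_self e)) ?_
    intro y hy hyN v hv
    obtain ⟨v1, hv1, v2, hv2, rfl⟩ := Submodule.mem_sup.1 hv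
    obtain ⟨v3, hv3, v4, hv4, rfl⟩ := Submodule.mem_sup.1 hv2
    obtain ⟨c, rfl⟩ := Submodule.mem_span_singleton.1 hv1
    obtain ⟨Y, ⟨hY, hYN⟩, rfl⟩ := hv3
    rw [Matrix.mulVec_add, Matrix.mulVec_add, Matrix.mulVec_smul]
    change c • (y *ᵥ e) + (y *ᵥ (Y *ᵥ e) + y *ᵥ v4) ∈ _
    have hYN' : N * Y = Y * N + (-2 : ℂ) • Y := by rw [← hYN, br]; abel
    rcases hyN with hyN | hyN
    · have hyN' : N * y = y * N := by
        rw [br, sub_eq_zero] at hyN
        exact hyN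
      have h1 : y *ᵥ e = (y * ((2⁻¹ : ℂ) • (P + N * P))).trace • e := hetr y (hle hy) hyN
      have h2 : y *ᵥ (Y *ᵥ e) = br y Y *ᵥ e + Y *ᵥ (y *ᵥ e) := by
        rw [br, Matrix.sub_mulVec, Matrix.mulVec_mulVec, Matrix.mulVec_mulVec]
        abel
      have h3 : br N (br y Y) = (-2 : ℂ) • br y Y := by
        have e1 : br N (br y Y) = (N * y) * Y - y * (Y * N) - (N * Y) * y + Y * (y * N) := by
          simp only [br, Matrix.sub_mul, Matrix.mul_sub, Matrix.mul_assoc]
          abel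
        rw [e1, hyN', hYN', Matrix.add_mul]
        have e2 : y * N * Y = y * (Y * N) + (-2 : ℂ) • (y * Y) := by
          rw [Matrix.mul_assoc, hYN', Matrix.mul_add, Matrix.mul_smul]
        have e3 : Y * N * y = Y * (y * N) := by rw [Matrix.mul_assoc, hyN']
        rw [e2, e3, Matrix.smul_mul, br]
        module
      refine Submodule.add_mem _ (Submodule.smul_mem _ _ ?_) (Submodule.add_mem _ ?_ ?_)
      · rw [h1]
        exact Submodule.smul_mem _ _ (Submodule.mem_sup_left (Submodule.mem_span_singleton_self e))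
      · rw [h2, h1, Matrix.mulVec_smul]
        refine Submodule.mem_sup_right (Submodule.mem_sup_left (Submodule.add_mem _ ?_
          (Submodule.smul_mem _ _ ?_)))
        · exact ⟨br y Y, ⟨hl y hy Y hY, h3⟩, rfl⟩
        · exact ⟨Y, ⟨hY, hYN⟩, rfl⟩
      · exact Submodule.mem_sup_right (Submodule.mem_sup_right (hTL0 y hyN _ hv4))
    · refine Submodule.add_mem _ (Submodule.smul_mem _ _ ?_) (Submodule.add_mem _ ?_ ?_)
      · exact Submodule.mem_sup_right (Submodule.mem_sup_left ⟨y, ⟨hy, hyN⟩, rfl⟩)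
      · refine Submodule.mem_sup_right (Submodule.mem_sup_right (TL_of (d := m - 4)
          (by linarith) ?_))
        have h4 : N * y = y * N + (-2 : ℂ) • y := by rw [← hyN, br]; abel
        rw [Matrix.mulVec_mulVec, h4, Matrix.add_mulVec, ← Matrix.mulVec_mulVec, hNY Y hYN,
          Matrix.mulVec_smul, Matrix.smul_mulVec]
        push_cast
        module
      · exact Submodule.mem_sup_right (Submodule.mem_sup_right (hTL2 y hyN _ hv4))
  -- the value of `X` on `e`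
  obtain ⟨E, hE1, hE2, hE3⟩ := hproj W hWh
  have hXE : X * E = E * X := hcc X hX E hE3
  have hXe : X *ᵥ e ∈ W := by
    have h1 : X *ᵥ e = E *ᵥ (X *ᵥ e) := by
      conv_lhs => rw [← hE2 e hWe]
      rw [Matrix.mulVec_mulVec, Matrix.mulVec_mulVec, hXE]
    rw [h1]
    exact hE1 _
  obtain ⟨v1, hv1, v2, hv2, hsum⟩ := Submodule.mem_sup.1 (hshape hXe)
  obtain ⟨v3, hv3, t, ht, rfl⟩ := Submodule.mem_sup.1 hv2
  obtain ⟨c, rfl⟩ := Submodule.mem_span_singleton.1 hv1
  obtain ⟨Y, ⟨hY, hYN⟩, rfl⟩ := hv3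
  change c • e + (Y *ᵥ e + t) = X *ᵥ e at hsum
  obtain ⟨Z, hZ⟩ : ∃ Z, Z = X - Y := ⟨_, rfl⟩
  have hZh : Z ∈ h' := by rw [hZ]; exact Submodule.sub_mem _ hX (hle hY)
  have hZN : br N Z = (-2 : ℂ) • Z := by
    rw [hZ, ← aN_apply, map_sub, aN_apply, aN_apply, hXN, hYN, smul_sub]
  have hZe : Z *ᵥ e = c • e + t := by
    rw [hZ, Matrix.sub_mulVec, ← hsum]
    abel
  have hZm := hNY Z hZN
  have hce : c • e = 0 := by
    have h1 : c • e ∈ TL N m := by
      have h2 : c • e = Z *ᵥ e - t := by rw [hZe]; abel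
      rw [h2]
      exact Submodule.sub_mem _ (TL_of (by linarith) hZm) (TL_mono (by linarith) ht)
    refine TL_zero h1 ?_
    rw [Matrix.mulVec_smul, hNe, smul_comm]
  have hZ0 : Z *ᵥ e = 0 := by
    have h1 : Z *ᵥ e ∈ TL N (m - 2) := by
      rw [hZe, hce, zero_add]
      exact ht
    exact TL_zero h1 hZm
  -- the trace form
  have hZN' : N * Z = Z * N + (-2 : ℂ) • Z := by rw [← hZN, br]; abel
  have hgr : ∀ (d : ℂ) (V : Matrix ι ι ℂ), V ∈ h' → br N V = d • V → d ≠ 2 →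
      (V * Z * P).trace = 0 := by
    intro d V hV hVN hd
    have hVN' : N * V = V * N + d • V := by rw [← hVN, br]; abel
    have h1 : N * (V * Z * P) - V * Z * P * N = (d - 2) • (V * Z * P) := by
      have e1 : N * (V * Z * P) = (N * V) * (Z * P) := by simp only [Matrix.mul_assoc]
      have e2 : V * Z * P * N = V * (Z * N) * P := by
        rw [Matrix.mul_assoc (V * Z), hPN]; simp only [Matrix.mul_assoc]
      have e3 : V * N * (Z * P) = V * (N * Z) * P := by simp only [Matrix.mul_assoc]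
      rw [e1, e2, hVN', Matrix.add_mul, e3, hZN', Matrix.mul_add, Matrix.add_mul,
        Matrix.smul_mul, Matrix.mul_smul, Matrix.smul_mul, ← Matrix.mul_assoc V Z P]
      module
    have h2 := congrArg Matrix.trace h1
    rw [Matrix.trace_sub, Matrix.trace_mul_comm N, sub_self, Matrix.trace_smul, smul_eq_mul] at h2
    exact (mul_eq_zero.1 h2.symm).resolve_left (sub_ne_zero.2 hd)
  have hall : ∀ V ∈ h', (V * Z * P).trace = 0 := by
    intro V hV
    obtain ⟨a, ha, b, hb, c, hc, rfl, ha', hb', hc', -⟩ := exists_ad (h := h') (h' := h') le_rfl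
      hh'.lie hh'.lie (hle hN) hPc hNN hf hV
    have h1 : (c * Z * P).trace = 0 := by
      have h2 := htr c hc hc' Z hZh hZN
      rw [hZ0, Matrix.mulVec_zero] at h2
      exact (smul_eq_zero.1 h2.symm).resolve_right he0
    rw [Matrix.add_mul, Matrix.add_mul, Matrix.add_mul, Matrix.add_mul, Matrix.trace_add,
      Matrix.trace_add, hgr (-2) a ha ha' (by norm_num),
      hgr 0 b hb (by rw [hb', zero_smul]) (by norm_num), h1]
    simp
  have h2 := hall Zᴴ (hh'.star _ hZh)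
  have h3 : ((Z * P)ᴴ * (Z * P)).trace = 0 := by
    rw [Matrix.conjTranspose_mul, hPH, Matrix.mul_assoc, Matrix.trace_mul_comm]
    calc (Zᴴ * (Z * P) * P).trace = (Zᴴ * Z * (P * P)).trace := by
          simp only [Matrix.mul_assoc]
      _ = 0 := by rw [hPP, h2]
  have h4 : Z * P = 0 := Matrix.trace_conjTranspose_mul_self_eq_zero_iff.1 h3
  have h5 := hf Z hZh h4
  rw [hZ, sub_eq_zero] at h5
  rw [h5]
  exact hY

end Pool.Agent.L0h10.TS
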