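import Mathlib

/-!
# Minimal stable subspaces
-/

set_option linter.unusedSectionVars false

namespace Pool.Agent.L0h10.TS

open Matrix

variable {ι : Type} [Fintype ι] {S : Set (Matrix ι ι ℂ)}

/-- The subspace is stable under the set of matrices. -/
def Stab (S : Set (Matrix ι ι ℂ)) (W : Submodule ℂ (ι → ℂ)) : Prop :=
  ∀ y ∈ S, ∀ v ∈ W, y *ᵥ v ∈ W

/-- The subspace is minimal among the nonzero stable subspaces. -/
def Mini (S : Set (Matrix ι ι ℂ)) (W : Submodule ℂ (ι → ℂ)) : Prop :=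
  W ≠ ⊥ ∧ Stab S W ∧ ∀ W' ≤ W, Stab S W' → W' = ⊥ ∨ W' = W

/-- The sum of the minimal stable subspaces. -/
def soc (S : Set (Matrix ι ι ℂ)) : Submodule ℂ (ι → ℂ) := sSup {W | Mini S W}

lemma Mini.le {W : Submodule ℂ (ι → ℂ)} (h : Mini S W) : W ≤ soc S := le_sSup h

lemma Stab.inf {W W' : Submodule ℂ (ι → ℂ)} (h : Stab S W) (h' : Stab S W') : Stab S (W ⊓ W') :=
  fun y hy v hv => ⟨h y hy v hv.1, h' y hy v hv.2⟩

lemma Stab.sup {W W' : Submodule ℂ (ι → ℂ)} (h : Stab S W) (h' : Stab S W') :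
    Stab S (W ⊔ W') := by
  intro y hy v hv
  obtain ⟨a, ha, b, hb, rfl⟩ := Submodule.mem_sup.1 hv
  rw [Matrix.mulVec_add]
  exact Submodule.add_mem_sup (h y hy a ha) (h' y hy b hb)

lemma exists_mini {W : Submodule ℂ (ι → ℂ)} (h0 : W ≠ ⊥) (h : Stab S W) :
    ∃ M ≤ W, Mini S M := by
  classical
  have key : ∀ (n : ℕ) (W : Submodule ℂ (ι → ℂ)), Module.finrank ℂ W = n → W ≠ ⊥ → Stab S W →
      ∃ M ≤ W, Mini S M := by
    intro n
    induction n using Nat.strong_induction_on with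
    | _ n ih =>
      intro W hn h0 h
      by_cases hm : Mini S W
      · exact ⟨W, le_rfl, hm⟩
      · simp only [Mini, not_and, not_forall, not_or] at hm
        obtain ⟨W', hle, hst, h1, h2⟩ := hm h0 h
        have hlt : Module.finrank ℂ W' < n := by
          rw [← hn]
          exact Submodule.finrank_lt_finrank_of_lt (lt_of_le_of_ne hle h2)
        obtain ⟨M, hM1, hM2⟩ := ih _ hlt W' rfl h1 hst
        exact ⟨M, hM1.trans hle, hM2⟩
  exact key _ W rfl h0 h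

lemma soc_map {f : (ι → ℂ) →ₗ[ℂ] (ι → ℂ)} {T : Submodule ℂ (ι → ℂ)}
    (h : ∀ W, Mini S W → W.map f ≤ T) {v : ι → ℂ} (hv : v ∈ soc S) : f v ∈ T := by
  have h1 : soc S ≤ T.comap f := sSup_le fun W hW x hx => h W hW ⟨x, hx, rfl⟩
  exact h1 hv

lemma soc_stab : Stab S (soc S) := fun y hy _ hv =>
  soc_map (f := Matrix.mulVecLin y) (fun W hW => by
    rintro _ ⟨x, hx, rfl⟩
    exact hW.le (hW.2.1 y hy x hx)) hv

/-- Matrices which commute with the set preserve the socle. -/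
lemma soc_comm {c : Matrix ι ι ℂ} (hc : ∀ y ∈ S, c * y = y * c) {v : ι → ℂ} (hv : v ∈ soc S) :
    c *ᵥ v ∈ soc S := by
  refine soc_map (f := Matrix.mulVecLin c) (fun W hW => ?_) hv
  have hk : Stab S (W ⊓ LinearMap.ker (Matrix.mulVecLin c)) := by
    refine hW.2.1.inf fun y hy x hx => ?_
    rw [LinearMap.mem_ker, Matrix.mulVecLin_apply] at hx ⊢
    rw [Matrix.mulVec_mulVec, hc y hy, ← Matrix.mulVec_mulVec, hx, Matrix.mulVec_zero]
  rcases hW.2.2 _ inf_le_left hk with h | h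
  · refine Mini.le ⟨?_, ?_, ?_⟩
    · intro h0
      apply hW.1
      rw [eq_bot_iff]
      intro x hx
      have h1 : Matrix.mulVecLin c x ∈ W.map (Matrix.mulVecLin c) := ⟨x, hx, rfl⟩
      rw [h0, Submodule.mem_bot] at h1
      rw [← h]
      exact ⟨hx, h1⟩
    · rintro y hy _ ⟨x, hx, rfl⟩
      refine ⟨y *ᵥ x, hW.2.1 y hy x hx, ?_⟩
      rw [Matrix.mulVecLin_apply, Matrix.mulVecLin_apply, Matrix.mulVec_mulVec, hc y hy,
        ← Matrix.mulVec_mulVec]
    · intro W' hle hst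
      have h2 : Stab S (W ⊓ W'.comap (Matrix.mulVecLin c)) := by
        refine hW.2.1.inf fun y hy x hx => ?_
        change c *ᵥ (y *ᵥ x) ∈ W'
        rw [Matrix.mulVec_mulVec, hc y hy, ← Matrix.mulVec_mulVec]
        exact hst y hy _ hx
      rcases hW.2.2 _ inf_le_left h2 with h3 | h3
      · left
        rw [eq_bot_iff]
        intro x hx
        obtain ⟨z, hz, rfl⟩ := hle hx
        have h4 : z ∈ W ⊓ W'.comap (Matrix.mulVecLin c) := ⟨hz, hx⟩
        rw [h3, Submodule.mem_bot] at h4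
        rw [h4, map_zero]
        exact Submodule.zero_mem _
      · right
        refine le_antisymm hle ?_
        rintro _ ⟨z, hz, rfl⟩
        rw [← h3] at hz
        exact hz.2
  · rintro _ ⟨x, hx, rfl⟩
    rw [← h] at hx
    have h1 : Matrix.mulVecLin c x = 0 := hx.2
    rw [h1]
    exact Submodule.zero_mem _

/-- Invertible matrices which normalise the set preserve the socle. -/
lemma soc_norm [DecidableEq ι] {c c' : Matrix ι ι ℂ} (hcc : c' * c = 1)
    (h1 : ∀ y ∈ S, c' * y * c ∈ S) (h2 : ∀ y ∈ S, c * y * c' ∈ S) {v : ι → ℂ}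
    (hv : v ∈ soc S) : c *ᵥ v ∈ soc S := by
  have hcc' : c * c' = 1 := mul_eq_one_comm.1 hcc
  have key : ∀ {c c' : Matrix ι ι ℂ}, c' * c = 1 → (∀ y ∈ S, c' * y * c ∈ S) →
      ∀ W, Stab S W → Stab S (W.map (Matrix.mulVecLin c)) := by
    rintro c c' hcc h W hW y hy _ ⟨x, hx, rfl⟩
    have hcc' : c * c' = 1 := mul_eq_one_comm.1 hcc
    refine ⟨(c' * y * c) *ᵥ x, hW _ (h y hy) x hx, ?_⟩
    rw [Matrix.mulVecLin_apply, Matrix.mulVecLin_apply, Matrix.mulVec_mulVec,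
      Matrix.mulVec_mulVec]
    congr 1
    rw [← Matrix.mul_assoc, ← Matrix.mul_assoc, hcc', Matrix.one_mul]
  have hmm : ∀ {c c' : Matrix ι ι ℂ}, c' * c = 1 → ∀ W : Submodule ℂ (ι → ℂ),
      (W.map (Matrix.mulVecLin c)).map (Matrix.mulVecLin c') = W := by
    intro c c' hcc W
    rw [← Submodule.map_comp]
    have h3 : Matrix.mulVecLin c' ∘ₗ Matrix.mulVecLin c = LinearMap.id := by
      rw [← Matrix.mulVecLin_mul, hcc, Matrix.mulVecLin_one]
    rw [h3, Submodule.map_id]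
  refine soc_map (f := Matrix.mulVecLin c) (fun W hW => Mini.le ⟨?_, key hcc h1 W hW.2.1, ?_⟩) hv
  · intro h0
    apply hW.1
    rw [← hmm hcc W, h0, Submodule.map_bot]
  · intro W' hle hst
    have h3 : W'.map (Matrix.mulVecLin c') ≤ W := by
      rw [← hmm hcc W]
      exact Submodule.map_mono hle
    rcases hW.2.2 _ h3 (key hcc' h2 W' hst) with h4 | h4
    · left
      rw [← hmm hcc' W', h4, Submodule.map_bot]
    · right
      rw [← hmm hcc' W', h4]

/-- If the space is the sum of the minimal stable subspaces, then stable subspaces have stable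
complements. -/
lemma exists_compl (h : soc S = ⊤) {W : Submodule ℂ (ι → ℂ)} (hW : Stab S W) :
    ∃ C, Stab S C ∧ IsCompl W C := by
  classical
  let P : Set ℕ := {d | ∃ C, Stab S C ∧ W ⊓ C = ⊥ ∧ Module.finrank ℂ C = d}
  have hP : P.Nonempty := ⟨0, ⊥, fun y _ v hv => by
    rw [Submodule.mem_bot] at hv ⊢
    rw [hv, Matrix.mulVec_zero], inf_bot_eq _, finrank_bot ℂ _⟩
  have hb : ∀ d ∈ P, d ≤ Module.finrank ℂ (ι → ℂ) := by
    rintro d ⟨C, _, _, rfl⟩
    exact Submodule.finrank_le C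
  obtain ⟨d, hd, hmax⟩ : ∃ d ∈ P, ∀ d' ∈ P, d' ≤ d := by
    have h1 : (P.Finite) := Set.Finite.subset (Set.finite_Iic _) hb
    obtain ⟨d, hd, hd'⟩ := h1.exists_maximal hP
    exact ⟨d, hd, fun d' hd'' => by
      by_contra hcon
      push Not at hcon
      exact absurd (hd' hd'' hcon.le) (by omega)⟩
  obtain ⟨C, hC, hWC, rfl⟩ := hd
  refine ⟨C, hC, ⟨disjoint_iff.2 hWC, codisjoint_iff.2 ?_⟩⟩
  by_contra hne
  have h1 : ∃ M, Mini S M ∧ ¬ M ≤ W ⊔ C := by
    by_contra hcon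
    push Not at hcon
    apply hne
    rw [eq_top_iff, ← h]
    exact sSup_le fun M hM => hcon M hM
  obtain ⟨M, hM, hMn⟩ := h1
  have h2 : M ⊓ (W ⊔ C) = ⊥ := by
    rcases hM.2.2 _ inf_le_left (hM.2.1.inf (hW.sup hC)) with h3 | h3
    · exact h3
    · exact absurd (inf_eq_left.1 h3) hMn
  have h3 : W ⊓ (C ⊔ M) = ⊥ := by
    rw [eq_bot_iff]
    rintro x ⟨hx1, hx2⟩
    obtain ⟨a, ha, b, hb, rfl⟩ := Submodule.mem_sup.1 hx2
    have hb1 : b ∈ M ⊓ (W ⊔ C) := by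
      refine ⟨hb, ?_⟩
      have h4 : b = (a + b) - a := by abel
      rw [h4]
      exact Submodule.sub_mem _ (Submodule.mem_sup_left hx1) (Submodule.mem_sup_right ha)
    rw [h2, Submodule.mem_bot] at hb1
    rw [hb1, add_zero] at hx1 ⊢
    rw [← hWC]
    exact ⟨hx1, ha⟩
  have h4 : Module.finrank ℂ (C ⊔ M : Submodule ℂ (ι → ℂ)) ≤ Module.finrank ℂ C :=
    hmax _ ⟨C ⊔ M, hC.sup hM.2.1, h3, rfl⟩
  have h5 : C = C ⊔ M := Submodule.eq_of_le_of_finrank_le le_sup_left h4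
  apply hMn
  have h6 : M ≤ C := by
    rw [h5]
    exact le_sup_right
  exact h6.trans le_sup_right

/-- Projectors. -/
lemma exists_proj_of_compl [DecidableEq ι] {W C : Submodule ℂ (ι → ℂ)} (hW : Stab S W)
    (hC : Stab S C) (h : IsCompl W C) :
    ∃ E : Matrix ι ι ℂ, (∀ v, E *ᵥ v ∈ W) ∧ (∀ v ∈ W, E *ᵥ v = v) ∧ ∀ y ∈ S, E * y = y * E := by
  obtain ⟨f, hf⟩ : ∃ f : (ι → ℂ) →ₗ[ℂ] (ι → ℂ), f = W.projection C h := ⟨_, rfl⟩
  have h1 : ∀ v, LinearMap.toMatrix' f *ᵥ v = f v := fun v => by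
    rw [← Matrix.toLin'_apply, Matrix.toLin'_toMatrix']
  have h2 : ∀ v, f v ∈ W := fun v => by rw [hf]; exact Submodule.projection_apply_mem _ v
  have h3 : ∀ v, v - f v ∈ C := fun v => by rw [hf]; exact Submodule.sub_projection_mem _ v
  have h4 : ∀ v ∈ W, f v = v := by
    intro v hv
    have h5 : v - f v ∈ W ⊓ C := ⟨Submodule.sub_mem _ hv (h2 v), h3 v⟩
    rw [h.inf_eq_bot, Submodule.mem_bot, sub_eq_zero] at h5
    exact h5.symm
  refine ⟨LinearMap.toMatrix' f, fun v => by rw [h1]; exact h2 v, fun v hv => by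
    rw [h1]; exact h4 v hv, fun y hy => ?_⟩
  apply Matrix.mulVec_injective
  funext v
  rw [← Matrix.mulVec_mulVec, ← Matrix.mulVec_mulVec, h1, h1]
  have h5 : f (y *ᵥ v) - y *ᵥ f v ∈ W ⊓ C := by
    refine ⟨Submodule.sub_mem _ (h2 _) (hW y hy _ (h2 v)), ?_⟩
    have h6 : f (y *ᵥ v) - y *ᵥ f v = y *ᵥ (v - f v) - (y *ᵥ v - f (y *ᵥ v)) := by
      rw [Matrix.mulVec_sub]; abel
    rw [h6]
    exact Submodule.sub_mem _ (hC y hy _ (h3 v)) (h3 _)
  rw [h.inf_eq_bot, Submodule.mem_bot, sub_eq_zero] at h5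
  exact h5

end Pool.Agent.L0h10.TS
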