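import Pool.Agent.L0h10.TS.Lin
import Pool.Agent.L0h10.TS.Soc
import Pool.Agent.L0h10.TS.Core
import Pool.Agent.W522.U.C8

/-!
# Galois actions in coordinates
-/

set_option linter.unusedSectionVars false

namespace Pool.Agent.L0h10.TS

open Matrix Module Pool.Agent.N996.BP Pool.Agent.N996.FP TensorProduct

section ar2

variable {ι : Type} [Fintype ι] [DecidableEq ι]

/-- The matrix as an array with two indices. -/
def ar2 {R : Type*} (M : Matrix ι ι R) : (Fin (1 + 1) → ι) → R := fun w => M (w 0) (w 1)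

lemma ar2_inj {R : Type*} {M N : Matrix ι ι R} (h : ar2 M = ar2 N) : M = N := by
  ext i j
  exact congrFun h ![i, j]

lemma ar2_surj {R : Type*} (a : (Fin (1 + 1) → ι) → R) : ∃ M : Matrix ι ι R, a = ar2 M := by
  refine ⟨Matrix.of fun i j => a ![i, j], ?_⟩
  funext w
  change a w = a ![w 0, w 1]
  congr 1
  funext k
  fin_cases k <;> rfl

lemma ar2_add {R : Type*} [Add R] (M N : Matrix ι ι R) : ar2 (M + N) = ar2 M + ar2 N := rfl

lemma sum_fin2 {M : Type*} [AddCommMonoid M] (f : (Fin (1 + 1) → ι) → M) :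
    ∑ w, f w = ∑ i, ∑ j, f ![i, j] := by
  rw [← (finTwoArrowEquiv ι).symm.sum_comp, Fintype.sum_prod_type]
  rfl

lemma dk_ar2 (x M : Matrix ι ι ℂ) : dk (Fin (1 + 1)) x *ᵥ ar2 M = ar2 (x * M + M * xᵀ) := by
  funext w
  rw [dk_mulVec_apply, Fin.sum_univ_two, ar2_add, Pi.add_apply, ar2, ar2, Matrix.mul_apply,
    Matrix.mul_apply]
  congr 1
  refine Finset.sum_congr rfl fun t _ => ?_
  rw [Matrix.transpose_apply, mul_comm]
  rfl

lemma kp_ar2 {R : Type*} [CommRing R] (g M : Matrix ι ι R) :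
    kp (Fin (1 + 1)) g *ᵥ ar2 M = ar2 (g * M * gᵀ) := by
  funext w
  rw [Matrix.mulVec, dotProduct, sum_fin2, ar2, Matrix.mul_apply]
  rw [Finset.sum_comm]
  refine Finset.sum_congr rfl fun j _ => ?_
  rw [Matrix.mul_apply, Finset.sum_mul]
  refine Finset.sum_congr rfl fun i _ => ?_
  rw [kp_apply, Fin.prod_univ_two, ar2, Matrix.transpose_apply]
  simp only [Matrix.cons_val_zero, Matrix.cons_val_one]
  ring

end ar2

/-- Semisimplicity over the subfield gives semisimplicity over the complex numbers. -/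
lemma exists_proj_mat {L : Type} [Field L] [CharZero L] (j : L →+* ℂ)
    (halg : ∀ z : ℂ, ∃ p : Polynomial L, p ≠ 0 ∧ p.eval₂ j z = 0) {ι : Type} [Fintype ι]
    [DecidableEq ι] (G : Set (Matrix ι ι L))
    (hG : ∀ U : Submodule L (ι → L), (∀ g ∈ G, ∀ u ∈ U, g *ᵥ u ∈ U) →
      ∃ U' : Submodule L (ι → L), (∀ g ∈ G, ∀ u ∈ U', g *ᵥ u ∈ U') ∧ IsCompl U U')
    (W : Submodule ℂ (ι → ℂ)) (hW : ∀ g ∈ G, ∀ v ∈ W, g.map j *ᵥ v ∈ W) :
    ∃ E : Matrix ι ι ℂ, (∀ v, E *ᵥ v ∈ W) ∧ (∀ v ∈ W, E *ᵥ v = v) ∧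
      ∀ g ∈ G, E * g.map j = g.map j * E := by
  classical
  let _ : Algebra L ℂ := j.toAlgebra
  have : Algebra.IsAlgebraic L ℂ := ⟨fun z => by
    obtain ⟨p, hp, hz⟩ := halg z
    exact ⟨p, hp, hz⟩⟩
  let φ : (ℂ ⊗[L] (ι → L)) ≃ₗ[ℂ] (ι → ℂ) := TensorProduct.piScalarRight L ℂ ℂ ι
  have hφ : ∀ (c : ℂ) (f : ι → L), φ (c ⊗ₜ[L] f) = fun i => j (f i) * c := by
    intro c f
    funext i
    change (TensorProduct.piScalarRight L ℂ ℂ ι (c ⊗ₜ[L] f)) i = _
    rw [TensorProduct.piScalarRight_apply, TensorProduct.piScalarRightHom_tmul]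
    exact Algebra.smul_def _ _
  have hT : ∀ (g : Matrix ι ι L) (w : ℂ ⊗[L] (ι → L)),
      φ ((Matrix.mulVecLin g).baseChange ℂ w) = g.map j *ᵥ φ w := by
    intro g w
    induction w with
    | zero => rw [map_zero, map_zero, Matrix.mulVec_zero]
    | add a b ha hb => rw [map_add, map_add, ha, hb, map_add, Matrix.mulVec_add]
    | tmul a v =>
      rw [LinearMap.baseChange_tmul, hφ, hφ]
      funext i
      rw [Matrix.mulVecLin_apply, Matrix.mulVec, Matrix.mulVec, dotProduct, dotProduct, map_sum,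
        Finset.sum_mul]
      refine Finset.sum_congr rfl fun k _ => ?_
      rw [map_mul, Matrix.map_apply, mul_assoc]
  obtain ⟨Q, hQ1, hQ2, hQ3⟩ := Pool.Agent.W522.U.exists_proj_algebraic (k := L) (Ω := ℂ)
    (V := ι → L) (Matrix.mulVecLin '' G) (fun U hU => by
      obtain ⟨U', h1, h2⟩ := hG U fun g hg u hu => hU _ ⟨g, hg, rfl⟩ u hu
      refine ⟨U', ?_, h2⟩
      rintro _ ⟨g, hg, rfl⟩ u hu
      exact h1 g hg u hu) (W.comap φ.toLinearMap) (by
      rintro _ ⟨g, hg, rfl⟩ u hu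
      change φ _ ∈ W
      rw [hT]
      exact hW g hg _ hu)
  let f : (ι → ℂ) →ₗ[ℂ] (ι → ℂ) := φ.toLinearMap ∘ₗ Q ∘ₗ φ.symm.toLinearMap
  have hf : ∀ v, LinearMap.toMatrix' f *ᵥ v = φ (Q (φ.symm v)) := fun v => by
    rw [← Matrix.toLin'_apply, Matrix.toLin'_toMatrix']
    rfl
  refine ⟨LinearMap.toMatrix' f, fun v => ?_, fun v hv => ?_, fun g hg => ?_⟩
  · rw [hf]
    exact hQ1 _
  · rw [hf, hQ2, LinearEquiv.apply_symm_apply]
    change φ (φ.symm v) ∈ W
    rwa [LinearEquiv.apply_symm_apply]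
  · apply Matrix.mulVec_injective
    funext v
    rw [← Matrix.mulVec_mulVec, ← Matrix.mulVec_mulVec, hf, hf]
    have h1 := hQ3 _ ⟨g, hg, rfl⟩ (φ.symm v)
    have h2 : φ.symm (g.map j *ᵥ v) = (Matrix.mulVecLin g).baseChange ℂ (φ.symm v) := by
      apply φ.injective
      rw [hT, LinearEquiv.apply_symm_apply, LinearEquiv.apply_symm_apply]
    rw [h2, h1, hT]


/-- A representation of a group on a cohomology ring, in coordinates. -/
structure GRep {ι : Type} [Fintype ι] [DecidableEq ι] (deg : ι → ℕ) (L : Type) [Field L]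
    (Γ : Type*) [Group Γ] where
  /-- the matrices -/
  R : Γ → Matrix ι ι L
  /-- the character -/
  χ : Γ → L
  one : R 1 = 1
  mul : ∀ g h, R (g * h) = R g * R h
  χ_one : χ 1 = 1
  χ_mul : ∀ g h, χ (g * h) = χ g * χ h
  deg' : ∀ g i k, deg i ≠ deg k → R g i k = 0

namespace GRep

variable {ι : Type} [Fintype ι] [DecidableEq ι] {deg : ι → ℕ} {L : Type} [Field L] {Γ : Type*}
  [Group Γ] [TopologicalSpace Γ] (P : GRep deg L Γ)

/-- Tate arrays of a given degree. -/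
def IsTp (n p : ℕ) (a : (Fin (n + 1) → ι) → L) : Prop :=
  (∀ w, a w ≠ 0 → ∑ i, deg (w i) = 2 * p) ∧
    ∃ Δ : OpenSubgroup Γ, ∀ g ∈ Δ, P.χ g ^ p • (kp (Fin (n + 1)) (P.R g) *ᵥ a) = a

/-- Tate arrays. -/
def IsT (n : ℕ) (a : (Fin (n + 1) → ι) → L) : Prop := ∃ p, P.IsTp n p a

variable {P} {n p : ℕ}

lemma IsTp.add {a b : (Fin (n + 1) → ι) → L} (ha : P.IsTp n p a) (hb : P.IsTp n p b) :
    P.IsTp n p (a + b) := by
  obtain ⟨h1, Δ, h2⟩ := ha
  obtain ⟨h3, Δ', h4⟩ := hb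
  refine ⟨fun w hw => ?_, Δ ⊓ Δ', fun g hg => ?_⟩
  · by_cases h5 : a w = 0
    · refine h3 w fun h6 => hw ?_
      rw [Pi.add_apply, h5, h6, add_zero]
    · exact h1 w h5
  · rw [Matrix.mulVec_add, smul_add, h2 g hg.1, h4 g hg.2]

lemma IsTp.zero : P.IsTp n p 0 :=
  ⟨fun _ hw => absurd rfl hw, ⊤, fun g _ => by rw [Matrix.mulVec_zero, smul_zero]⟩

lemma IsTp.smul {a : (Fin (n + 1) → ι) → L} (ha : P.IsTp n p a) (c : L) :
    P.IsTp n p (c • a) := by
  obtain ⟨h1, Δ, h2⟩ := ha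
  refine ⟨fun w hw => h1 w fun h => hw ?_, Δ, fun g hg => ?_⟩
  · rw [Pi.smul_apply, h, smul_zero]
  · rw [Matrix.mulVec_smul, smul_comm, h2 g hg]

/-- The homogeneous parts of combinations of Tate arrays. -/
lemma of_span {a : (Fin (n + 1) → ι) → L} (ha : a ∈ Submodule.span L {a | P.IsT n a}) (p : ℕ) :
    P.IsTp n p fun w => if ∑ i, deg (w i) = 2 * p then a w else 0 := by
  induction ha using Submodule.span_induction with
  | mem a ha =>
    obtain ⟨q, hq⟩ := ha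
    by_cases h : q = p
    · subst h
      have h1 : (fun w => if ∑ i, deg (w i) = 2 * q then a w else 0) = a := by
        funext w
        by_cases h2 : ∑ i, deg (w i) = 2 * q
        · rw [if_pos h2]
        · rw [if_neg h2]
          by_contra h3
          exact h2 (hq.1 w (Ne.symm h3))
      rw [h1]
      exact hq
    · have h1 : (fun w => if ∑ i, deg (w i) = 2 * p then a w else 0) = 0 := by
        funext w
        by_cases h2 : ∑ i, deg (w i) = 2 * p
        · rw [if_pos h2, Pi.zero_apply]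
          by_contra h3
          have := hq.1 w h3
          omega
        · rw [if_neg h2, Pi.zero_apply]
      rw [h1]
      exact IsTp.zero
  | zero =>
    have h1 : (fun w : Fin (n + 1) → ι => if ∑ i, deg (w i) = 2 * p then
        (0 : (Fin (n + 1) → ι) → L) w else 0) = 0 := by
      funext w
      rw [Pi.zero_apply, ite_self]
    rw [h1]
    exact IsTp.zero
  | add a b _ _ ha hb =>
    have h1 : (fun w => if ∑ i, deg (w i) = 2 * p then (a + b) w else 0) =
        (fun w => if ∑ i, deg (w i) = 2 * p then a w else 0) +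
          fun w => if ∑ i, deg (w i) = 2 * p then b w else 0 := by
      funext w
      change (if ∑ i, deg (w i) = 2 * p then a w + b w else 0) =
        (if ∑ i, deg (w i) = 2 * p then a w else 0) + if ∑ i, deg (w i) = 2 * p then b w else 0
      by_cases h2 : ∑ i, deg (w i) = 2 * p
      · rw [if_pos h2, if_pos h2, if_pos h2]
      · rw [if_neg h2, if_neg h2, if_neg h2, add_zero]
    rw [h1]
    exact ha.add hb
  | smul c a _ ha =>
    have h1 : (fun w => if ∑ i, deg (w i) = 2 * p then (c • a) w else 0) =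
        c • fun w => if ∑ i, deg (w i) = 2 * p then a w else 0 := by
      funext w
      change (if ∑ i, deg (w i) = 2 * p then c • a w else 0) =
        c • if ∑ i, deg (w i) = 2 * p then a w else 0
      by_cases h2 : ∑ i, deg (w i) = 2 * p
      · rw [if_pos h2, if_pos h2]
      · rw [if_neg h2, if_neg h2, smul_zero]
    rw [h1]
    exact ha.smul c

lemma kp_supp {R : Type*} [CommRing R] {g : Matrix ι ι R} (hg : ∀ i k, deg i ≠ deg k → g i k = 0)
    {a : (Fin (n + 1) → ι) → R} (ha : ∀ w, a w ≠ 0 → ∑ i, deg (w i) = 2 * p) (w : Fin (n + 1) → ι)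
    (hw : (kp (Fin (n + 1)) g *ᵥ a) w ≠ 0) : ∑ i, deg (w i) = 2 * p := by
  rw [Matrix.mulVec, dotProduct] at hw
  obtain ⟨v, -, hv⟩ := Finset.exists_ne_zero_of_sum_ne_zero hw
  have h1 : a v ≠ 0 := fun h => hv (by rw [h, mul_zero])
  rw [← ha v h1]
  refine Finset.sum_congr rfl fun i _ => ?_
  by_contra h2
  apply hv
  rw [kp_apply, Finset.prod_eq_zero (Finset.mem_univ i) (hg _ _ h2), zero_mul]

/-- Translates of Tate arrays. -/
lemma IsT.kp [IsTopologicalGroup Γ] {a : (Fin (n + 1) → ι) → L} (ha : P.IsT n a) (h : Γ) :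
    P.IsT n (kp (Fin (n + 1)) (P.R h) *ᵥ a) := by
  obtain ⟨p, h1, Δ, h2⟩ := ha
  have hc : Continuous (MulAut.conj h⁻¹ : Γ → Γ) := by
    change Continuous fun x => h⁻¹ * x * (h⁻¹)⁻¹
    exact (continuous_const.mul continuous_id).mul continuous_const
  refine ⟨p, fun w hw => kp_supp (P.deg' h) h1 w hw,
    Δ.comap (MulAut.conj h⁻¹).toMonoidHom hc, fun g hg => ?_⟩
  have h3 : h⁻¹ * g * h ∈ Δ := by
    have h4 : (MulAut.conj h⁻¹).toMonoidHom g ∈ Δ := hg
    change h⁻¹ * g * (h⁻¹)⁻¹ ∈ Δ at h4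
    rwa [inv_inv] at h4
  obtain ⟨x, hx⟩ : ∃ x, x = h⁻¹ * g * h := ⟨_, rfl⟩
  rw [← hx] at h3
  have h4 : g * h = h * x := by rw [hx]; group
  have h5 : P.χ g = P.χ x := by
    have h6 := congrArg P.χ h4
    rw [P.χ_mul, P.χ_mul, mul_comm (P.χ h)] at h6
    have h7 : P.χ h * P.χ h⁻¹ = 1 := by rw [← P.χ_mul, mul_inv_cancel, P.χ_one]
    have h8 : P.χ h ≠ 0 := fun h9 => by rw [h9, zero_mul] at h7; exact zero_ne_one h7
    exact mul_right_cancel₀ h8 h6
  rw [Matrix.mulVec_mulVec, ← kp_mul, ← P.mul, h4, P.mul, kp_mul, ← Matrix.mulVec_mulVec, h5,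
    ← Matrix.mulVec_smul, h2 x h3]

lemma R_inv (g : Γ) : P.R g⁻¹ * P.R g = 1 := by rw [← P.mul, inv_mul_cancel, P.one]

lemma exists_open {α : Type*} [DecidableEq α] (s : Finset α) (Q : α → OpenSubgroup Γ) :
    ∃ Δ : OpenSubgroup Γ, ∀ g ∈ Δ, ∀ a ∈ s, g ∈ Q a := by
  induction s using Finset.induction_on with
  | empty => exact ⟨⊤, fun g _ a ha => absurd ha (Finset.notMem_empty a)⟩
  | insert b s _ ih =>
    obtain ⟨Δ, h⟩ := ih
    refine ⟨Δ ⊓ Q b, fun g hg a ha => ?_⟩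
    rw [Finset.mem_insert] at ha
    rcases ha with rfl | ha
    · exact hg.2
    · exact h g hg.1 a ha

end GRep

end Pool.Agent.L0h10.TS
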