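import Pool.Agent.L0h10.TS.Arr

/-!
# The operators which kill the Tate arrays
-/

set_option linter.unusedSectionVars false

namespace Pool.Agent.L0h10.TS

open Matrix Module Pool.Agent.N996.BP Pool.Agent.N996.FP

section HE

variable {ι : Type} [Fintype ι] [DecidableEq ι] {H : HData ι}

lemma ar2_BB {x : Matrix ι ι ℚ} (hx : IsHE H x) : ar2 (x * H.Qir) ∈ BB H (Fin (1 + 1)) := by
  intro t ht
  have h1 : ca (ar2 (x * H.Qir)) = ar2 (cQ x * cQ H.Qir) := by
    rw [← cQ_mul]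
    rfl
  have h2 : H.l t * cQ H.Qir * (H.l t)ᵀ = cQ H.Qir := by
    refine fix_Q H ?_
    exact fun a ha => ha t ht
  rw [h1, kp_ar2]
  congr 1
  calc H.l t * (cQ x * cQ H.Qir) * (H.l t)ᵀ = (H.l t * cQ x) * cQ H.Qir * (H.l t)ᵀ := by
        simp only [Matrix.mul_assoc]
    _ = cQ x * (H.l t * cQ H.Qir * (H.l t)ᵀ) := by rw [hx t ht]; simp only [Matrix.mul_assoc]
    _ = _ := by rw [h2]

lemma QiQ : cQ H.Qir * cQ H.Qr = 1 := by
  have h : cQ H.Qr * cQ H.Qir = 1 := by rw [← cQ_mul, H.Qr_Qir, cQ_one]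
  exact mul_eq_one_comm.1 h

/-- Matrices given by combinations of Hodge arrays. -/
lemma comm_of_ar2 {M : Matrix ι ι ℂ}
    (hM : ar2 (M * cQ H.Qir) ∈ Submodule.span ℂ (ca '' (BB H (Fin (1 + 1)) : Set _))) :
    M ∈ Submodule.span ℂ (cQ '' {x | IsHE H x}) := by
  refine comm_span fun g hg => ?_
  have h1 : kp (Fin (1 + 1)) g *ᵥ ar2 (M * cQ H.Qir) = ar2 (M * cQ H.Qir) := by
    generalize ar2 (M * cQ H.Qir) = a at hM
    induction hM using Submodule.span_induction with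
    | mem a ha =>
      obtain ⟨b, hb, rfl⟩ := ha
      exact GG_fix H hb hg
    | zero => exact Matrix.mulVec_zero _
    | add a b _ _ ha hb => rw [Matrix.mulVec_add, ha, hb]
    | smul c a _ ha => rw [Matrix.mulVec_smul, ha]
  rw [kp_ar2] at h1
  have h2 := ar2_inj h1
  have h3 : g * cQ H.Qir * gᵀ = cQ H.Qir := fix_Q H (GG_So hg _)
  obtain ⟨g', -, h4⟩ := So_ex_inv (GG_So hg)
  have h5 : g' * g = 1 := mul_eq_one_comm.1 h4
  have h6 : g * M * g' = M := by
    calc g * M * g' = g * M * g' * (cQ H.Qir * cQ H.Qr) := by rw [QiQ, Matrix.mul_one]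
      _ = g * M * g' * ((g * cQ H.Qir * gᵀ) * cQ H.Qr) := by rw [h3]
      _ = g * M * (g' * g) * cQ H.Qir * gᵀ * cQ H.Qr := by simp only [Matrix.mul_assoc]
      _ = (g * (M * cQ H.Qir) * gᵀ) * cQ H.Qr := by
        rw [h5, Matrix.mul_one]; simp only [Matrix.mul_assoc]
      _ = M := by rw [h2, Matrix.mul_assoc, QiQ, Matrix.mul_one]
  calc M * g = (g * M * g') * g := by rw [h6]
    _ = g * M * (g' * g) := by simp only [Matrix.mul_assoc]
    _ = g * M := by rw [h5, Matrix.mul_one]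

end HE

variable {ι : Type} [Fintype ι] [DecidableEq ι] {H : HData ι} {A : Type} [Ring A] [Algebra ℂ A]
  (D : AData H A) {L : Type} [Field L] [CharZero L] (j : L →+* ℂ) {Γ : Type*} [Group Γ]
  [TopologicalSpace Γ] [IsTopologicalGroup Γ] (P : GRep D.deg L Γ)

/-- The rational array with values in the field. -/
def cL (L : Type) [Field L] {κ : Type} (a : (κ → ι) → ℚ) : (κ → ι) → L := fun w => ((a w : ℚ) : L)

/-- The gradings which kill the Tate arrays. -/
def Gs : Set (Matrix ι ι ℂ) :=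
  {y | y * y * cQ D.pr1 = cQ D.pr1 ∧
    ∀ n a, P.IsT n a → dk (Fin (n + 1)) y *ᵥ (fun w => j (a w)) = 0}

/-- The hypotheses. -/
structure Hyp : Prop where
  alg : ∀ z : ℂ, ∃ p : Polynomial L, p ≠ 0 ∧ p.eval₂ j z = 0
  hH : ∀ n, ∀ a ∈ BB H (Fin (n + 1)), cL L a ∈ Submodule.span L {a | P.IsT n a}
  hT : ∀ a, P.IsT 1 a → a ∈ Submodule.span L (cL L '' (BB H (Fin (1 + 1)) : Set _))
  hP : ∀ a : (Fin (1 + 1) → ι) → ℂ, (∀ y ∈ Gs D j P, dk (Fin (1 + 1)) y *ᵥ a = 0) →
    a ∈ Submodule.span ℂ {x | ∃ b, P.IsT 1 b ∧ x = fun w => j (b w)}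
  hss : ∀ Δ : OpenSubgroup Γ, ∀ U : Submodule L (ι → L), (∀ g ∈ Δ, ∀ u ∈ U, P.R g *ᵥ u ∈ U) →
    ∃ U' : Submodule L (ι → L), (∀ g ∈ Δ, ∀ u ∈ U', P.R g *ᵥ u ∈ U') ∧ IsCompl U U'
  hQ : ∀ i k, D.deg i ≠ D.deg k → H.Qir i k = 0

variable {D j P}

lemma cast_cL {κ : Type} (a : (κ → ι) → ℚ) : (fun w => j (cL L a w)) = ca a := by
  funext w
  exact map_ratCast j _

/-- Combinations of Tate arrays are killed. -/
lemma kill_span {y : Matrix ι ι ℂ} {n : ℕ}
    (hy : ∀ a, P.IsT n a → dk (Fin (n + 1)) y *ᵥ (fun w => j (a w)) = 0)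
    {a : (Fin (n + 1) → ι) → L} (ha : a ∈ Submodule.span L {a | P.IsT n a}) :
    dk (Fin (n + 1)) y *ᵥ (fun w => j (a w)) = 0 := by
  induction ha using Submodule.span_induction with
  | mem a ha => exact hy a ha
  | zero =>
    have h1 : (fun w : Fin (n + 1) → ι => j ((0 : (Fin (n + 1) → ι) → L) w)) = 0 := by
      funext w
      exact map_zero j
    rw [h1, Matrix.mulVec_zero]
  | add a b _ _ ha hb =>
    have h1 : (fun w => j ((a + b) w)) = (fun w => j (a w)) + fun w => j (b w) := by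
      funext w
      exact map_add j _ _
    rw [h1, Matrix.mulVec_add, ha, hb, add_zero]
  | smul c a _ ha =>
    have h1 : (fun w => j ((c • a) w)) = j c • fun w => j (a w) := by
      funext w
      exact map_mul j _ _
    rw [h1, Matrix.mulVec_smul, ha, smul_zero]

variable (hyp : Hyp D j P)

include hyp

/-- Matrices which kill the Tate arrays belong to the Hodge Lie algebra. -/
lemma mem_ho_of {y : Matrix ι ι ℂ}
    (hy : ∀ n a, P.IsT n a → dk (Fin (n + 1)) y *ᵥ (fun w => j (a w)) = 0) : y ∈ ho H := by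
  intro κ _ _ a ha
  rcases isEmpty_or_nonempty κ with hκ | hκ
  · exact dk_empty y _
  · obtain ⟨n, hn⟩ : ∃ n, Fintype.card κ = n + 1 :=
      ⟨Fintype.card κ - 1, by have := Fintype.card_pos (α := κ); omega⟩
    let e : κ ≃ Fin (n + 1) := Fintype.equivFinOfCardEq hn
    have h1 : rei e a ∈ BB H (Fin (n + 1)) := by
      intro t ht
      have h2 : ca (rei e a) = rei e (ca a) := rfl
      rw [h2, kp_rei, ha t ht]
    have h2 := kill_span (fun a ha => hy n a ha) (hyp.hH n _ h1)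
    rw [cast_cL] at h2
    have h3 : ca (rei e a) = rei e (ca a) := rfl
    rw [h3, dk_rei] at h2
    funext w
    have h4 := congrFun h2 (w ∘ e.symm)
    rw [rei] at h4
    have h5 : (w ∘ e.symm) ∘ e = w := by
      funext k
      simp
    rw [h5] at h4
    exact h4

lemma Gs_ho {y : Matrix ι ι ℂ} (hy : y ∈ Gs D j P) : y ∈ ho H := mem_ho_of hyp hy.2

omit hyp in
lemma R_map_mul (g h : Γ) : (P.R (g * h)).map j = (P.R g).map j * (P.R h).map j := by
  rw [P.mul]
  exact Matrix.map_mul (f := j)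

omit hyp in
lemma R_map_inv (g : Γ) : (P.R g).map j * (P.R g⁻¹).map j = 1 := by
  rw [← R_map_mul, mul_inv_cancel, P.one]
  exact Matrix.map_one _ (map_zero j) (map_one j)

omit hyp in
lemma kp_cast {n : ℕ} (g : Matrix ι ι L) (a : (Fin (n + 1) → ι) → L) :
    kp (Fin (n + 1)) (g.map j) *ᵥ (fun w => j (a w)) =
      fun w => j ((kp (Fin (n + 1)) g *ᵥ a) w) := by
  funext w
  rw [Matrix.mulVec, Matrix.mulVec, dotProduct, dotProduct, map_sum]
  refine Finset.sum_congr rfl fun v _ => ?_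
  rw [map_mul, kp_apply, kp_apply, map_prod]
  rfl

omit hyp in
lemma diag_comm {d : ℕ} {M : Matrix ι ι ℂ} (hM : ∀ i k, D.deg i ≠ D.deg k → M i k = 0) :
    M * Matrix.diagonal (fun i => if D.deg i = d then (1 : ℂ) else 0) =
      Matrix.diagonal (fun i => if D.deg i = d then (1 : ℂ) else 0) * M := by
  ext i k
  rw [Matrix.mul_diagonal, Matrix.diagonal_mul]
  by_cases h : D.deg i = D.deg k
  · rw [h]; ring
  · rw [hM i k h]; ring

omit hyp in
lemma R_pr1 (g : Γ) : (P.R g).map j * cQ D.pr1 = cQ D.pr1 * (P.R g).map j := by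
  rw [D.cQ_pr1]
  refine diag_comm fun i k h => ?_
  rw [Matrix.map_apply, P.deg' g i k h, map_zero]

omit hyp in
/-- The set of gradings is normalised by the group. -/
lemma Gs_conj {y : Matrix ι ι ℂ} (hy : y ∈ Gs D j P) (g : Γ) :
    (P.R g).map j * y * (P.R g⁻¹).map j ∈ Gs D j P := by
  obtain ⟨c, hc⟩ : ∃ c, c = (P.R g).map j := ⟨_, rfl⟩
  obtain ⟨c', hc'⟩ : ∃ c', c' = (P.R g⁻¹).map j := ⟨_, rfl⟩
  have h1 : c * c' = 1 := by rw [hc, hc']; exact R_map_inv g
  have h2 : c' * c = 1 := mul_eq_one_comm.1 h1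
  have h3 : c * cQ D.pr1 = cQ D.pr1 * c := by rw [hc]; exact R_pr1 g
  have h3' : c' * cQ D.pr1 = cQ D.pr1 * c' := by rw [hc']; exact R_pr1 g⁻¹
  rw [← hc, ← hc']
  refine ⟨?_, fun n a ha => ?_⟩
  · calc c * y * c' * (c * y * c') * cQ D.pr1 = c * y * (c' * c) * y * (c' * cQ D.pr1) := by
          simp only [Matrix.mul_assoc]
      _ = c * (y * y * cQ D.pr1) * c' := by
          rw [h2, h3', Matrix.mul_one]; simp only [Matrix.mul_assoc]
      _ = cQ D.pr1 := by rw [hy.1, h3, Matrix.mul_assoc, h1, Matrix.mul_one]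
  · have h4 := kp_dk (κ := Fin (n + 1)) h2 y
    have h5 : (fun w => j (a w)) = kp (Fin (n + 1)) c *ᵥ
        fun w => j ((kp (Fin (n + 1)) (P.R g⁻¹) *ᵥ a) w) := by
      rw [← kp_cast, ← hc', Matrix.mulVec_mulVec, ← kp_mul, h1, kp_one, Matrix.one_mulVec]
    rw [h5, Matrix.mulVec_mulVec, ← h4, ← Matrix.mulVec_mulVec, hy.2 n _ (ha.kp g⁻¹),
      Matrix.mulVec_zero]

omit hyp in
/-- Complex arrays on which an open subgroup acts like on Tate arrays. -/
lemma desc_T {n p : ℕ} {a : (Fin (n + 1) → ι) → ℂ}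
    (h1 : ∀ w, a w ≠ 0 → ∑ i, D.deg (w i) = 2 * p) {Δ : OpenSubgroup Γ}
    (h2 : ∀ g ∈ Δ, j (P.χ g) ^ p • (kp (Fin (n + 1)) ((P.R g).map j) *ᵥ a) = a) :
    a ∈ Submodule.span ℂ {x | ∃ b, P.IsT n b ∧ x = fun w => j (b w)} := by
  classical
  let M : (Fin (n + 1) → ι) ⊕ (Δ × (Fin (n + 1) → ι)) → (Fin (n + 1) → ι) → L :=
    Sum.elim (fun w v => if w = v ∧ ∑ i, D.deg (w i) ≠ 2 * p then 1 else 0)
      fun gw v => P.χ gw.1 ^ p * kp (Fin (n + 1)) (P.R gw.1) gw.2 v - if gw.2 = v then 1 else 0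
  have hM : ∀ k, ∑ v, j (M k v) * a v = 0 := by
    rintro (w | ⟨g, w⟩)
    · change ∑ v, j (if w = v ∧ ∑ i, D.deg (w i) ≠ 2 * p then 1 else 0) * a v = 0
      refine Finset.sum_eq_zero fun v _ => ?_
      by_cases h : w = v ∧ ∑ i, D.deg (w i) ≠ 2 * p
      · obtain ⟨rfl, h3⟩ := h
        have h4 : a w = 0 := by
          by_contra h5
          exact h3 (h1 w h5)
        rw [h4, mul_zero]
      · rw [if_neg h, map_zero, zero_mul]
    · change ∑ v, j (P.χ g ^ p * kp (Fin (n + 1)) (P.R g) w v - if w = v then 1 else 0) * a v = 0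
      have h3 := congrFun (h2 g g.2) w
      rw [Pi.smul_apply, Matrix.mulVec, dotProduct, smul_eq_mul, Finset.mul_sum] at h3
      have h4 : ∑ v, j (if w = v then 1 else 0) * a v = a w := by
        rw [Finset.sum_eq_single w]
        · rw [if_pos rfl, map_one, one_mul]
        · intro v _ hv
          rw [if_neg (Ne.symm hv), map_zero, zero_mul]
        · intro h; exact absurd (Finset.mem_univ _) h
      rw [← sub_eq_zero, ← h4, ← Finset.sum_sub_distrib] at h3
      rw [← h3]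
      refine Finset.sum_congr rfl fun v _ => ?_
      rw [map_sub, map_mul, map_pow, sub_mul, ← mul_assoc, kp_apply, kp_apply, map_prod]
      rfl
  have h3 := desc_sol j M hM
  refine Submodule.span_mono ?_ h3
  rintro x ⟨u, hu, rfl⟩
  refine ⟨u, ⟨p, fun w hw => ?_, Δ, fun g hg => ?_⟩, rfl⟩
  · have h4 := hu (Sum.inl w)
    change ∑ v, (if w = v ∧ ∑ i, D.deg (w i) ≠ 2 * p then (1 : L) else 0) * u v = 0 at h4
    by_contra h5
    rw [Finset.sum_eq_single w] at h4
    · rw [if_pos ⟨rfl, h5⟩, one_mul] at h4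
      exact hw h4
    · intro v _ hv
      rw [if_neg fun h => hv h.1.symm, zero_mul]
    · intro h; exact absurd (Finset.mem_univ _) h
  · funext w
    have h4 := hu (Sum.inr (⟨g, hg⟩, w))
    change ∑ v, (P.χ g ^ p * kp (Fin (n + 1)) (P.R g) w v - if w = v then 1 else 0) * u v = 0
      at h4
    rw [Pi.smul_apply, Matrix.mulVec, dotProduct, smul_eq_mul, Finset.mul_sum]
    have h5 : ∑ v, (if w = v then (1 : L) else 0) * u v = u w := by
      rw [Finset.sum_eq_single w]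
      · rw [if_pos rfl, one_mul]
      · intro v _ hv
        rw [if_neg (Ne.symm hv), zero_mul]
      · intro h; exact absurd (Finset.mem_univ _) h
    simp only [sub_mul, Finset.sum_sub_distrib] at h4
    rw [h5, sub_eq_zero] at h4
    rw [← h4]
    refine Finset.sum_congr rfl fun v _ => ?_
    rw [mul_assoc]

end Pool.Agent.L0h10.TS
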