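import Pool.Agent.L0h10.TS.Vec
import Pool.Agent.N996.FP.Geo1

/-!
# Degrees, extension of the coefficients and derivations in coordinates
-/

set_option linter.unusedSectionVars false

open CategoryTheory AlgebraicGeometry TensorProduct

universe u

namespace Pool.Agent.L0h10.TS

open Module
open Pool.Agent.H914 Pool.Agent.H914.VarClass Pool.Agent.H914.VarClass.Obj
  Pool.Agent.H914.WeilCohomology
open Pool.Agent.Y121.AHS
open Pool.Agent.Y133.Half Pool.Agent.N996.BP.Geo Pool.Agent.N996.BP Pool.Agent.N996.FP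

variable {k : Type u} [Field k] {𝒱 : VarClass k} {ops : CycleOps 𝒱}
  {W : WeilCohomology.{u, 0} ops} {X Y : 𝒱.Obj} {F : Type} [Field F] [Algebra W.K F]

section deg

variable {κ : Type} [Fintype κ] [DecidableEq κ] {Z : 𝒱.Obj} {b : Basis κ W.K (W.H Z)} {d : κ → ℕ}

lemma repr_gr' {i : ℕ} (hb : ∀ w, b w ∈ W.gr Z (d w)) {c : W.H Z}
    (hc : c ∈ W.gr Z i) {j : κ} (hj : d j ≠ i) : b.repr c j = 0 := by
  have hint := W.isInternal Z
  have h1 : Pool.Agent.H914.proj hint (d j) c = 0 :=
    Pool.Agent.H914.proj_ne hint hc (Ne.symm hj)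
  have h2 : Pool.Agent.H914.proj hint (d j) c =
      ∑ m, (if d m = d j then b.repr c m else 0) • b m := by
    conv_lhs => rw [← b.sum_repr c, map_sum]
    refine Finset.sum_congr rfl fun m _ => ?_
    rw [map_smul]
    by_cases hm : d m = d j
    · rw [if_pos hm, ← hm, Pool.Agent.H914.proj_same hint (hb m)]
    · rw [if_neg hm, Pool.Agent.H914.proj_ne hint (hb m) hm, smul_zero, zero_smul]
  have h3 := congrArg (fun x => b.repr x j) (h2.symm.trans h1)
  simp only [map_sum, map_smul, Basis.repr_self, Finsupp.coe_finsetSum, Finset.sum_apply,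
    Finsupp.smul_apply, map_zero, Finsupp.coe_zero, Pi.zero_apply, Finsupp.single_apply,
    smul_eq_mul, mul_ite, mul_one, mul_zero] at h3
  rw [Finset.sum_eq_single j] at h3
  · simpa using h3
  · intro m _ hm; rw [if_neg hm]
  · intro h; exact absurd (Finset.mem_univ _) h

/-- The degrees in coordinates. -/
lemma isDeg_vB (hb : ∀ w, b w ∈ W.gr Z (d w)) {i : ℕ} {z : κ → F} :
    IsDeg i (vB F b z) ↔ ∀ w, z w ≠ 0 → d w = i := by
  constructor
  · intro h w hw
    by_contra hd
    apply hw
    have key : ∀ x : F ⊗[W.K] W.H Z, x ∈ (W.gr Z i).baseChange F →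
        (b.baseChange F).equivFun x w = 0 := by
      intro x hx
      rw [Submodule.baseChange_eq_span] at hx
      induction hx using Submodule.span_induction with
      | mem x hx =>
        obtain ⟨c, hc, rfl⟩ := hx
        change (b.baseChange F).repr ((1 : F) ⊗ₜ[W.K] c) w = 0
        rw [Basis.baseChange_repr_tmul, repr_gr' hb hc hd, zero_smul]
      | zero => rw [map_zero]; rfl
      | add x y _ _ hx hy => rw [map_add, Pi.add_apply, hx, hy, add_zero]
      | smul c x _ hx => rw [map_smul, Pi.smul_apply, hx, smul_zero]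
    have h1 := key _ h
    have h2 : (b.baseChange F).equivFun ((b.baseChange F).equivFun.symm z) = z :=
      LinearEquiv.apply_symm_apply _ z
    rw [← h2]
    exact h1
  · intro h
    rw [vB_apply]
    refine Submodule.sum_mem _ fun w _ => ?_
    by_cases hw : z w = 0
    · rw [hw]
      have h1 : smL (0 : F) (emL W F (b w)) = 0 := zero_smul F (show F ⊗[W.K] W.H Z from _)
      rw [h1]
      exact Submodule.zero_mem _
    · exact Submodule.smul_mem _ _ (Submodule.tmul_mem_baseChange_of_mem (1 : F)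
        (h w hw ▸ hb w))

end deg

variable {ι : Type} [Fintype ι] [DecidableEq ι] {e : Basis ι W.K (W.H X)} {deg : ι → ℕ}

/-- The degrees of the classes of the words. -/
lemma wb_mem (hdeg : ∀ j, e j ∈ W.gr X (deg j)) (n : ℕ) (w : Fin (n + 1) → ι) :
    wb e n w ∈ W.gr (pw X n) (∑ i, deg (w i)) := by
  induction n with
  | zero =>
    have h1 : wb e 0 w = e (w 0) := wb_zero e w
    rw [h1, Fin.sum_univ_one]
    exact hdeg (w 0)
  | succ n ih =>
    rw [wb_succ, Fin.sum_univ_castSucc]
    exact W.mul_mem (W.map_mem _ (ih _)) (W.map_mem _ (hdeg _))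

/-- The degrees in coordinates. -/
lemma isDeg_ve (hdeg : ∀ j, e j ∈ W.gr X (deg j)) {n i : ℕ} {z : (Fin (n + 1) → ι) → F} :
    IsDeg i (ve F e n z) ↔ ∀ w, z w ≠ 0 → ∑ i, deg (w i) = i :=
  isDeg_vB fun w => wb_mem hdeg n w

section up

variable {L Ω : Type} [Field L] [Field Ω] [Algebra W.K L] [Algebra W.K Ω] [Algebra L Ω]
  [IsScalarTower W.K L Ω]

lemma up_add (x y : HL W L X) : up Ω (x + y) = up Ω x + up Ω y :=
  ((IsScalarTower.toAlgHom W.K L Ω).toLinearMap.rTensor (W.H X)).map_add x y

lemma up_zero : up Ω (0 : HL W L X) = 0 :=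
  ((IsScalarTower.toAlgHom W.K L Ω).toLinearMap.rTensor (W.H X)).map_zero

lemma up_em (c : W.H X) : up Ω (emL W L c) = emL W Ω c := by
  have h1 : ((IsScalarTower.toAlgHom W.K L Ω).toLinearMap.rTensor (W.H X))
      ((1 : L) ⊗ₜ[W.K] c) = (1 : Ω) ⊗ₜ[W.K] c := by
    rw [LinearMap.rTensor_tmul]
    change (algebraMap L Ω 1) ⊗ₜ[W.K] c = _
    rw [map_one]
  exact h1

lemma up_smL (l : L) (x : HL W L X) : up Ω (smL l x) = smL (algebraMap L Ω l) (up Ω x) := by
  have h1 : ∀ x : L ⊗[W.K] W.H X,
      ((IsScalarTower.toAlgHom W.K L Ω).toLinearMap.rTensor (W.H X)) (l • x) =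
      (algebraMap L Ω l) • ((IsScalarTower.toAlgHom W.K L Ω).toLinearMap.rTensor (W.H X)) x := by
    intro x
    induction x using TensorProduct.induction_on with
    | zero => rw [smul_zero, map_zero, smul_zero]
    | add x y hx hy => rw [smul_add, map_add, hx, hy, map_add, smul_add]
    | tmul a c =>
      rw [TensorProduct.smul_tmul', LinearMap.rTensor_tmul, LinearMap.rTensor_tmul,
        TensorProduct.smul_tmul']
      congr 1
      change algebraMap L Ω (l * a) = algebraMap L Ω l * algebraMap L Ω a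
      rw [map_mul]
  exact h1 x

lemma up_sum {α : Type*} (s : Finset α) (f : α → HL W L X) :
    up Ω (∑ i ∈ s, f i) = ∑ i ∈ s, up Ω (f i) := by
  classical
  induction s using Finset.induction_on with
  | empty => rw [Finset.sum_empty, Finset.sum_empty, up_zero]
  | insert a s ha ih => rw [Finset.sum_insert ha, Finset.sum_insert ha, up_add, ih]

lemma up_ve (n : ℕ) (z : (Fin (n + 1) → ι) → L) :
    up Ω (ve L e n z) = ve Ω e n fun w => algebraMap L Ω (z w) := by
  rw [ve_apply, up_sum, ve_apply]
  refine Finset.sum_congr rfl fun w _ => ?_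
  rw [up_smL, up_em]

end up

section dv

variable {κ : Type} [Fintype κ] [DecidableEq κ] {R : Type*} [CommRing R] {R' : Type*} [CommRing R']

/-- The derivation of the words given by a matrix. -/
def dv (y : Matrix ι ι R) (a : (κ → ι) → R) : (κ → ι) → R :=
  fun w => ∑ k, ∑ t, y (w k) t * a (Function.update w k t)

lemma dv_eq (y : Matrix ι ι ℂ) (a : (κ → ι) → ℂ) : Matrix.mulVec (dk κ y) a = dv y a :=
  funext fun w => dk_mulVec_apply y a w

lemma dv_map (φ : R →+* R') (y : Matrix ι ι R) (a : (κ → ι) → R) :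
    dv (y.map φ) (fun w => φ (a w)) = fun w => φ (dv y a w) := by
  funext w
  rw [dv, dv, map_sum]
  refine Finset.sum_congr rfl fun k _ => ?_
  rw [map_sum]
  refine Finset.sum_congr rfl fun t _ => ?_
  rw [map_mul, Matrix.map_apply]

lemma dv_add (y : Matrix ι ι R) (a b : (κ → ι) → R) : dv y (a + b) = dv y a + dv y b := by
  funext w
  rw [Pi.add_apply, dv, dv, dv, ← Finset.sum_add_distrib]
  refine Finset.sum_congr rfl fun k _ => ?_
  rw [← Finset.sum_add_distrib]
  refine Finset.sum_congr rfl fun t _ => ?_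
  rw [Pi.add_apply, mul_add]

lemma dv_smul (y : Matrix ι ι R) (c : R) (a : (κ → ι) → R) : dv y (c • a) = c • dv y a := by
  funext w
  rw [Pi.smul_apply, dv, dv, Finset.smul_sum]
  refine Finset.sum_congr rfl fun k _ => ?_
  rw [Finset.smul_sum]
  refine Finset.sum_congr rfl fun t _ => ?_
  rw [Pi.smul_apply, smul_eq_mul, smul_eq_mul]
  ring

lemma dv_sum {α : Type*} (y : Matrix ι ι R) (s : Finset α) (f : α → (κ → ι) → R) :
    dv y (∑ i ∈ s, f i) = ∑ i ∈ s, dv y (f i) := by
  classical
  induction s using Finset.induction_on with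
  | empty =>
    rw [Finset.sum_empty, Finset.sum_empty]
    have h1 := dv_smul (κ := κ) y (0 : R) 0
    rwa [zero_smul, zero_smul] at h1
  | insert a s ha ih => rw [Finset.sum_insert ha, Finset.sum_insert ha, dv_add, ih]

lemma dv_sn1 (n : ℕ) (x : Matrix ι ι R) (z : (Fin (n + 1) → ι) → R) (v : ι → R) :
    dv x (sn1 z v) = sn1 (dv x z) v + sn1 z (Matrix.mulVec x v) := by
  funext w
  rw [dv, Fin.sum_univ_castSucc, Pi.add_apply, sn1, sn1, dv, Matrix.mulVec, dotProduct,
    Finset.sum_mul, Finset.mul_sum]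
  congr 1
  · refine Finset.sum_congr rfl fun k _ => ?_
    rw [Finset.sum_mul]
    refine Finset.sum_congr rfl fun t _ => ?_
    rw [sn1, update_castSucc, Function.update_of_ne (Fin.castSucc_lt_last k).ne']
    ring
  · refine Finset.sum_congr rfl fun t _ => ?_
    rw [sn1, Function.update_self]
    have h1 : (fun i : Fin (n + 1) => Function.update w (Fin.last (n + 1)) t i.castSucc) =
        fun i => w i.castSucc := by
      funext i
      rw [Function.update_of_ne (Fin.castSucc_lt_last i).ne]
    rw [h1]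
    ring

lemma dv_one (x : Matrix ι ι R) (z : (Fin (0 + 1) → ι) → R) (i : ι) :
    dv x z (fun _ => i) = Matrix.mulVec x (fun i => z fun _ => i) i := by
  rw [dv, Fin.sum_univ_one, Matrix.mulVec, dotProduct]
  refine Finset.sum_congr rfl fun t _ => ?_
  congr 2
  funext k
  obtain rfl : k = 0 := Subsingleton.elim (α := Fin 1) k 0
  rw [Function.update_self]

end dv

end Pool.Agent.L0h10.TS
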