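import Pool.Agent.L0h10.TS.Asm

/-!
# The square theorem for the Tate conjecture
-/

set_option linter.unusedSectionVars false

open CategoryTheory AlgebraicGeometry TensorProduct Matrix

universe u v

namespace Pool.Agent.L0h10.TS

open Module
open Pool.Agent.H914 Pool.Agent.H914.VarClass Pool.Agent.H914.VarClass.Obj
  Pool.Agent.H914.WeilCohomology
open Pool.Agent.Y121.AHS
open Pool.Agent.Y133.Half (pw pfst psnd wb wb_zero ClassPred)
open Pool.Agent.Y121.AH (hodgePred)
open Pool.Agent.N996.BP Pool.Agent.N996.FP Pool.Agent.N996.BP.Geo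

/-- Matrices which kill the Hodge arrays belong to the Hodge Lie algebra. -/
lemma mem_ho_fin {ι : Type} [Fintype ι] [DecidableEq ι] {H : HData ι} {y : Matrix ι ι ℂ}
    (hy : ∀ n, ∀ a ∈ BB H (Fin (n + 1)), dk (Fin (n + 1)) y *ᵥ ca a = 0) : y ∈ ho H := by
  intro κ _ _ a ha
  rcases isEmpty_or_nonempty κ with hκ | hκ
  · exact dk_empty y _
  · obtain ⟨n, hn⟩ : ∃ n, Fintype.card κ = n + 1 :=
      ⟨Fintype.card κ - 1, by have := Fintype.card_pos (α := κ); omega⟩
    let e : κ ≃ Fin (n + 1) := Fintype.equivFinOfCardEq hn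
    have h1 : rei e a ∈ BB H (Fin (n + 1)) := by
      intro t ht
      have h2 : ca (rei e a) = rei e (ca a) := rfl
      rw [h2, kp_rei, ha t ht]
    have h2 := hy n _ h1
    have h3 : ca (rei e a) = rei e (ca a) := rfl
    rw [h3, dk_rei] at h2
    funext w
    have h4 := congrFun h2 (w ∘ e.symm)
    rw [rei] at h4
    have h5 : (w ∘ e.symm) ∘ e = w := by
      funext k
      simp
    rw [h5] at h4
    exact h4

variable {k : Type u} [Field k] {𝒱 : VarClass k} {ops : CycleOps 𝒱} {T : HodgeTheory ops}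
  {X : 𝒱.Obj} {L Ω : Type} [Field L] [Field Ω] [Algebra T.W.K L] [Algebra T.W.K Ω] [Algebra L Ω]
  [IsScalarTower T.W.K L Ω] {Γ : Type v} [Group Γ] [TopologicalSpace Γ]
  (G : GaloisAction T X Γ L)

section Centre

variable {ι : Type} [Fintype ι] [DecidableEq ι] {e : Basis ι T.W.K (T.W.H X)} {H : HData ι}
  {A : Type} [Ring A] [Algebra ℂ A] {D : AData H A} (hdeg : ∀ j, e j ∈ T.W.gr X (D.deg j))

/-- Operators which kill the Hodge classes in coordinates. -/
lemma killsHodge_iff [CharZero Ω] (hB : ∀ n (a : (Fin (n + 1) → ι) → ℚ),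
      cls (T := toH T) e n a ∈ (hodgePred (toH T)).sp (pw X n) ↔ a ∈ BB H (Fin (n + 1)))
    (θ : Ω ≃+* ℂ) (y : Matrix ι ι Ω) : KillsHodge (opOf e y) ↔ y.map θ ∈ ho H := by
  have hcast : ∀ {n : ℕ} (a : (Fin (n + 1) → ι) → ℚ),
      (fun w => θ (cL Ω a w)) = ca a := fun a => by
    funext w
    exact map_ratCast θ _
  constructor
  · intro h
    refine mem_ho_fin fun n a ha => ?_
    have key : ∀ c ∈ (hodgePred (toH T)).sp (pw X n), opOf e y n (emL T.W Ω c) = 0 := by
      intro c hc
      refine ClassPred.sp_ind (Q := hodgePred (toH T)) (q := fun c =>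
        opOf e y n (emL T.W Ω c) = 0) ?_ ?_ ?_ hc
      · intro j c hc
        exact h n j c hc
      · have h5 : emL T.W Ω (0 : T.W.H (pw X n)) = 0 := emL_zero
        have h6 := (opOf_inf e y).smul n 0 0
        change opOf e y n (emL T.W Ω (0 : T.W.H (pw X n))) = 0
        rw [smL_zero] at h6
        rw [h5, h6]
        exact zero_smul Ω (show Ω ⊗[T.W.K] T.W.H (pw X n) from _)
      · intro a b ha hb
        have h5 : emL T.W Ω ((show T.W.H (pw X n) from a) + (show T.W.H (pw X n) from b)) =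
          emL T.W Ω a + emL T.W Ω b := emL_add _ _
        change opOf e y n (emL T.W Ω ((show T.W.H (pw X n) from a) +
          (show T.W.H (pw X n) from b))) = 0
        rw [h5, (opOf_inf e y).add, ha, hb, add_zero]
    have h1 := key _ ((hB n a).2 ha)
    have h2 : emL T.W Ω (clw e n a) = ve Ω e n (cL Ω a) := emL_clw e n a
    change opOf e y n (emL T.W Ω (clw e n a)) = 0 at h1
    rw [h2, opOf_kill θ, hcast] at h1
    exact h1
  · intro h n j c hc
    obtain ⟨a, ha, h1⟩ := sp_cl (L := Ω) hB (isHodge_sp hc)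
    rw [h1, opOf_kill θ, hcast]
    exact h _ _ ha

lemma map_mul_th (θ : Ω ≃+* ℂ) (x y : Matrix ι ι Ω) :
    (x * y).map θ = x.map θ * y.map θ := Matrix.map_mul (f := (θ : Ω →+* ℂ))

/-- The centre. -/
lemma centre_kill [CharZero L] [CharZero Ω] [IsTopologicalGroup Γ]
    (hB : ∀ n (a : (Fin (n + 1) → ι) → ℚ),
      cls (T := toH T) e n a ∈ (hodgePred (toH T)).sp (pw X n) ↔ a ∈ BB H (Fin (n + 1)))
    (θ : Ω ≃+* ℂ) (hyp : Hyp D (jj L θ) (toRep G e hdeg)) (hC : CentreKillsTate Ω G)
    (z : Matrix ι ι ℂ) (hz : z ∈ ho H)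
    (hc : ∀ y ∈ Gs D (jj L θ) (toRep G e hdeg), z * y = y * z) (n : ℕ)
    (a : (Fin (n + 1) → ι) → L) (ha : (toRep G e hdeg).IsT n a) :
    dk (Fin (n + 1)) z *ᵥ (fun w => jj L θ (a w)) = 0 := by
  obtain ⟨z', hz'⟩ : ∃ z' : Matrix ι ι Ω, z' = z.map θ.symm := ⟨_, rfl⟩
  have hzz : z'.map θ = z := by
    rw [hz']
    ext i j
    exact θ.apply_symm_apply _
  have hcen : ∀ w ∈ ho H, z * w = w * z := by
    intro w hw
    have h1 := comm_Gs hyp z hc
    have key : ∀ u ∈ Submodule.span ℂ (cQ '' {x | IsHE H x}), u * w = w * u := by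
      intro u hu
      induction hu using Submodule.span_induction with
      | mem x hx =>
        obtain ⟨y, hy, rfl⟩ := hx
        exact (IsHE.comm_ho hy hw).symm
      | zero => rw [Matrix.zero_mul, Matrix.mul_zero]
      | add a b _ _ ha hb => rw [Matrix.add_mul, Matrix.mul_add, ha, hb]
      | smul c a _ ha => rw [Matrix.smul_mul, Matrix.mul_smul, ha]
    exact key z h1
  have h1 : KillsTate G (opOf e z') := by
    refine hC _ (opOf_inf e z') ((killsHodge_iff hB θ z').2 (by rw [hzz]; exact hz)) ?_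
    intro E hE hE2 x
    obtain ⟨y, hy⟩ : ∃ y, y = mt (Z := X) e (E 0) := ⟨_, rfl⟩
    have h2 : E = opOf e y := by rw [hy]; exact inf_eq hE
    have h3 : y.map θ ∈ ho H := (killsHodge_iff hB θ y).1 (by rw [← h2]; exact hE2)
    have h4 : z' * y = y * z' := by
      have h5 := hcen _ h3
      rw [← hzz, ← map_mul_th, ← map_mul_th] at h5
      ext i j
      exact θ.injective (congrFun (congrFun h5 i) j)
    obtain ⟨v, rfl⟩ := (vB Ω e).surjective (show HL T.W Ω X from x)
    have h5 : opOf e y 0 (vB Ω e v : HL T.W Ω X) = (vB Ω e (y *ᵥ v) : HL T.W Ω X) :=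
      opOf_zero e y v
    have h6 : opOf e z' 0 (vB Ω e v : HL T.W Ω X) = (vB Ω e (z' *ᵥ v) : HL T.W Ω X) :=
      opOf_zero e z' v
    have h7 : opOf e z' 0 (vB Ω e (y *ᵥ v) : HL T.W Ω X) =
      (vB Ω e (z' *ᵥ (y *ᵥ v)) : HL T.W Ω X) := opOf_zero e z' _
    have h8 : opOf e y 0 (vB Ω e (z' *ᵥ v) : HL T.W Ω X) =
      (vB Ω e (y *ᵥ (z' *ᵥ v)) : HL T.W Ω X) := opOf_zero e y _
    rw [h2]
    refine ((congrArg (opOf e z' 0) h5).trans h7).trans
      (Eq.trans ?_ ((congrArg (opOf e y 0) h6).trans h8).symm)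
    rw [Matrix.mulVec_mulVec, Matrix.mulVec_mulVec, h4]
  have h2 := (killsTate_iff G hdeg θ z').1 h1 n a ha
  rwa [hzz] at h2

end Centre

/-- **The Tate classes are combinations of Hodge classes, if the Tate conjecture holds for the
square.** -/
theorem tate_hodge [CharZero L] [CharZero Ω] [Algebra.IsAlgebraic L Ω] [IsTopologicalGroup Γ]
    (θ : Ω ≃+* ℂ) {ψ : Pool.Agent.N996.FP.RForm T.W X} (hψ : Pool.Agent.N996.FP.IsPolarisation T X ψ)
    (hX : OfAbelianType T X) (h1 : HodgeClassesAreTate G) (h2 : ActsSemisimply G)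
    (h3 : WeakHodgeOperatorsGenerate Ω G)
    (h4 : SelfAdjointCentre T X ψ ∨ CentreKillsTate Ω G) (hT : TateConjecture G 1) :
    TateClassesAreHodge G := by
  intro n j x hx
  rcases subsingleton_or_nontrivial (T.W.H X) with hs | hs
  · have h5 : Subsingleton (T.W.H (pw X n)) := by
      have h6 : finrank T.W.K (T.W.H (pw X n)) = 0 := by
        rw [Pool.Agent.Y133.Half.finrank_pw, finrank_zero_of_subsingleton,
          zero_pow (Nat.succ_ne_zero n)]
      exact finrank_zero_iff.1 h6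
    have h6 : ∀ y : L ⊗[T.W.K] T.W.H (pw X n), y = 0 := by
      intro y
      induction y using TensorProduct.induction_on with
      | zero => rfl
      | add a b ha hb => rw [ha, hb, add_zero]
      | tmul l c => rw [Subsingleton.elim c 0, TensorProduct.tmul_zero]
    have h7 : x = 0 := h6 x
    rw [h7]
    exact Submodule.zero_mem _
  have hnt : Nontrivial ((toH T).W.H X) := hs
  obtain ⟨ι, _, _, e, H, A, _, _, D, hdeg, htop, hP, hQ, hB, hadj⟩ :=
    exists_data (T := toH T) hψ.toBP.isPHS hX.1 hX.2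
  have hyp := hyp_of (T := T) (e := e) G hdeg hQ hB θ h1 h2 h3 hT
  obtain ⟨z, rfl⟩ := (ve L e n).surjective x
  have ha : (toRep (T := T) G e hdeg).IsT n z := (isT_iff (T := T) G e hdeg).2 ⟨j, hx⟩
  have h5 : z ∈ Submodule.span L (cL L '' (BB H (Fin (n + 1)) : Set _)) := by
    rcases h4 with h4 | h4
    · exact arr_adj hyp htop hP (hadj fun f hf => h4 f (isCentral_iff.2 hf)) ha
    · exact arr_cen hyp htop hP (centre_kill G hdeg hB θ hyp h4) ha
  have h6 := hp_span (T := T) (e := e) hdeg hB h5 j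
  have h7 : hp D.deg j z = z := by
    funext w
    rw [hp]
    by_cases hw : ∑ i, D.deg (w i) = 2 * j
    · rw [if_pos hw]
    · rw [if_neg hw]
      by_contra h8
      exact hw ((isDeg_ve (W := T.W) (e := e) hdeg).1 hx.1 w (Ne.symm h8))
  rwa [h7] at h6

lemma cross_one {n : ℕ} (x : HL T.W L (pw X n)) :
    cross x (emL T.W L (1 : T.W.H (pw X 0))) = mapL (pfst X n) x := by
  have h1 : mapL (psnd X n) (emL T.W L (1 : T.W.H X)) = emL T.W L (1 : T.W.H (pw X (n + 1))) := by
    rw [mapL_em, map_one]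
  have h2 : ∀ y : HL T.W L (pw X (n + 1)), mulL y (emL T.W L (1 : T.W.H (pw X (n + 1)))) = y :=
    fun y => mul_one (M := L ⊗[T.W.K] T.W.H (pw X (n + 1))) y
  exact (congrArg (mulL (mapL (pfst X n) x)) h1).trans (h2 _)

lemma isDeg_mapL {Y Z : 𝒱.Obj} (f : Y ⟶ Z) {i : ℕ} {x : HL T.W L Z} (hx : IsDeg i x) :
    IsDeg i (mapL f x) := by
  have key : ∀ y : L ⊗[T.W.K] T.W.H Z, y ∈ (T.W.gr Z i).baseChange L →
      (T.W.map f).toLinearMap.baseChange L y ∈ (T.W.gr Y i).baseChange L := by
    intro y hy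
    rw [Submodule.baseChange_eq_span] at hy
    induction hy using Submodule.span_induction with
    | mem y hy =>
      obtain ⟨c, hc, rfl⟩ := hy
      change (T.W.map f).toLinearMap.baseChange L ((1 : L) ⊗ₜ[T.W.K] c) ∈ _
      rw [LinearMap.baseChange_tmul]
      exact Submodule.tmul_mem_baseChange_of_mem _ (T.W.map_mem _ hc)
    | zero => rw [map_zero]; exact Submodule.zero_mem _
    | add a b _ _ ha hb => rw [map_add]; exact Submodule.add_mem _ ha hb
    | smul c a _ ha => rw [map_smul]; exact Submodule.smul_mem _ _ ha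
  exact key x hx

/-- The Tate conjecture passes to the previous power. -/
theorem tate_pred (h1 : HodgeClassesAreTate G) {n : ℕ} (hm : TateConjecture G (n + 1)) :
    TateConjecture G n := by
  intro j x hx
  have h2 : IsTate G (n + 1) j (mapL (pfst X n) x) := by
    obtain ⟨h3, Δ, h4⟩ := hx
    obtain ⟨-, Δ', h5⟩ := h1 0 0 1 (isHodge_one (T := toH T) (X := X))
    refine ⟨isDeg_mapL _ h3, Δ ⊓ Δ', fun g hg => ?_⟩
    have h6 : G.ρ 0 g (emL T.W L (1 : T.W.H (pw X 0))) = emL T.W L (1 : T.W.H (pw X 0)) := by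
      have := h5 g (OpenSubgroup.mem_inf.1 hg).2
      rwa [pow_zero, smL_one] at this
    have h7 : G.ρ (n + 1) g (mapL (pfst X n) x) = mapL (pfst X n) (G.ρ n g x) :=
      (congrArg (G.ρ (n + 1) g) (cross_one x)).symm.trans
        ((G.cross n g x _).trans ((congrArg (TS.cross (G.ρ n g x)) h6).trans (cross_one _)))
    rw [h7, ← mapL_smL, h4 g (OpenSubgroup.mem_inf.1 hg).1]
  have h3 : mapL (pfst X n) x ∈ Submodule.span L
      {y | ∃ z, (pw X (n + 1)).IsCyc j z ∧ emL T.W L (T.W.cl (pw X (n + 1)) z) = y} := hm j _ h2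
  let s : pw X n ⟶ pw X (n + 1) := Pool.Agent.Y133.Half.plift (𝟙 (pw X n))
    (Pool.Agent.Y133.Half.prj X n 0)
  have h4 : x = mapL s (mapL (pfst X n) x) := by
    have key : ∀ y : L ⊗[T.W.K] T.W.H (pw X n), y =
        (T.W.map s).toLinearMap.baseChange L
          ((T.W.map (pfst X n)).toLinearMap.baseChange L y) := by
      intro y
      induction y using TensorProduct.induction_on with
      | zero => rw [map_zero, map_zero]
      | add a b ha hb => rw [map_add, map_add, ← ha, ← hb]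
      | tmul l c =>
        rw [LinearMap.baseChange_tmul, LinearMap.baseChange_tmul]
        congr 1
        change c = T.W.map s (T.W.map (pfst X n) c)
        rw [← T.W.map_comp, Pool.Agent.Y133.Half.plift_fst, T.W.map_id]
    exact key x
  change x ∈ Submodule.span L {y | ∃ z, (pw X n).IsCyc j z ∧ emL T.W L (T.W.cl (pw X n) z) = y}
  rw [h4]
  generalize mapL (pfst X n) x = y at h3
  induction h3 using Submodule.span_induction with
  | mem y hy =>
    obtain ⟨z, hz, rfl⟩ := hy
    refine Submodule.subset_span ⟨ops.pull s z, ops.pull_mem _ hz, ?_⟩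
    rw [mapL_em, T.W.cl_pull]
  | zero =>
    rw [mapL_zero]
    exact Submodule.zero_mem _
  | add a b _ _ ha hb =>
    rw [mapL_add]
    exact Submodule.add_mem _ ha hb
  | smul c a _ ha =>
    have h4 : mapL s (c • a) = c • mapL s a := mapL_smL _ c a
    rw [h4]
    exact Submodule.smul_mem _ _ ha

/-- The Tate conjecture passes to smaller powers. -/
theorem tate_mono (h1 : HodgeClassesAreTate G) {n m : ℕ} (h : n ≤ m) (hm : TateConjecture G m) :
    TateConjecture G n := by
  induction h with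
  | refl => exact hm
  | step _ ih => exact ih (tate_pred G h1 hm)

/-- Rational combinations of cycles. -/
lemma exists_cl {Z : 𝒱.Obj} {j : ℕ} {c : T.W.H Z}
    (hc : c ∈ Submodule.span T.W.K {y | ∃ z, Z.IsCyc j z ∧ T.W.cl Z z = y}) :
    ∃ z, Z.IsCyc j z ∧ T.W.cl Z z = c := by
  induction hc using Submodule.span_induction with
  | mem x hx => exact hx
  | zero => exact ⟨0, SmVar.IsCyc.zero _ _, map_zero _⟩
  | add a b _ _ ha hb =>
    obtain ⟨z, hz, rfl⟩ := ha
    obtain ⟨w, hw, rfl⟩ := hb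
    exact ⟨z + w, SmVar.IsCyc.add hz hw, map_add _ _ _⟩
  | smul r a _ ha =>
    obtain ⟨z, hz, rfl⟩ := ha
    obtain ⟨q, rfl⟩ := T.rat r
    exact ⟨q • z, SmVar.IsCyc.smul q hz, T.W.cl_smul q z⟩

/-- The Tate conjecture implies the Hodge conjecture. -/
theorem hodge_of_tate (h1 : HodgeClassesAreTate G) {n : ℕ} (hT : TateConjecture G n) :
    Pool.Agent.N996.FP.HodgeConjecture T (pw X n) := by
  intro j c hc
  refine exists_cl ?_
  have h2 := hT j _ (h1 n j c hc)
  let b := Module.finBasis T.W.K (T.W.H (pw X n))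
  have h3 : b.equivFun c ∈ Submodule.span T.W.K
      (b.equivFun '' {y | ∃ z, (pw X n).IsCyc j z ∧ T.W.cl (pw X n) z = y}) := by
    refine desc_span (algebraMap T.W.K L) ?_
    have key : ∀ x : L ⊗[T.W.K] T.W.H (pw X n), x ∈ Submodule.span L {y : L ⊗[T.W.K]
        T.W.H (pw X n) | ∃ z, (pw X n).IsCyc j z ∧
          (1 : L) ⊗ₜ[T.W.K] (T.W.cl (pw X n) z) = y} → (b.baseChange L).equivFun x ∈
        Submodule.span L ((fun d i => algebraMap T.W.K L (d i)) ''
          (b.equivFun '' {y | ∃ z, (pw X n).IsCyc j z ∧ T.W.cl (pw X n) z = y})) := by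
      intro x hx
      induction hx using Submodule.span_induction with
      | mem x hx =>
        obtain ⟨z, hz, rfl⟩ := hx
        refine Submodule.subset_span ⟨_, ⟨_, ⟨z, hz, rfl⟩, rfl⟩, ?_⟩
        funext i
        rw [Basis.equivFun_apply, Basis.equivFun_apply, Basis.baseChange_repr_tmul,
          Algebra.smul_def, mul_one]
      | zero => rw [map_zero]; exact Submodule.zero_mem _
      | add a b _ _ ha hb => rw [map_add]; exact Submodule.add_mem _ ha hb
      | smul c a _ ha => rw [map_smul]; exact Submodule.smul_mem _ _ ha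
    have h4 := key _ h2
    have h5 : (b.baseChange L).equivFun ((1 : L) ⊗ₜ[T.W.K] c) =
        fun i => algebraMap T.W.K L (b.equivFun c i) := by
      funext i
      rw [Basis.equivFun_apply, Basis.equivFun_apply, Basis.baseChange_repr_tmul,
        Algebra.smul_def, mul_one]
    rw [← h5]
    exact h4
  rw [← LinearEquiv.coe_coe, ← Submodule.map_span] at h3
  obtain ⟨c', hc', h4⟩ := h3
  have h5 : c' = c := b.equivFun.injective h4
  rwa [h5] at hc'

/-- The Tate conjecture follows from the Hodge conjecture, if the Tate classes are combinations of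
Hodge classes. -/
theorem tate_of_hodge (h1 : TateClassesAreHodge G) {n : ℕ}
    (hH : Pool.Agent.N996.FP.HodgeConjecture T (pw X n)) : TateConjecture G n := by
  intro j x hx
  refine Submodule.span_mono ?_ (h1 n j x hx)
  rintro _ ⟨c, hc, rfl⟩
  obtain ⟨z, hz, rfl⟩ := hH j c hc
  exact ⟨z, hz, rfl⟩

/-- **The square theorem.** -/
theorem square [CharZero L] [CharZero Ω] [Algebra.IsAlgebraic L Ω] [IsTopologicalGroup Γ]
    (θ : Ω ≃+* ℂ) {ψ : Pool.Agent.N996.FP.RForm T.W X} (hψ : Pool.Agent.N996.FP.IsPolarisation T X ψ)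
    (hX : OfAbelianType T X) (h1 : HodgeClassesAreTate G) (h2 : ActsSemisimply G)
    (h3 : WeakHodgeOperatorsGenerate Ω G)
    (h4 : SelfAdjointCentre T X ψ ∨ CentreKillsTate Ω G) {N : ℕ} (hN : AdmS T X ψ N)
    (hT : TateConjecture G (N - 1)) (n : ℕ) :
    TateConjecture G n ∧ Pool.Agent.N996.FP.HodgeConjecture T (pw X n) := by
  have h5 : 1 ≤ N - 1 := by
    rcases hN with ⟨-, rfl⟩ | ⟨-, rfl⟩ | rfl
    · exact le_rfl
    · have := le_max_left 2 (2 * X.dim)
      omega
    · have := le_max_left 4 (2 * X.dim ^ (2 * X.dim))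
      omega
  have h6 := tate_hodge G θ hψ hX h1 h2 h3 h4 (tate_mono G h1 h5 hT)
  have h7 := hodge_admS hψ hX hN (hodge_of_tate G h1 hT) n
  exact ⟨tate_of_hodge G h6 h7, h7⟩

end Pool.Agent.L0h10.TS
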