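import Mathlib

/-!
# The algebraic closure of the field of `ℓ`-adic numbers
-/

open Cardinal

namespace Pool.Agent.L0h10.TS

/-- The algebraic closure of the field of `ℓ`-adic numbers is isomorphic to the field of complex
numbers. -/
theorem exists_theta (ℓ : ℕ) [Fact ℓ.Prime] : Nonempty (AlgebraicClosure ℚ_[ℓ] ≃+* ℂ) := by
  have h1 : #(ℚ_[ℓ]) ≤ 𝔠 := by
    have h2 : Function.Surjective (fun f : CauSeq ℚ (padicNorm ℓ) =>
        (CauSeq.Completion.mk f : ℚ_[ℓ])) := fun x => Quotient.exists_rep x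
    refine (mk_le_of_surjective h2).trans ?_
    refine (mk_subtype_le _).trans ?_
    rw [← power_def, mk_nat]
    have h3 : #ℚ = ℵ₀ := by simp
    rw [h3, aleph0_power_aleph0]
  have h2 : 𝔠 ≤ #(ℚ_[ℓ]) := continuum_le_cardinal_of_nontriviallyNormedField ℚ_[ℓ]
  have h3 : #(AlgebraicClosure ℚ_[ℓ]) ≤ 𝔠 := by
    refine (Algebra.IsAlgebraic.cardinalMk_le_max ℚ_[ℓ] (AlgebraicClosure ℚ_[ℓ])).trans ?_
    exact max_le h1 aleph0_le_continuum
  have h4 : 𝔠 ≤ #(AlgebraicClosure ℚ_[ℓ]) :=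
    h2.trans (mk_le_of_injective (algebraMap ℚ_[ℓ] (AlgebraicClosure ℚ_[ℓ])).injective)
  have h5 : #(AlgebraicClosure ℚ_[ℓ]) = #ℂ := by
    rw [mk_complex]
    exact le_antisymm h3 h4
  have : CharZero (AlgebraicClosure ℚ_[ℓ]) :=
    charZero_of_injective_algebraMap (algebraMap ℚ_[ℓ] (AlgebraicClosure ℚ_[ℓ])).injective
  exact IsAlgClosed.ringEquiv_of_equiv_of_charZero (by
    rw [h5, mk_complex]
    exact aleph0_lt_continuum) (Cardinal.eq.1 h5)

end Pool.Agent.L0h10.TS
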