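import Pool.Agent.N996.FP.Sh

/-!
# The coordinates of the cohomology of an abelian variety
-/

set_option linter.unusedSectionVars false

open CategoryTheory AlgebraicGeometry TensorProduct

universe u

namespace Pool.Agent.L0h10.TS

open Module Matrix Pool.Agent.N996.BP
open Pool.Agent.H914 Pool.Agent.H914.VarClass Pool.Agent.H914.VarClass.Obj
  Pool.Agent.H914.WeilCohomology
open Pool.Agent.Y133.Half Pool.Agent.Y121.AH
open Pool.Agent.N996.BP.Geo Pool.Agent.N996.FP Pool.Agent.N996.FP.Geo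

variable {k : Type u} [Field k] {𝒱 : VarClass k} {ops : CycleOps 𝒱} {T : HodgeTheory ops}
  {X Y : 𝒱.Obj} {ψ : LinearMap.BilinForm T.W.K (T.W.H X)}

section Data

variable {ι : Type} [Fintype ι] [DecidableEq ι] {e : Basis ι T.W.K (T.W.H X)} {deg : ι → ℕ}
  {H : HData ι}

/-- The form is homogeneous. -/
lemma Q_gr (hψ : IsPHS (tauT T) (Fx T X) ψ X.dim) (hdeg : ∀ j, e j ∈ T.W.gr X (deg j)) {r : ℂ}
    (hQ : cQ H.Qr = r • (fM e ψ)ᵀ) (i j : ι) (hij : deg i ≠ deg j) : H.Qir i j = 0 := by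
  let Y : Matrix ι ι ℂ := Matrix.diagonal fun m => if deg m = deg i then 1 else 0
  have h1 : Y * cQ H.Qir = cQ H.Qir * Yᵀ := by
    refine adj_of_fM hQ ?_
    rw [Matrix.diagonal_transpose]
    ext a b
    rw [Matrix.mul_diagonal, Matrix.diagonal_mul]
    by_cases hab : deg a = deg b
    · rw [hab]
      ring
    · have h1 : fM e ψ a b = 0 := by
        rw [fM, Matrix.of_apply, form_gr hψ hab (hdeg a) (hdeg b), map_zero]
      rw [h1, zero_mul, mul_zero]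
  have h2 := congrFun (congrFun h1 i) j
  rw [Matrix.diagonal_transpose, Matrix.mul_diagonal, Matrix.diagonal_mul, if_pos rfl,
    if_neg (Ne.symm hij), one_mul, mul_zero, cQ, Matrix.map_apply] at h2
  exact_mod_cast h2

end Data

/-- **The coordinates.** -/
theorem exists_data [Nontrivial (T.W.H X)] (hψ : IsPHS (tauT T) (Fx T X) ψ X.dim)
    (hgen : Algebra.adjoin T.W.K (T.W.gr X 1 : Set (T.W.H X)) = ⊤)
    (hb : finrank T.W.K (T.W.gr X 1) = 2 * X.dim) :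
    ∃ (ι : Type) (_ : Fintype ι) (_ : DecidableEq ι) (e : Basis ι T.W.K (T.W.H X)) (H : HData ι)
      (A : Type) (_ : Ring A) (_ : Algebra ℂ A) (D : AData H A),
      (∀ j, e j ∈ T.W.gr X (D.deg j)) ∧
      (∃ v : Fin (finrank ℂ D.V) → D.V, pL D.L v ≠ 0) ∧
      cQ D.pr1 * cQ H.Qir = cQ H.Qir * (cQ D.pr1)ᵀ ∧
      (∀ i j, D.deg i ≠ D.deg j → H.Qir i j = 0) ∧
      (∀ n (a : (Fin (n + 1) → ι) → ℚ),
        cls e n a ∈ (hodgePred T).sp (pw X n) ↔ a ∈ BB H (Fin (n + 1))) ∧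
      ((∀ f, Cen1 T X f → ∀ c ∈ T.W.gr X 1, ∀ d ∈ T.W.gr X 1, ψ (f c) d = ψ c (f d)) →
        ∀ x : Matrix ι ι ℚ, D.IsCE x → cQ x * cQ H.Qir = cQ H.Qir * (cQ x)ᵀ) := by
  classical
  obtain ⟨ι, _, _, e, o, deg, heo, hdeg⟩ := exists_ubasis T.W X
  have ho : (1 : ℂ) ⊗ₜ[T.W.K] e o ∈ Fx T X (0, 0) := by
    rw [heo]
    have h1 := (isHodge_one (T := T) (X := X)).2
    exact h1
  obtain ⟨H, hHo, hHw, hH, r, hr, hQ⟩ := hψ.exists_hdata2 e o ho
  have ho1 : e H.D.o = 1 := by rw [hHo, heo]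
  have htop : ∃ v : Fin (finrank ℂ (DD hψ hdeg ho1 hH hgen).V) → (DD hψ hdeg ho1 hH hgen).V,
      pL (DD hψ hdeg ho1 hH hgen).L v ≠ 0 := by
    obtain ⟨v, hv, hv0⟩ := exists_topc hgen
    have hfin : finrank T.W.K ((gdata e hdeg ho1 hH hgen).gr 1) = 2 * X.dim := hb
    have key : ∀ m, m = 2 * X.dim → ∃ v : Fin m → T.W.H X,
        (∀ i, v i ∈ (gdata e hdeg ho1 hH hgen).gr 1) ∧ (List.ofFn v).prod ≠ 0 := by
      rintro m rfl
      exact ⟨v, hv, hv0⟩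
    obtain ⟨v, hv, hv0⟩ := key _ hfin
    exact (gdata e hdeg ho1 hH hgen).exists_top v hv hv0
  refine ⟨ι, inferInstance, inferInstance, e, H, ℂ ⊗[T.W.K] T.W.H X, inferInstance, inferInstance,
    DD hψ hdeg ho1 hH hgen, hdeg, htop, pr1_adj hψ hdeg ho1 hH hgen hQ,
    fun i j h => Q_gr hψ hdeg hQ i j h, fun n a => inv_iff.symm.trans (inv_cls e hH n a),
    fun hadj x hx => ce_adj hψ hdeg ho1 hH hgen hQ hadj hx⟩

end Pool.Agent.L0h10.TS
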