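import Pool.Agent.L0h10.TS.Gal
import Pool.Agent.L0h10.TS.Data

/-!
# The hypotheses in coordinates
-/

set_option linter.unusedSectionVars false

open CategoryTheory AlgebraicGeometry TensorProduct Matrix

universe u v

namespace Pool.Agent.L0h10.TS

open Module
open Pool.Agent.H914 Pool.Agent.H914.VarClass Pool.Agent.H914.VarClass.Obj
  Pool.Agent.H914.WeilCohomology
open Pool.Agent.Y121.AHS
open Pool.Agent.Y133.Half (pw pfst psnd wb wb_zero ClassPred)
open Pool.Agent.Y121.AH (hodgePred)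
open Pool.Agent.N996.BP Pool.Agent.N996.FP Pool.Agent.N996.BP.Geo

variable {k : Type u} [Field k] {𝒱 : VarClass k} {ops : CycleOps 𝒱} {T : HodgeTheory ops}
  {X : 𝒱.Obj} {L Ω : Type} [Field L] [Field Ω] [Algebra T.W.K L] [Algebra T.W.K Ω] [Algebra L Ω]
  [IsScalarTower T.W.K L Ω] {Γ : Type v} [Group Γ] [TopologicalSpace Γ]
  {ι : Type} [Fintype ι] [DecidableEq ι] {e : Basis ι T.W.K (T.W.H X)} {H : HData ι}
  {A : Type} [Ring A] [Algebra ℂ A] {D : AData H A}

/-- The embedding of the coefficients in the complex numbers. -/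
noncomputable def jj (L : Type) {Ω : Type} [Field L] [Field Ω] [Algebra L Ω] (θ : Ω ≃+* ℂ) :
    L →+* ℂ := (θ : Ω →+* ℂ).comp (algebraMap L Ω)

lemma jj_apply (θ : Ω ≃+* ℂ) (l : L) : jj L θ l = θ (algebraMap L Ω l) := rfl

/-- The coordinates of the combinations of Hodge classes. -/
lemma sp_cl [CharZero L] (hB : ∀ n (a : (Fin (n + 1) → ι) → ℚ),
      cls (T := toH T) e n a ∈ (hodgePred (toH T)).sp (pw X n) ↔ a ∈ BB H (Fin (n + 1)))
    {n : ℕ} {c : T.W.H (pw X n)} (hc : c ∈ (hodgePred (toH T)).sp (pw X n)) :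
    ∃ a ∈ BB H (Fin (n + 1)), emL T.W L c = ve L e n (cL L a) := by
  obtain ⟨a, rfl⟩ := cls_surj (T := toH T) e n c
  exact ⟨a, (hB n a).1 hc, emL_clw e n a⟩

lemma isHodge_sp {n j : ℕ} {c : T.W.H (pw X n)} (hc : IsHodge T (pw X n) j c) :
    c ∈ (hodgePred (toH T)).sp (pw X n) := ClassPred.sp_of (Q := hodgePred (toH T)) hc

/-- Combinations of cycles in coordinates. -/
lemma span_cyc [CharZero L] (hB : ∀ n (a : (Fin (n + 1) → ι) → ℚ),
      cls (T := toH T) e n a ∈ (hodgePred (toH T)).sp (pw X n) ↔ a ∈ BB H (Fin (n + 1)))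
    {n p : ℕ} {x : HL T.W L (pw X n)}
    (hx : x ∈ Submodule.span L {y | ∃ z, (pw X n).IsCyc p z ∧
      emL T.W L (T.W.cl (pw X n) z) = y}) :
    (ve L e n).symm x ∈ Submodule.span L (cL L '' (BB H (Fin (n + 1)) : Set _)) := by
  induction hx using Submodule.span_induction with
  | mem x hx =>
    obtain ⟨z, hz, rfl⟩ := hx
    obtain ⟨a, ha, h1⟩ := sp_cl (L := L) hB (isHodge_sp (T.cyc _ _ z hz))
    rw [h1, LinearEquiv.symm_apply_apply]
    exact Submodule.subset_span ⟨a, ha, rfl⟩
  | zero => rw [map_zero]; exact Submodule.zero_mem _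
  | add x y _ _ hx hy => rw [map_add]; exact Submodule.add_mem _ hx hy
  | smul c x _ hx => rw [map_smul]; exact Submodule.smul_mem _ _ hx

/-- The homogeneous part of an array. -/
def hp (deg : ι → ℕ) (p : ℕ) {n : ℕ} {R : Type*} [Zero R] (a : (Fin (n + 1) → ι) → R) :
    (Fin (n + 1) → ι) → R := fun w => if ∑ i, deg (w i) = 2 * p then a w else 0

/-- The homogeneous parts of Hodge arrays. -/
lemma hp_hodge (hdeg : ∀ j, e j ∈ T.W.gr X (D.deg j)) (hB : ∀ n (a : (Fin (n + 1) → ι) → ℚ),
      cls (T := toH T) e n a ∈ (hodgePred (toH T)).sp (pw X n) ↔ a ∈ BB H (Fin (n + 1)))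
    {n : ℕ} {a : (Fin (n + 1) → ι) → ℚ} (ha : a ∈ BB H (Fin (n + 1))) (p : ℕ) :
    IsHodge T (pw X n) p (clw e n (hp D.deg p a)) := by
  have h1 := ClassPred.sp_proj ((hB n a).2 ha) p
  have h2 : H914.proj (T.W.isInternal (pw X n)) (2 * p) (clw e n a) = clw e n (hp D.deg p a) := by
    rw [clw, clw, map_sum]
    refine Finset.sum_congr rfl fun w _ => ?_
    rw [map_smul, hp]
    by_cases hw : ∑ i, D.deg (w i) = 2 * p
    · rw [if_pos hw, Pool.Agent.H914.proj_same _ (hw ▸ wb_mem hdeg n w)]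
    · rw [if_neg hw, Pool.Agent.H914.proj_ne _ (wb_mem hdeg n w) hw, smul_zero, Rat.cast_zero,
        zero_smul]
  rw [← h2]
  exact h1

lemma hp_span [CharZero L] (hdeg : ∀ j, e j ∈ T.W.gr X (D.deg j))
    (hB : ∀ n (a : (Fin (n + 1) → ι) → ℚ),
      cls (T := toH T) e n a ∈ (hodgePred (toH T)).sp (pw X n) ↔ a ∈ BB H (Fin (n + 1)))
    {n : ℕ} {z : (Fin (n + 1) → ι) → L}
    (hz : z ∈ Submodule.span L (cL L '' (BB H (Fin (n + 1)) : Set _))) (p : ℕ) :
    ve L e n (hp D.deg p z) ∈
      Submodule.span L {y | ∃ c, IsHodge T (pw X n) p c ∧ emL T.W L c = y} := by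
  induction hz using Submodule.span_induction with
  | mem z hz =>
    obtain ⟨a, ha, rfl⟩ := hz
    refine Submodule.subset_span ⟨_, hp_hodge hdeg hB ha p, ?_⟩
    rw [emL_clw]
    congr 1
    funext w
    rw [cL, hp, hp]
    by_cases hw : ∑ i, D.deg (w i) = 2 * p
    · rw [if_pos hw, if_pos hw]; rfl
    · rw [if_neg hw, if_neg hw, Rat.cast_zero]
  | zero =>
    have h1 : hp D.deg p (0 : (Fin (n + 1) → ι) → L) = 0 := by
      funext w
      exact ite_self _
    rw [h1, map_zero]
    exact Submodule.zero_mem _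
  | add a b _ _ ha hb =>
    have h1 : hp D.deg p (a + b) = hp D.deg p a + hp D.deg p b := by
      funext w
      rw [Pi.add_apply]
      by_cases hw : ∑ i, D.deg (w i) = 2 * p
      · simp only [hp, if_pos hw, Pi.add_apply]
      · simp only [hp, if_neg hw, add_zero]
    rw [h1, map_add]
    exact Submodule.add_mem _ ha hb
  | smul c a _ ha =>
    have h1 : hp D.deg p (c • a) = c • hp D.deg p a := by
      funext w
      rw [Pi.smul_apply]
      by_cases hw : ∑ i, D.deg (w i) = 2 * p
      · simp only [hp, if_pos hw, Pi.smul_apply]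
      · simp only [hp, if_neg hw, smul_zero]
    rw [h1, map_smul]
    exact Submodule.smul_mem _ _ ha

/-- Infinitesimal operators are given by their matrices. -/
lemma inf_eq {E : Operators T X Ω} (hE : IsInfinitesimal E) :
    E = opOf e (mt (Z := X) e (E 0)) := by
  funext n x
  obtain ⟨z, rfl⟩ := (ve Ω e n).surjective x
  rw [fam_dv e hE, opOf_ve]

/-- The operators which kill an array. -/
lemma opOf_kill (θ : Ω ≃+* ℂ) (y : Matrix ι ι Ω) {n : ℕ} (z : (Fin (n + 1) → ι) → Ω) :
    opOf e y n (ve Ω e n z) = 0 ↔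
      dk (Fin (n + 1)) (y.map θ) *ᵥ (fun w => θ (z w)) = 0 := by
  rw [opOf_ve, dv_eq]
  have h1 : dv (y.map θ) (fun w => θ (z w)) = fun w => θ (dv y z w) :=
    dv_map (θ : Ω →+* ℂ) y z
  rw [h1]
  constructor
  · intro h
    have h2 : dv y z = 0 := (ve Ω e n).injective (by rw [h, map_zero])
    funext w
    rw [h2, Pi.zero_apply, map_zero]
    rfl
  · intro h
    have h2 : dv y z = 0 := by
      funext w
      have h3 := congrFun h w
      exact (map_eq_zero_iff θ θ.injective).1 h3
    rw [h2, map_zero]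

variable (G : GaloisAction T X Γ L) (hdeg : ∀ j, e j ∈ T.W.gr X (D.deg j))

lemma killsTate_iff (θ : Ω ≃+* ℂ) (y : Matrix ι ι Ω) : KillsTate G (opOf e y) ↔
    ∀ n a, (toRep G e hdeg).IsT n a →
      dk (Fin (n + 1)) (y.map θ) *ᵥ (fun w => jj L θ (a w)) = 0 := by
  constructor
  · rintro h n a ha
    obtain ⟨p, hp⟩ := (isT_iff G e hdeg).1 ha
    have h1 := h n p _ hp
    rw [up_ve, opOf_kill θ] at h1
    exact h1
  · intro h n p x hx
    obtain ⟨a, rfl⟩ := (ve L e n).surjective x
    rw [up_ve, opOf_kill θ]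
    exact h n a ((isT_iff G e hdeg).2 ⟨p, hx⟩)

/-- Weak Hodge operators in coordinates. -/
lemma weak_Gs (θ : Ω ≃+* ℂ) {E : Operators T X Ω} (hE : IsWeakHodge G E) :
    (mt (Z := X) e (E 0)).map θ ∈ Gs D (jj L θ) (toRep G e hdeg) := by
  obtain ⟨y, hy⟩ : ∃ y, y = mt (Z := X) e (E 0) := ⟨_, rfl⟩
  have h1 : E = opOf e y := by rw [hy]; exact inf_eq hE.inf
  rw [← hy]
  refine ⟨?_, ?_⟩
  · have h2 : ∀ m, D.deg m = 1 → (y * y) *ᵥ Pi.single m 1 = Pi.single m 1 := by
      intro m hm
      have h3 : IsDeg 1 (vB Ω e (Pi.single m 1) : HL T.W Ω X) := by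
        refine (isDeg_vB hdeg).2 fun w hw => ?_
        by_cases h4 : w = m
        · rw [h4, hm]
        · exact absurd (Pi.single_eq_of_ne h4 _) hw
      have h4 := hE.sq _ h3
      rw [h1, opOf_zero] at h4
      have h5 : opOf e y 0 (vB Ω e (y *ᵥ Pi.single m 1) : HL T.W Ω X) =
        (vB Ω e (y *ᵥ (y *ᵥ Pi.single m 1)) : HL T.W Ω X) := opOf_zero e y _
      rw [← Matrix.mulVec_mulVec]
      exact vB_inj (h5.symm.trans h4)
    rw [D.cQ_pr1]
    ext i m
    rw [Matrix.mul_diagonal, Matrix.diagonal_apply]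
    by_cases hm : D.deg m = 1
    · have h3 := congrArg θ (congrFun (h2 m hm) i)
      rw [Matrix.mulVec_single_one, Matrix.col_apply] at h3
      have h4 : (y.map θ * y.map θ) i m = θ ((y * y) i m) := by
        have h5 := Matrix.map_mul (L := y) (M := y) (f := (θ : Ω →+* ℂ))
        have h6 := congrFun (congrFun h5 i) m
        exact h6.symm
      rw [h4, h3, if_pos hm, mul_one, Pi.single_apply]
      by_cases him : i = m
      · subst him
        rw [if_pos rfl, if_pos rfl, if_pos hm, map_one]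
      · rw [if_neg him, if_neg him, map_zero]
    · rw [if_neg hm, mul_zero]
      by_cases him : i = m
      · subst him
        rw [if_pos rfl, if_neg hm]
      · rw [if_neg him]
  · refine (killsTate_iff G hdeg θ y).1 ?_
    rw [← h1]
    exact hE.tate

/-- **The hypotheses.** -/
theorem hyp_of [CharZero L] (hQ : ∀ i j, D.deg i ≠ D.deg j → H.Qir i j = 0)
    (hB : ∀ n (a : (Fin (n + 1) → ι) → ℚ),
      cls (T := toH T) e n a ∈ (hodgePred (toH T)).sp (pw X n) ↔ a ∈ BB H (Fin (n + 1)))
    (θ : Ω ≃+* ℂ) [Algebra.IsAlgebraic L Ω] (h1 : HodgeClassesAreTate G)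
    (h2 : ActsSemisimply G) (h3 : WeakHodgeOperatorsGenerate Ω G) (hT : TateConjecture G 1) :
    Hyp D (jj L θ) (toRep G e hdeg) where
  alg z := by
    obtain ⟨p, hp, h4⟩ := Algebra.IsAlgebraic.isAlgebraic (R := L) (θ.symm z)
    refine ⟨p, hp, ?_⟩
    have h5 := Polynomial.hom_eval₂ p (algebraMap L Ω) (θ : Ω →+* ℂ) (θ.symm z)
    have h6 : p.eval₂ (algebraMap L Ω) (θ.symm z) = 0 := h4
    rw [h6, map_zero] at h5
    have h7 : (θ : Ω →+* ℂ) (θ.symm z) = z := θ.apply_symm_apply z
    rw [h7] at h5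
    exact h5.symm
  hH n a ha := by
    have h4 := (hB n a).2 ha
    have key : ∀ c ∈ (hodgePred (toH T)).sp (pw X n), (ve L e n).symm (emL T.W L c) ∈
        Submodule.span L {a | (toRep G e hdeg).IsT n a} := by
      intro c hc
      refine ClassPred.sp_ind (Q := hodgePred (toH T)) (q := fun c =>
        (ve L e n).symm (emL T.W L c) ∈ Submodule.span L {a | (toRep G e hdeg).IsT n a})
        ?_ ?_ ?_ hc
      · intro j c hc
        refine Submodule.subset_span ((isT_iff G e hdeg).2 ⟨j, ?_⟩)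
        rw [LinearEquiv.apply_symm_apply]
        exact h1 n j c hc
      · have h5 : emL T.W L (0 : T.W.H (pw X n)) = 0 := emL_zero
        change (ve L e n).symm (emL T.W L (0 : T.W.H (pw X n))) ∈ _
        rw [h5, map_zero]
        exact Submodule.zero_mem _
      · intro a b ha hb
        have h5 : emL T.W L ((show T.W.H (pw X n) from a) + (show T.W.H (pw X n) from b)) =
          emL T.W L a + emL T.W L b := emL_add _ _
        change (ve L e n).symm (emL T.W L ((show T.W.H (pw X n) from a) +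
          (show T.W.H (pw X n) from b))) ∈ _
        rw [h5, map_add]
        exact Submodule.add_mem _ ha hb
    have h5 := key _ h4
    have h6 : emL T.W L (clw e n a) = ve L e n (cL L a) := emL_clw e n a
    change (ve L e n).symm (emL T.W L (clw e n a)) ∈ _ at h5
    rwa [h6, LinearEquiv.symm_apply_apply] at h5
  hT a ha := by
    obtain ⟨p, hp⟩ := (isT_iff G e hdeg).1 ha
    have h4 := span_cyc hB (hT p _ hp)
    rwa [LinearEquiv.symm_apply_apply] at h4
  hP a ha := by
    obtain ⟨b, hb⟩ : ∃ b : (Fin (1 + 1) → ι) → Ω, b = fun w => θ.symm (a w) := ⟨_, rfl⟩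
    have hab : a = fun w => θ (b w) := by
      funext w
      rw [hb, RingEquiv.apply_symm_apply]
    have h4 := h3 (ve Ω e 1 b) fun E hE => by
      have h5 := ha _ (weak_Gs G hdeg θ hE)
      rw [hab, ← opOf_kill (e := e), ← inf_eq hE.inf] at h5
      exact h5
    have key : ∀ x ∈ Submodule.span Ω {y | ∃ (j : ℕ) (z : HL T.W L (pw X 1)),
        IsTate G 1 j z ∧ up Ω z = y}, (fun w => θ ((ve Ω e 1).symm x w)) ∈
        Submodule.span ℂ {x | ∃ b, (toRep G e hdeg).IsT 1 b ∧ x = fun w => jj L θ (b w)} := by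
      intro x hx
      induction hx using Submodule.span_induction with
      | mem x hx =>
        obtain ⟨j, z, hz, rfl⟩ := hx
        obtain ⟨c, rfl⟩ := (ve L e 1).surjective z
        refine Submodule.subset_span ⟨c, (isT_iff G e hdeg).2 ⟨j, hz⟩, ?_⟩
        funext w
        rw [up_ve, LinearEquiv.symm_apply_apply]
        rfl
      | zero =>
        have h5 : (fun w => θ ((ve Ω e 1).symm 0 w)) = 0 := by
          funext w
          rw [map_zero]
          exact map_zero θ
        rw [h5]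
        exact Submodule.zero_mem _
      | add x y _ _ hx hy =>
        have h5 : (fun w => θ ((ve Ω e 1).symm (x + y) w)) =
            (fun w => θ ((ve Ω e 1).symm x w)) + fun w => θ ((ve Ω e 1).symm y w) := by
          funext w
          rw [map_add]
          exact map_add θ _ _
        rw [h5]
        exact Submodule.add_mem _ hx hy
      | smul c x _ hx =>
        have h5 : (fun w => θ ((ve Ω e 1).symm (c • x) w)) =
            θ c • fun w => θ ((ve Ω e 1).symm x w) := by
          funext w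
          rw [map_smul]
          exact map_mul θ _ _
        rw [h5]
        exact Submodule.smul_mem _ _ hx
    have h5 := key _ h4
    rw [LinearEquiv.symm_apply_apply, ← hab] at h5
    exact h5
  hss Δ U hU := ss_coord G e hdeg h2 Δ U hU
  hQ := hQ

end Pool.Agent.L0h10.TS
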