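import Pool.Agent.Y121.AHS.Ext

/-!
# Notions of linear algebra for the statements
-/

open TensorProduct

universe v

namespace Pool.Agent.L0h10.TS

open Pool.Agent.Y121.AHS

/-- The extension of the coefficients from `L` to `Ω`: the map `L ⊗ A → Ω ⊗ A`, `l ⊗ a ↦ l ⊗ a`. -/
noncomputable def extUp (K L Ω : Type) {A : Type} [Field K] [Field L] [Field Ω] [Algebra K L]
    [Algebra K Ω] [Algebra L Ω] [IsScalarTower K L Ω] [Ring A] [Algebra K A] (x : Ext K L A) :
    Ext K Ω A :=
  ((IsScalarTower.toAlgHom K L Ω).toLinearMap.rTensor A (show L ⊗[K] A from x) : Ω ⊗[K] A)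

/-- The vector `x` is a linear combination, with coefficients in `L`, of vectors with the
property `P`. -/
def IsComb (L : Type) [Field L] {V : Type} [AddCommGroup V] [Module L V] (P : V → Prop) (x : V) :
    Prop :=
  x ∈ Submodule.span L {y | P y}

/-- The open subgroups of the topological group `Γ` act semisimply on the vector space `V` over
`L`: every subspace of `V` which is stable under an open subgroup has a complement which is stable
under this subgroup. -/
def OpenSubgroupsActSemisimply {Γ : Type v} [Group Γ] [TopologicalSpace Γ] (L : Type) [Field L]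
    {V : Type} [AddCommGroup V] [Module L V] (ρ : Γ → V → V) : Prop :=
  ∀ (Δ : OpenSubgroup Γ) (U : Submodule L V), (∀ g ∈ Δ, ∀ x ∈ U, ρ g x ∈ U) →
    ∃ U' : Submodule L V, (∀ g ∈ Δ, ∀ x ∈ U', ρ g x ∈ U') ∧ IsCompl U U'

end Pool.Agent.L0h10.TS
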