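import Pool.Agent.N996.FP.Defs
import Pool.Agent.L0h10.TS.Abs

/-!
# Galois actions, Tate classes and infinitesimal operators: definitions

In the intended use `k` is an algebraic closure of a field `K` of finite type over `ℚ`, embedded into
the field of complex numbers, the varieties are the smooth projective ones over `k`, `T` is the
theory `X ↦ H(X(ℂ), ℚ)`, `X` is an abelian variety over `k` which is defined over `K`, `L` is the
field `ℚ_ℓ` for a prime number `ℓ`, so that `L ⊗ H(X(ℂ), ℚ)` is the `ℓ`-adic cohomology of `X`, `Γ`
is the Galois group of `k` over `K`, and `Ω` is an algebraic closure of `ℚ_ℓ`.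

`pw X n` is the power `X ^ (n + 1)`.
-/

open CategoryTheory AlgebraicGeometry TensorProduct

universe u v

namespace Pool.Agent.L0h10.TS

open Pool.Agent.H914 Pool.Agent.H914.VarClass Pool.Agent.H914.VarClass.Obj
  Pool.Agent.H914.WeilCohomology
open Pool.Agent.Y121.AHS Pool.Agent.N996.FP
open Pool.Agent.Y133.Half (pw)

variable {k : Type u} [Field k] {𝒱 : VarClass k} {ops : CycleOps 𝒱}

section Basic

variable {W : WeilCohomology.{u, 0} ops} {X : 𝒱.Obj}

/-- The exterior product `pr₁^* a · pr₂^* b` on `X ^ (n + 2) = X ^ (n + 1) × X`. -/
noncomputable def cross {F : Type} [Field F] [Algebra W.K F] {n : ℕ} (a : HL W F (pw X n))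
    (b : HL W F X) : HL W F (pw X (n + 1)) :=
  mulL (mapL (fst (pw X n) X) a) (mapL (snd (pw X n) X) b)

/-- The extension of the coefficients, `L ⊗ H(X) → Ω ⊗ H(X)`, `l ⊗ c ↦ l ⊗ c`. -/
noncomputable def up {L : Type} (Ω : Type) [Field L] [Field Ω] [Algebra W.K L] [Algebra W.K Ω]
    [Algebra L Ω] [IsScalarTower W.K L Ω] (x : HL W L X) : HL W Ω X :=
  extUp W.K L Ω x

end Basic

variable (T : HodgeTheory ops) (X : 𝒱.Obj)

/-- An action of the group `Γ` on the cohomology with coefficients in `L` of the powers of `X`,
together with a character `χ` of `Γ` (the cyclotomic character). The elements of `Γ` act by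
`L`-linear maps which preserve the degrees and respect exterior products. -/
structure GaloisAction (Γ : Type v) [Group Γ] (L : Type) [Field L] [Algebra T.W.K L] where
  /-- the character -/
  χ : Γ → L
  χ_one : χ 1 = 1
  χ_mul : ∀ g h, χ (g * h) = χ g * χ h
  /-- the action -/
  ρ : ∀ n, Γ → HL T.W L (pw X n) → HL T.W L (pw X n)
  one : ∀ n x, ρ n 1 x = x
  comp : ∀ n g h x, ρ n (g * h) x = ρ n g (ρ n h x)
  add : ∀ n g x y, ρ n g (x + y) = ρ n g x + ρ n g y
  smul : ∀ n g l x, ρ n g (smL l x) = smL l (ρ n g x)
  deg : ∀ n g i x, IsDeg i x → IsDeg i (ρ n g x)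
  cross : ∀ n g (a : HL T.W L (pw X n)) (b : HL T.W L (pw X 0)),
    ρ (n + 1) g (TS.cross a b) = TS.cross (ρ n g a) (ρ 0 g b)

variable {T X}

section Tate

variable {Γ : Type v} [Group Γ] [TopologicalSpace Γ] {L : Type} [Field L] [Algebra T.W.K L]
  (G : GaloisAction T X Γ L)

/-- The class `x` on `X ^ (n + 1)` is a Tate class of degree `2 j`: it has degree `2 j`, and
`χ(g) ^ j · g x = x` for all `g` in some open subgroup of `Γ`. (That is, `x`, as an element of the
Tate twist `H ^ (2 j)(X ^ (n + 1))(j)`, is fixed by some open subgroup.) -/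
def IsTate (n j : ℕ) (x : HL T.W L (pw X n)) : Prop :=
  IsDeg (2 * j) x ∧ ∃ Δ : OpenSubgroup Γ, ∀ g ∈ Δ, smL (G.χ g ^ j) (G.ρ n g x) = x

/-- The Tate conjecture for `X ^ (n + 1)`: for all `j` the Tate classes of degree `2 j` are
`L`-linear combinations of the classes of the algebraic cycles of codimension `j`. -/
def TateConjecture (n : ℕ) : Prop := ∀ (j : ℕ) (x : HL T.W L (pw X n)), IsTate G n j x →
  IsComb L (fun y => ∃ z, (pw X n).IsCyc j z ∧ emL T.W L (T.W.cl (pw X n) z) = y) x

/-- The Tate classes on the powers of `X` are `L`-linear combinations of Hodge classes. (For an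
abelian variety `X` it means that the Mumford-Tate conjecture holds for `X` at `ℓ`, as by a theorem
of Deligne the Hodge classes are Tate classes.) -/
def TateClassesAreHodge : Prop := ∀ (n j : ℕ) (x : HL T.W L (pw X n)), IsTate G n j x →
  IsComb L (fun y => ∃ c, IsHodge T (pw X n) j c ∧ emL T.W L c = y) x

/-- The Hodge classes on the powers of `X` are Tate classes. (For abelian varieties it is a theorem
of Deligne.) -/
def HodgeClassesAreTate : Prop := ∀ (n j : ℕ) (c : T.W.H (pw X n)), IsHodge T (pw X n) j c →
  IsTate G n j (emL T.W L c)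

/-- The action of the open subgroups on `H(X, L)` is semisimple: every subspace which is stable under
an open subgroup has a stable complement. (For abelian varieties it is a theorem of Faltings.) -/
def ActsSemisimply : Prop := OpenSubgroupsActSemisimply L (G.ρ 0)

end Tate

section Infinitesimal

variable (T X) in
/-- Families of maps from the cohomology with coefficients in `Ω` of the powers of `X` to itself. -/
abbrev Operators (Ω : Type) [Field Ω] [Algebra T.W.K Ω] : Type :=
  ∀ n, HL T.W Ω (pw X n) → HL T.W Ω (pw X n)

variable {Ω : Type} [Field Ω] [Algebra T.W.K Ω]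

/-- The family `D` is an infinitesimal operator: `D n` is linear, and
`D(a × b) = D a × b + a × D b` for the exterior products of classes `a` on `X ^ (n + 1)` and `b`
on `X`. (So `D` is given by the linear map `D 0` of `H(X)`, which acts on
`H(X ^ (n + 1)) = H(X) ⊗ … ⊗ H(X)` by the rule of Leibniz.) -/
structure IsInfinitesimal (D : Operators T X Ω) : Prop where
  add : ∀ n x y, D n (x + y) = D n x + D n y
  smul : ∀ n l x, D n (smL l x) = smL l (D n x)
  leibniz : ∀ n (a : HL T.W Ω (pw X n)) (b : HL T.W Ω (pw X 0)),
    D (n + 1) (cross a b) = cross (D n a) b + cross a (D 0 b)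

/-- The family `D` is zero on the Hodge classes on the powers of `X`. (If `D` is an infinitesimal
operator, then it means that `D` belongs to the Lie algebra of the Hodge group of `X`.) -/
def KillsHodge (D : Operators T X Ω) : Prop :=
  ∀ (n j : ℕ) (c : T.W.H (pw X n)), IsHodge T (pw X n) j c → D n (emL T.W Ω c) = 0

variable {Γ : Type v} [Group Γ] [TopologicalSpace Γ] {L : Type} [Field L] [Algebra T.W.K L]
  [Algebra L Ω] [IsScalarTower T.W.K L Ω] (G : GaloisAction T X Γ L)

/-- The family `D` is zero on the Tate classes on the powers of `X`. -/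
def KillsTate (D : Operators T X Ω) : Prop :=
  ∀ (n j : ℕ) (x : HL T.W L (pw X n)), IsTate G n j x → D n (up Ω x) = 0

/-- A weak Hodge operator: an infinitesimal operator which is zero on the Tate classes and whose
square is the identity on `H^1(X)`. (Let `X` be an abelian variety. The weak Hodge cocharacters of
Pink are the cocharacters of the `ℓ`-adic algebraic monodromy group, with coefficients in `Ω`, with
the weights `0` and `1` on `H^1(X)`, of equal multiplicity. If `μ` is the derivative of such a
cocharacter, then `2 μ - i` on the cohomology of degree `i` is a weak Hodge operator.) -/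
structure IsWeakHodge (D : Operators T X Ω) : Prop where
  inf : IsInfinitesimal D
  tate : KillsTate G D
  sq : ∀ x : HL T.W Ω (pw X 0), IsDeg 1 x → D 0 (D 0 x) = x

variable (Ω) in
/-- The classes on `X × X` with coefficients in `Ω` which are killed by all weak Hodge operators are
linear combinations of Tate classes. (For abelian varieties it follows from the theorem of Pink:
the connected `ℓ`-adic algebraic monodromy group is generated by weak Hodge cocharacters.) -/
def WeakHodgeOperatorsGenerate : Prop := ∀ x : HL T.W Ω (pw X 1),
  (∀ D : Operators T X Ω, IsWeakHodge G D → D 1 x = 0) →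
    IsComb Ω (fun y => ∃ (j : ℕ) (z : HL T.W L (pw X 1)), IsTate G 1 j z ∧ up Ω z = y) x

variable (Ω) in
/-- The centre of the Lie algebra of the Hodge group kills the Tate classes: if an infinitesimal
operator `Z` is zero on the Hodge classes and commutes on `H(X)` with all such operators, then it is
zero on the Tate classes. (For abelian varieties it follows from the theorem of Vasiu, Ullmo and
Yafaev: the centres of the Mumford-Tate group and of the `ℓ`-adic algebraic monodromy group have the
same identity component. There is nothing to prove if the Hodge group is semisimple.) -/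
def CentreKillsTate : Prop := ∀ Z : Operators T X Ω, IsInfinitesimal Z → KillsHodge Z →
  (∀ D : Operators T X Ω, IsInfinitesimal D → KillsHodge D →
    ∀ x : HL T.W Ω (pw X 0), Z 0 (D 0 x) = D 0 (Z 0 x)) → KillsTate G Z

end Infinitesimal

end Pool.Agent.L0h10.TS
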