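import Pool.Agent.L0h10.TS.Geo

/-!
# Tate classes in coordinates
-/

set_option linter.unusedSectionVars false

open CategoryTheory AlgebraicGeometry TensorProduct Matrix

universe u v

namespace Pool.Agent.L0h10.TS

open Module
open Pool.Agent.H914 Pool.Agent.H914.VarClass Pool.Agent.H914.VarClass.Obj
  Pool.Agent.H914.WeilCohomology
open Pool.Agent.Y121.AHS
open Pool.Agent.Y133.Half (pw pfst psnd wb wb_zero)
open Pool.Agent.N996.BP Pool.Agent.N996.FP

variable {k : Type u} [Field k] {𝒱 : VarClass k} {ops : CycleOps 𝒱} {T : HodgeTheory ops}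
  {X : 𝒱.Obj} {L : Type} [Field L] [Algebra T.W.K L] {Γ : Type v} [Group Γ]
  (G : GaloisAction T X Γ L)

lemma gal_lin (n : ℕ) (g : Γ) : IsLin (G.ρ n g) := ⟨G.add n g, G.smul n g⟩

lemma gal_cross (g : Γ) (n : ℕ) (a : HL T.W L (pw X n)) (b : HL T.W L (pw X 0)) :
    G.ρ (n + 1) g (cross a b) = cross (G.ρ n g a) (G.ρ 0 g b) :=
  G.cross n g a b

variable {ι : Type} [Fintype ι] [DecidableEq ι] (e : Basis ι T.W.K (T.W.H X)) {deg : ι → ℕ}
  (hdeg : ∀ j, e j ∈ T.W.gr X (deg j))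

/-- The action in coordinates. -/
lemma gal_ve (g : Γ) (n : ℕ) (z : (Fin (n + 1) → ι) → L) :
    G.ρ n g (ve L e n z) = ve L e n (kp (Fin (n + 1)) (mt (Z := X) e (G.ρ 0 g)) *ᵥ z) :=
  fam_kp e (f := fun n => G.ρ n g) (fun n => gal_lin G n g) (fun n a b => gal_cross G g n a b) n z

lemma vB_inj {κ : Type} [Fintype κ] {Z : 𝒱.Obj} {b : Basis κ T.W.K (T.W.H Z)} {F : Type} [Field F]
    [Algebra T.W.K F] {z z' : κ → F} (h : vB F b z = vB F b z') : z = z' :=
  (vB F b).injective h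

lemma gal_vB (g : Γ) (v : ι → L) : G.ρ 0 g (vB L e v : HL T.W L X) =
    (vB L e (mt (Z := X) e (G.ρ 0 g) *ᵥ v) : HL T.W L X) := mt_spec (Z := X) e (gal_lin G 0 g) v

include hdeg in
lemma mt_deg (g : Γ) (i j : ι) (h : deg i ≠ deg j) : mt (Z := X) e (G.ρ 0 g) i j = 0 := by
  by_contra h0
  apply h
  have h1 : IsDeg (deg j) (vB L e (Pi.single j 1) : HL T.W L X) := by
    refine (isDeg_vB hdeg).2 fun w hw => ?_
    by_contra h2
    apply hw
    rw [Pi.single_eq_of_ne]
    rintro rfl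
    exact h2 rfl
  have h2 : IsDeg (X := X) (deg j) (G.ρ 0 g (vB L e (Pi.single j 1) : HL T.W L X)) :=
    G.deg 0 g _ _ h1
  rw [gal_vB] at h2
  refine (isDeg_vB hdeg).1 h2 i ?_
  rw [Matrix.mulVec_single_one, Matrix.col_apply]
  exact h0

/-- The action in coordinates. -/
noncomputable def toRep : GRep deg L Γ where
  R g := mt (Z := X) e (G.ρ 0 g)
  χ := G.χ
  one := by
    refine mt_inj (Z := X) e fun j => ?_
    rw [Matrix.one_mulVec, vB_single]
    exact G.one 0 _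
  mul g h := by
    refine mt_inj (Z := X) e fun j => ?_
    have h1 := gal_vB G e h (Pi.single j 1)
    have h2 := gal_vB G e g (mt (Z := X) e (G.ρ 0 h) *ᵥ Pi.single j 1)
    rw [← Matrix.mulVec_mulVec, ← h2, ← h1, ← vB_single]
    exact G.comp 0 g h _
  χ_one := G.χ_one
  χ_mul := G.χ_mul
  deg' g i j h := mt_deg G e hdeg g i j h

variable [TopologicalSpace Γ]

/-- Tate classes in coordinates. -/
lemma isTp_iff {n p : ℕ} {z : (Fin (n + 1) → ι) → L} :
    (toRep G e hdeg).IsTp n p z ↔ IsTate G n p (ve L e n z) := by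
  refine and_congr (isDeg_ve hdeg).symm (exists_congr fun Δ => forall₂_congr fun g _ => ?_)
  rw [gal_ve, ← ve_smul]
  constructor
  · intro h
    exact congrArg (ve L e n) h
  · intro h
    exact (ve L e n).injective h

lemma isT_iff {n : ℕ} {z : (Fin (n + 1) → ι) → L} :
    (toRep G e hdeg).IsT n z ↔ ∃ p, IsTate G n p (ve L e n z) :=
  exists_congr fun _ => isTp_iff G e hdeg

/-- Semisimplicity in coordinates. -/
lemma ss_coord (h : ActsSemisimply G) (Δ : OpenSubgroup Γ) (U : Submodule L (ι → L))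
    (hU : ∀ g ∈ Δ, ∀ u ∈ U, (toRep G e hdeg).R g *ᵥ u ∈ U) :
    ∃ U' : Submodule L (ι → L), (∀ g ∈ Δ, ∀ u ∈ U', (toRep G e hdeg).R g *ᵥ u ∈ U') ∧
      IsCompl U U' := by
  let φ : (ι → L) ≃ₗ[L] HL T.W L X := vB L e
  obtain ⟨V, hV1, hV2⟩ := h Δ (U.map φ.toLinearMap) (by
    rintro g hg _ ⟨u, hu, rfl⟩
    have h1 := gal_vB G e g u
    refine ⟨mt (Z := X) e (G.ρ 0 g) *ᵥ u, hU g hg u hu, ?_⟩
    exact h1.symm)
  let V' : Submodule L (HL T.W L X) := V
  refine ⟨V'.comap φ.toLinearMap, fun g hg u hu => ?_, ?_⟩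
  · have h1 := gal_vB G e g u
    change vB L e (mt (Z := X) e (G.ρ 0 g) *ᵥ u) ∈ V'
    rw [← h1]
    exact hV1 g hg _ hu
  · have h1 : IsCompl (U.map φ.toLinearMap) V' := hV2
    have h2 := (Submodule.orderIsoMapComap φ.symm).isCompl h1
    have h3 : (Submodule.orderIsoMapComap φ.symm) (U.map φ.toLinearMap) = U := by
      ext x
      rw [Submodule.orderIsoMapComap_apply]
      constructor
      · rintro ⟨_, ⟨u, hu, rfl⟩, rfl⟩
        change φ.symm (φ u) ∈ U
        rwa [LinearEquiv.symm_apply_apply]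
      · intro hx
        exact ⟨φ x, ⟨x, hx, rfl⟩, LinearEquiv.symm_apply_apply _ _⟩
    have h4 : (Submodule.orderIsoMapComap φ.symm) V' = V'.comap φ.toLinearMap := by
      ext x
      rw [Submodule.orderIsoMapComap_apply]
      constructor
      · rintro ⟨v, hv, rfl⟩
        change φ (φ.symm v) ∈ V'
        rwa [LinearEquiv.apply_symm_apply]
      · intro hx
        exact ⟨φ x, hx, LinearEquiv.symm_apply_apply _ _⟩
    rwa [h3, h4] at h2

end Pool.Agent.L0h10.TS
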