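import Pool.Agent.L0h10.TS.Vec2
import Pool.Agent.N996.FP.FinS

/-!
# Galois actions and infinitesimal operators in coordinates
-/

set_option linter.unusedSectionVars false

open CategoryTheory AlgebraicGeometry TensorProduct Matrix

universe u v

namespace Pool.Agent.L0h10.TS

open Module
open Pool.Agent.H914 Pool.Agent.H914.VarClass Pool.Agent.H914.VarClass.Obj
  Pool.Agent.H914.WeilCohomology
open Pool.Agent.Y121.AHS
open Pool.Agent.Y133.Half (pw pfst psnd wb wb_zero)
open Pool.Agent.N996.BP Pool.Agent.N996.FP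

variable {k : Type u} [Field k] {𝒱 : VarClass k} {ops : CycleOps 𝒱} {T : HodgeTheory ops}
  {X : 𝒱.Obj} {F : Type} [Field F] [Algebra T.W.K F]

section Lin

variable {Z Z' : 𝒱.Obj}

/-- Linear maps. -/
structure IsLin (f : HL T.W F Z → HL T.W F Z') : Prop where
  add : ∀ x y, f (x + y) = f x + f y
  smul : ∀ l x, f (smL l x) = smL l (f x)

/-- The linear map. -/
noncomputable def IsLin.toLin {f : HL T.W F Z → HL T.W F Z'} (h : IsLin f) :
    HL T.W F Z →ₗ[F] HL T.W F Z' where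
  toFun := f
  map_add' := h.add
  map_smul' := h.smul

variable {κ : Type} [Fintype κ] [DecidableEq κ] (b : Basis κ T.W.K (T.W.H Z))

/-- The matrix of a linear map. -/
noncomputable def mt (f : HL T.W F Z → HL T.W F Z) : Matrix κ κ F :=
  Matrix.of fun i k => (vB F b).symm (f (emL T.W F (b k))) i

lemma vB_single (k : κ) : vB F b (Pi.single k 1) = emL T.W F (b k) := by
  rw [vB_apply, Finset.sum_eq_single k]
  · rw [Pi.single_eq_same, smL_one]
  · intro j _ hj
    rw [Pi.single_eq_of_ne hj]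
    exact zero_smul F (show F ⊗[T.W.K] T.W.H Z from _)
  · intro h; exact absurd (Finset.mem_univ _) h

lemma mt_spec {f : HL T.W F Z → HL T.W F Z} (hf : IsLin f) (v : κ → F) :
    f (vB F b v) = vB F b (mt b f *ᵥ v) := by
  let Φ : (κ → F) →ₗ[F] HL T.W F Z := hf.toLin ∘ₗ (vB F b).toLinearMap
  let Ψ : (κ → F) →ₗ[F] HL T.W F Z := (vB F b).toLinearMap ∘ₗ Matrix.mulVecLin (mt b f)
  have h1 : Φ = Ψ := by
    refine LinearMap.pi_ext' fun k => LinearMap.ext_ring ?_
    change f (vB F b (Pi.single k 1)) = vB F b (mt b f *ᵥ Pi.single k 1)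
    rw [vB_single, Matrix.mulVec_single_one]
    apply (vB F b).symm.injective
    rw [LinearEquiv.symm_apply_apply]
    rfl
  exact LinearMap.congr_fun h1 v

lemma mt_inj {f : HL T.W F Z → HL T.W F Z} {M : Matrix κ κ F}
    (h : ∀ k, f (emL T.W F (b k)) = vB F b (M *ᵥ Pi.single k 1)) : mt b f = M := by
  ext i k
  rw [mt, Matrix.of_apply, h, LinearEquiv.symm_apply_apply, Matrix.mulVec_single_one]
  rfl

end Lin

variable {ι : Type} [Fintype ι] [DecidableEq ι] (e : Basis ι T.W.K (T.W.H X)) {deg : ι → ℕ}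

/-- Linear maps which agree on products are equal. -/
lemma ext_sn1 {A : Type} [AddCommGroup A] [Module F A] {n : ℕ}
    {Φ Ψ : ((Fin (n + 1 + 1) → ι) → F) →ₗ[F] A}
    (h : ∀ (z : (Fin (n + 1) → ι) → F) (v : ι → F), Φ (sn1 z v) = Ψ (sn1 z v)) : Φ = Ψ := by
  refine LinearMap.ext fun z => ?_
  rw [ve_succ n z, map_sum, map_sum]
  refine Finset.sum_congr rfl fun w _ => ?_
  rw [map_sum, map_sum]
  refine Finset.sum_congr rfl fun i _ => ?_
  rw [map_smul, map_smul, h]

lemma kp_fin1 {R : Type*} [CommRing R] (g : Matrix ι ι R) (z : (Fin (0 + 1) → ι) → R) (i : ι) :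
    (kp (Fin (0 + 1)) g *ᵥ z) (fun _ => i) = (g *ᵥ fun i => z fun _ => i) i := by
  rw [Matrix.mulVec, Matrix.mulVec, dotProduct, dotProduct,
    ← (Equiv.funUnique (Fin 1) ι).symm.sum_comp]
  refine Finset.sum_congr rfl fun t _ => ?_
  rw [kp_apply, Fin.prod_univ_one]
  rfl

/-- Coordinates of a family of maps which is compatible with products. -/
lemma fam_kp {f : ∀ n, HL T.W F (pw X n) → HL T.W F (pw X n)} (hlin : ∀ n, IsLin (f n))
    (hc : ∀ n (a : HL T.W F (pw X n)) (b : HL T.W F (pw X 0)),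
      f (n + 1) (cross a b) = cross (f n a) (f 0 b)) (n : ℕ) (z : (Fin (n + 1) → ι) → F) :
    f n (ve F e n z) = ve F e n (kp (Fin (n + 1)) (mt (Z := X) e (f 0)) *ᵥ z) := by
  have h0 : ∀ v : ι → F, f 0 (vB F e v : HL T.W F X) =
      (vB F e (mt (Z := X) e (f 0) *ᵥ v) : HL T.W F X) := fun v => mt_spec (Z := X) e (hlin 0) v
  induction n with
  | zero =>
    rw [ve_zero, ve_zero, h0]
    congr 1
    funext i
    exact (kp_fin1 _ _ _).symm
  | succ n ih =>
    let Φ : ((Fin (n + 1 + 1) → ι) → F) →ₗ[F] HL T.W F (pw X (n + 1)) :=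
      (hlin (n + 1)).toLin ∘ₗ (ve F e (n + 1)).toLinearMap
    let Ψ : ((Fin (n + 1 + 1) → ι) → F) →ₗ[F] HL T.W F (pw X (n + 1)) :=
      (ve F e (n + 1)).toLinearMap ∘ₗ
        Matrix.mulVecLin (kp (Fin (n + 1 + 1)) (mt (Z := X) e (f 0)))
    have h1 : Φ = Ψ := by
      refine ext_sn1 fun z v => ?_
      change f (n + 1) (ve F e (n + 1) (sn1 z v)) =
        ve F e (n + 1) (kp (Fin (n + 1 + 1)) (mt (Z := X) e (f 0)) *ᵥ sn1 z v)
      rw [← cross_ve, kp_sn1, ← cross_ve, ← ih, ← h0]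
      exact hc n _ _
    exact LinearMap.congr_fun h1 z

/-- Coordinates of an infinitesimal operator. -/
lemma fam_dv {D : Operators T X F} (hD : IsInfinitesimal D) (n : ℕ)
    (z : (Fin (n + 1) → ι) → F) :
    D n (ve F e n z) = ve F e n (dv (mt (Z := X) e (D 0)) z) := by
  have hlin : ∀ n, IsLin (D n) := fun n => ⟨hD.add n, hD.smul n⟩
  have h0 : ∀ v : ι → F, D 0 (vB F e v : HL T.W F X) =
      (vB F e (mt (Z := X) e (D 0) *ᵥ v) : HL T.W F X) := fun v => mt_spec (Z := X) e (hlin 0) v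
  induction n with
  | zero =>
    rw [ve_zero, ve_zero, h0]
    congr 1
    funext i
    exact (dv_one _ _ _).symm
  | succ n ih =>
    let Φ : ((Fin (n + 1 + 1) → ι) → F) →ₗ[F] HL T.W F (pw X (n + 1)) :=
      (hlin (n + 1)).toLin ∘ₗ (ve F e (n + 1)).toLinearMap
    let dL : ((Fin (n + 1 + 1) → ι) → F) →ₗ[F] ((Fin (n + 1 + 1) → ι) → F) :=
      { toFun := dv (mt (Z := X) e (D 0))
        map_add' := dv_add _
        map_smul' := dv_smul _ }
    let Ψ : ((Fin (n + 1 + 1) → ι) → F) →ₗ[F] HL T.W F (pw X (n + 1)) :=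
      (ve F e (n + 1)).toLinearMap ∘ₗ dL
    have h1 : Φ = Ψ := by
      refine ext_sn1 fun z v => ?_
      change D (n + 1) (ve F e (n + 1) (sn1 z v)) =
        ve F e (n + 1) (dv (mt (Z := X) e (D 0)) (sn1 z v))
      rw [← cross_ve, dv_sn1, map_add, ← cross_ve, ← cross_ve, ← ih, ← h0]
      exact hD.leibniz n _ _
    exact LinearMap.congr_fun h1 z

/-- The infinitesimal operator given by a matrix. -/
noncomputable def opOf (y : Matrix ι ι F) : Operators T X F :=
  fun n x => ve F e n (dv y ((ve F e n).symm x))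

lemma opOf_ve (y : Matrix ι ι F) (n : ℕ) (z : (Fin (n + 1) → ι) → F) :
    opOf e y n (ve F e n z) = ve F e n (dv y z) := by
  rw [opOf, LinearEquiv.symm_apply_apply]

lemma opOf_zero (y : Matrix ι ι F) (v : ι → F) :
    opOf e y 0 (vB F e v : HL T.W F X) = (vB F e (y *ᵥ v) : HL T.W F X) := by
  have h1 := ve_zero e (F := F) fun w => v (w 0)
  have h2 := opOf_ve e y 0 fun w => v (w 0)
  rw [ve_zero, ve_zero] at h2
  refine h2.trans ?_
  congr 1
  funext i
  exact dv_one _ _ _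

lemma opOf_inf (y : Matrix ι ι F) : IsInfinitesimal (opOf e y) where
  add n x x' := by
    rw [opOf, map_add, dv_add, map_add]
    rfl
  smul n l x := by
    have h1 : (ve F e n).symm (smL l x) = l • (ve F e n).symm x := (ve F e n).symm.map_smul l x
    rw [opOf, h1, dv_smul, ve_smul]
    rfl
  leibniz n a b := by
    obtain ⟨z, rfl⟩ := (ve F e n).surjective a
    obtain ⟨v, rfl⟩ := (vB F e).surjective (show HL T.W F X from b)
    have h1 := opOf_ve e y (n + 1) (sn1 z v)
    rw [dv_sn1, map_add, ← cross_ve, ← cross_ve, ← cross_ve, ← opOf_zero, ← opOf_ve] at h1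
    exact h1

end Pool.Agent.L0h10.TS
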