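import Pool.Agent.L0h10.TS.Grd

/-!
# The Tate arrays are combinations of Hodge arrays
-/

set_option linter.unusedSectionVars false

namespace Pool.Agent.L0h10.TS

open Matrix Module Pool.Agent.N996.BP Pool.Agent.N996.FP

variable {ι : Type} [Fintype ι] [DecidableEq ι] {H : HData ι} {A : Type} [Ring A] [Algebra ℂ A]
  {D : AData H A} {L : Type} [Field L] [CharZero L] {j : L →+* ℂ} {Γ : Type*} [Group Γ]
  [TopologicalSpace Γ] [IsTopologicalGroup Γ] {P : GRep D.deg L Γ}

/-- The projector to the part of degree `d`. -/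
def prd (D : AData H A) (d : ℕ) : Matrix ι ι ℚ :=
  Matrix.diagonal fun i => if D.deg i = d then 1 else 0

lemma cQ_prd (d : ℕ) : cQ (prd D d) =
    Matrix.diagonal fun i => if D.deg i = d then (1 : ℂ) else 0 := by
  rw [prd]
  ext i k
  rw [cQ, Matrix.map_apply, Matrix.diagonal_apply, Matrix.diagonal_apply]
  split_ifs <;> simp

lemma prd_HE (d : ℕ) : IsHE H (prd D d) := by
  intro t ht
  rw [cQ_prd]
  exact diag_comm fun i k h => D.ldeg t ht i k h

lemma prd_sq (d : ℕ) : cQ (prd D d) * cQ (prd D d) = cQ (prd D d) := by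
  rw [cQ_prd, Matrix.diagonal_mul_diagonal]
  congr 1
  funext i
  split_ifs <;> simp

lemma R_prd (g : Γ) (d : ℕ) : (P.R g).map j * cQ (prd D d) = cQ (prd D d) * (P.R g).map j := by
  rw [cQ_prd]
  refine diag_comm fun i k h => ?_
  rw [Matrix.map_apply, P.deg' g i k h, map_zero]

lemma sum_prd (v : ι → ℂ) : ∑ d ∈ Finset.univ.image D.deg, cQ (prd D d) *ᵥ v = v := by
  funext i
  rw [Finset.sum_apply, Finset.sum_eq_single (D.deg i)]
  · rw [cQ_prd, Matrix.mulVec_diagonal, if_pos rfl, one_mul]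
  · intro d _ hd
    rw [cQ_prd, Matrix.mulVec_diagonal, if_neg (Ne.symm hd), zero_mul]
  · intro h
    exact absurd (Finset.mem_image_of_mem _ (Finset.mem_univ i)) h

/-- Combinations of Tate arrays are killed. -/
lemma kill_spanC {y : Matrix ι ι ℂ} {n : ℕ}
    (hy : ∀ a, P.IsT n a → dk (Fin (n + 1)) y *ᵥ (fun w => j (a w)) = 0)
    {a : (Fin (n + 1) → ι) → ℂ}
    (ha : a ∈ Submodule.span ℂ {x | ∃ b, P.IsT n b ∧ x = fun w => j (b w)}) :
    dk (Fin (n + 1)) y *ᵥ a = 0 := by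
  induction ha using Submodule.span_induction with
  | mem a ha =>
    obtain ⟨b, hb, rfl⟩ := ha
    exact hy b hb
  | zero => exact Matrix.mulVec_zero _
  | add a b _ _ ha hb => rw [Matrix.mulVec_add, ha, hb, add_zero]
  | smul c a _ ha => rw [Matrix.mulVec_smul, ha, smul_zero]

variable (hyp : Hyp D j P)

include hyp

lemma comm_prd {y : Matrix ι ι ℂ} (hy : y ∈ Gs D j P) (d : ℕ) :
    y * cQ (prd D d) = cQ (prd D d) * y := (prd_HE d).comm_ho (Gs_ho hyp hy)

lemma supp_Q {d : ℕ} {i k : ι} (h : (prd D d * H.Qir) i k ≠ 0) : D.deg i = d ∧ D.deg k = d := by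
  rw [prd, Matrix.diagonal_mul] at h
  have h1 : D.deg i = d := by
    by_contra h2
    rw [if_neg h2, zero_mul] at h
    exact h rfl
  refine ⟨h1, ?_⟩
  by_contra h2
  apply h
  rw [hyp.hQ i k (by rw [h1]; exact Ne.symm h2), mul_zero]

/-- The form is preserved by an open subgroup, up to the character. -/
lemma exists_Q : ∃ Δ : OpenSubgroup Γ, ∀ g ∈ Δ, ∀ d ∈ Finset.univ.image D.deg,
    j (P.χ g) ^ d • ((P.R g).map j * cQ (prd D d * H.Qir) * ((P.R g).map j)ᵀ) =
      cQ (prd D d * H.Qir) := by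
  classical
  have h1 : ∀ d, P.IsTp 1 d (cL L (ar2 (prd D d * H.Qir))) := by
    intro d
    have h2 := GRep.of_span (hyp.hH 1 _ (ar2_BB (prd_HE (D := D) d))) d
    have h3 : (fun w => if ∑ i, D.deg (w i) = 2 * d then cL L (ar2 (prd D d * H.Qir)) w else 0) =
        cL L (ar2 (prd D d * H.Qir)) := by
      funext w
      by_cases h4 : ∑ i, D.deg (w i) = 2 * d
      · rw [if_pos h4]
      · rw [if_neg h4]
        by_contra h5
        apply h4
        have h6 : (prd D d * H.Qir) (w 0) (w 1) ≠ 0 := by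
          intro h7
          apply h5
          rw [cL, ar2, h7, Rat.cast_zero]
        obtain ⟨h7, h8⟩ := supp_Q hyp h6
        rw [Fin.sum_univ_two, h7, h8, two_mul]
    rw [h3] at h2
    exact h2
  choose Q hQ using fun d => (h1 d).2
  obtain ⟨Δ, hΔ⟩ := GRep.exists_open (Finset.univ.image D.deg) Q
  refine ⟨Δ, fun g hg d hd => ?_⟩
  have h2 := hQ d g (hΔ g hg d hd)
  apply ar2_inj
  have h3 : ar2 (cQ (prd D d * H.Qir)) = fun w => j (cL L (ar2 (prd D d * H.Qir)) w) := by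
    rw [cast_cL]
    rfl
  have h4 : ar2 (j (P.χ g) ^ d • ((P.R g).map j * cQ (prd D d * H.Qir) * ((P.R g).map j)ᵀ)) =
      j (P.χ g) ^ d • ar2 ((P.R g).map j * cQ (prd D d * H.Qir) * ((P.R g).map j)ᵀ) := rfl
  rw [h4, ← kp_ar2, h3, kp_cast]
  conv_rhs => rw [← h2]
  funext w
  rw [Pi.smul_apply, Pi.smul_apply, smul_eq_mul, smul_eq_mul, map_mul, map_pow]

/-- **The operators act semisimply.** -/
theorem soc_top : soc (Gs D j P) = ⊤ := by
  classical
  obtain ⟨Δ, hΔ⟩ := exists_Q hyp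
  obtain ⟨W, hWe⟩ : ∃ W, W = soc (Gs D j P) := ⟨_, rfl⟩
  have hW1 : ∀ g : Γ, ∀ v ∈ W, (P.R g).map j *ᵥ v ∈ W := by
    intro g v hv
    rw [hWe] at hv ⊢
    refine soc_norm (c' := (P.R g⁻¹).map j) (mul_eq_one_comm.1 (R_map_inv g)) ?_ ?_ hv
    · intro y hy
      have h1 := Gs_conj hy g⁻¹
      rwa [inv_inv] at h1
    · intro y hy
      exact Gs_conj hy g
  have hW2 : ∀ d, ∀ v ∈ W, cQ (prd D d) *ᵥ v ∈ W := by
    intro d v hv
    rw [hWe] at hv ⊢
    exact soc_comm (fun y hy => (comm_prd hyp hy d).symm) hv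
  obtain ⟨E0, h1, h2, h3⟩ := exists_proj_mat j hyp.alg {M | ∃ g ∈ Δ, M = P.R g} (by
    intro U hU
    obtain ⟨U', h4, h5⟩ := hyp.hss Δ U fun g hg u hu => hU _ ⟨g, hg, rfl⟩ u hu
    refine ⟨U', ?_, h5⟩
    rintro _ ⟨g, hg, rfl⟩ u hu
    exact h4 g hg u hu) W (by
    rintro _ ⟨g, hg, rfl⟩ v hv
    exact hW1 g v hv)
  obtain ⟨E, hE⟩ : ∃ E, E = ∑ d ∈ Finset.univ.image D.deg,
    cQ (prd D d) * E0 * cQ (prd D d) := ⟨_, rfl⟩
  have hE1 : ∀ v, E *ᵥ v ∈ W := by
    intro v
    rw [hE, Matrix.sum_mulVec]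
    refine Submodule.sum_mem _ fun d _ => ?_
    rw [← Matrix.mulVec_mulVec, ← Matrix.mulVec_mulVec]
    exact hW2 d _ (h1 _)
  have hE2 : ∀ v ∈ W, E *ᵥ v = v := by
    intro v hv
    conv_rhs => rw [← sum_prd (D := D) v]
    rw [hE, Matrix.sum_mulVec]
    refine Finset.sum_congr rfl fun d _ => ?_
    rw [← Matrix.mulVec_mulVec, ← Matrix.mulVec_mulVec, h2 _ (hW2 d v hv), Matrix.mulVec_mulVec,
      prd_sq]
  have hE3 : ∀ y ∈ Gs D j P, E * y = y * E := by
    intro y hy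
    have hy2 := ho_skew (Gs_ho hyp hy)
    have h4 : ar2 (E * cQ H.Qir) ∈
        Submodule.span ℂ {x | ∃ b, P.IsT 1 b ∧ x = fun w => j (b w)} := by
      have h5 : ar2 (E * cQ H.Qir) = ∑ d ∈ Finset.univ.image D.deg,
          ar2 (cQ (prd D d) * E0 * cQ (prd D d * H.Qir)) := by
        funext w
        rw [Finset.sum_apply, ar2, hE, Finset.sum_mul, Matrix.sum_apply]
        refine Finset.sum_congr rfl fun d _ => ?_
        rw [ar2, cQ_mul, Matrix.mul_assoc (cQ (prd D d) * E0)]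
      rw [h5]
      refine Submodule.sum_mem _ fun d hd => ?_
      refine desc_T (p := d) (Δ := Δ) (fun w hw => ?_) fun g hg => ?_
      · rw [ar2, Matrix.mul_assoc, cQ_prd, Matrix.diagonal_mul] at hw
        have h6 : D.deg (w 0) = d := by
          by_contra h7
          rw [if_neg h7, zero_mul] at hw
          exact hw rfl
        have h7 : D.deg (w 1) = d := by
          rw [if_pos h6, one_mul, Matrix.mul_apply] at hw
          obtain ⟨k, -, hk⟩ := Finset.exists_ne_zero_of_sum_ne_zero hw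
          refine (supp_Q hyp (i := k) fun h8 => hk ?_).2
          rw [cQ, Matrix.map_apply, h8, Rat.cast_zero, mul_zero]
        rw [Fin.sum_univ_two, h6, h7, two_mul]
      · have h6 := hΔ g hg d hd
        have h7 := h3 _ ⟨g, hg, rfl⟩
        have h8 := R_prd (j := j) (P := P) g d
        rw [kp_ar2]
        have h9 : j (P.χ g) ^ d • ar2 ((P.R g).map j * (cQ (prd D d) * E0 *
            cQ (prd D d * H.Qir)) * ((P.R g).map j)ᵀ) = ar2 (j (P.χ g) ^ d •
            ((P.R g).map j * (cQ (prd D d) * E0 * cQ (prd D d * H.Qir)) * ((P.R g).map j)ᵀ)) := rfl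
        rw [h9]
        congr 1
        calc j (P.χ g) ^ d • ((P.R g).map j * (cQ (prd D d) * E0 * cQ (prd D d * H.Qir)) *
              ((P.R g).map j)ᵀ) =
            j (P.χ g) ^ d • (((P.R g).map j * cQ (prd D d)) * E0 * cQ (prd D d * H.Qir) *
              ((P.R g).map j)ᵀ) := by simp only [Matrix.mul_assoc]
          _ = j (P.χ g) ^ d • (cQ (prd D d) * (E0 * (P.R g).map j) * cQ (prd D d * H.Qir) *
              ((P.R g).map j)ᵀ) := by rw [h8, h7]; simp only [Matrix.mul_assoc]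
          _ = (cQ (prd D d) * E0) * (j (P.χ g) ^ d • ((P.R g).map j * cQ (prd D d * H.Qir) *
              ((P.R g).map j)ᵀ)) := by rw [Matrix.mul_smul]; simp only [Matrix.mul_assoc]
          _ = _ := by rw [h6]
    have h5 := kill_spanC (fun a ha => hy.2 1 a ha) h4
    rw [dk_ar2] at h5
    have h6 : y * (E * cQ H.Qir) + E * cQ H.Qir * yᵀ = 0 := ar2_inj h5
    have h7 : cQ H.Qir * yᵀ = -(y * cQ H.Qir) := by
      rw [eq_neg_iff_add_eq_zero, add_comm]
      exact hy2
    have h8 : (y * E) * cQ H.Qir = (E * y) * cQ H.Qir := by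
      rw [Matrix.mul_assoc E, h7, Matrix.mul_neg, ← sub_eq_add_neg, sub_eq_zero] at h6
      rw [Matrix.mul_assoc, Matrix.mul_assoc]
      exact h6
    calc E * y = (E * y) * (cQ H.Qir * cQ H.Qr) := by rw [QiQ, Matrix.mul_one]
      _ = (E * y) * cQ H.Qir * cQ H.Qr := by rw [Matrix.mul_assoc (E * y)]
      _ = (y * E) * cQ H.Qir * cQ H.Qr := by rw [h8]
      _ = y * E := by rw [Matrix.mul_assoc (y * E), QiQ, Matrix.mul_one]
  -- the kernel of the projector
  rw [← hWe]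
  have hker : Stab (Gs D j P) (LinearMap.ker (Matrix.mulVecLin E)) := by
    intro y hy v hv
    rw [LinearMap.mem_ker, Matrix.mulVecLin_apply] at hv ⊢
    rw [Matrix.mulVec_mulVec, hE3 y hy, ← Matrix.mulVec_mulVec, hv, Matrix.mulVec_zero]
  by_cases h0 : LinearMap.ker (Matrix.mulVecLin E) = ⊥
  · rw [eq_top_iff]
    intro v _
    have h4 : E *ᵥ v - v ∈ LinearMap.ker (Matrix.mulVecLin E) := by
      rw [LinearMap.mem_ker, Matrix.mulVecLin_apply, Matrix.mulVec_sub, hE2 _ (hE1 v), sub_self]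
    rw [h0, Submodule.mem_bot, sub_eq_zero] at h4
    rw [← h4]
    exact hE1 v
  · exfalso
    obtain ⟨M, hM1, hM2⟩ := exists_mini h0 hker
    apply hM2.1
    rw [eq_bot_iff]
    intro v hv
    have h4 : E *ᵥ v = 0 := hM1 hv
    have h5 : v ∈ W := by rw [hWe]; exact hM2.le hv
    rw [hE2 v h5] at h4
    rw [h4]
    exact Submodule.zero_mem _

omit hyp in
lemma cast_span {κ : Type} {B : Set ((κ → ι) → ℚ)} {b : (κ → ι) → L}
    (hb : b ∈ Submodule.span L (cL L '' B)) :
    (fun w => j (b w)) ∈ Submodule.span ℂ (ca '' B) := by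
  induction hb using Submodule.span_induction with
  | mem b hb =>
    obtain ⟨a, ha, rfl⟩ := hb
    rw [cast_cL]
    exact Submodule.subset_span ⟨a, ha, rfl⟩
  | zero =>
    have h3 : (fun w : κ → ι => j ((0 : (κ → ι) → L) w)) = 0 := by
      funext w
      exact map_zero j
    rw [h3]
    exact Submodule.zero_mem _
  | add a b _ _ ha hb =>
    have h3 : (fun w => j ((a + b) w)) = (fun w => j (a w)) + fun w => j (b w) := by
      funext w
      exact map_add j _ _
    rw [h3]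
    exact Submodule.add_mem _ ha hb
  | smul c a _ ha =>
    have h3 : (fun w => j ((c • a) w)) = j c • fun w => j (a w) := by
      funext w
      exact map_mul j _ _
    rw [h3]
    exact Submodule.smul_mem _ _ ha

/-- The commutant. -/
theorem comm_Gs (M : Matrix ι ι ℂ) (hM : ∀ y ∈ Gs D j P, M * y = y * M) :
    M ∈ Submodule.span ℂ (cQ '' {x | IsHE H x}) := by
  refine comm_of_ar2 ?_
  have h0 : ∀ y ∈ Gs D j P, dk (Fin (1 + 1)) y *ᵥ ar2 (M * cQ H.Qir) = 0 := by
    intro y hy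
    have h2 := ho_skew (Gs_ho hyp hy)
    rw [dk_ar2]
    have h3 : y * (M * cQ H.Qir) + M * cQ H.Qir * yᵀ = 0 := by
      rw [← Matrix.mul_assoc, ← hM y hy, Matrix.mul_assoc, Matrix.mul_assoc, ← Matrix.mul_add, h2,
        Matrix.mul_zero]
    rw [h3]
    funext w
    rfl
  have h1 := hyp.hP _ h0
  have h4 : Submodule.span ℂ {x | ∃ b, P.IsT 1 b ∧ x = fun w => j (b w)} ≤
      Submodule.span ℂ (ca '' (BB H (Fin (1 + 1)) : Set _)) := by
    refine Submodule.span_le.2 ?_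
    rintro _ ⟨b, hb, rfl⟩
    exact cast_span (hyp.hT b hb)
  exact h4 h1

/-- **The gradings.** -/
theorem isGrad : IsGrad D (Gs D j P) where
  mem y hy := Gs_ho hyp hy
  neg y hy := by
    refine ⟨?_, fun n a ha => ?_⟩
    · rw [neg_mul_neg, hy.1]
    · have h1 : dk (Fin (n + 1)) (-y) = -dk (Fin (n + 1)) y := (dkL (Fin (n + 1))).map_neg y
      rw [h1, Matrix.neg_mulVec, hy.2 n a ha, neg_zero]
  sq y hy := hy.1
  comm M hM := comm_Gs hyp M hM
  proj W hW := by
    obtain ⟨C, hC, h⟩ := exists_compl (soc_top hyp) hW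
    exact exists_proj_of_compl hW hC h

omit hyp in
lemma lsp_kill {n : ℕ} {a : (Fin (n + 1) → ι) → L} (ha : P.IsT n a) {x : Matrix ι ι ℂ}
    (hx : x ∈ lsp (Gs D j P)) : dk (Fin (n + 1)) x *ᵥ (fun w => j (a w)) = 0 := by
  let M : Submodule ℂ (Matrix ι ι ℂ) :=
    { carrier := {x | dk (Fin (n + 1)) x *ᵥ (fun w => j (a w)) = 0}
      add_mem' := by
        intro x y hx hy
        change dk (Fin (n + 1)) (x + y) *ᵥ (fun w => j (a w)) = 0
        have h1 : dk (Fin (n + 1)) (x + y) = dk (Fin (n + 1)) x + dk (Fin (n + 1)) y :=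
          (dkL (Fin (n + 1))).map_add x y
        rw [h1, Matrix.add_mulVec, hx, hy, add_zero]
      zero_mem' := by
        change dk (Fin (n + 1)) 0 *ᵥ (fun w => j (a w)) = 0
        have h1 : dk (Fin (n + 1)) (0 : Matrix ι ι ℂ) = 0 := (dkL (Fin (n + 1))).map_zero
        rw [h1, Matrix.zero_mulVec]
      smul_mem' := by
        intro c x hx
        change dk (Fin (n + 1)) (c • x) *ᵥ (fun w => j (a w)) = 0
        have h1 : dk (Fin (n + 1)) (c • x) = c • dk (Fin (n + 1)) x :=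
          (dkL (Fin (n + 1))).map_smul c x
        rw [h1, Matrix.smul_mulVec, hx, smul_zero] }
  have h1 : lsp (Gs D j P) ≤ M := lsp_le (fun y hy => hy.2 n a ha) fun x hx y hy => by
    change dk (Fin (n + 1)) (br x y) *ᵥ (fun w => j (a w)) = 0
    have hx' : dk (Fin (n + 1)) x *ᵥ (fun w => j (a w)) = 0 := hx
    have hy' : dk (Fin (n + 1)) y *ᵥ (fun w => j (a w)) = 0 := hy
    rw [dk_br, br, Matrix.sub_mulVec, ← Matrix.mulVec_mulVec, ← Matrix.mulVec_mulVec, hx', hy',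
      Matrix.mulVec_zero, Matrix.mulVec_zero, sub_zero]
  exact h1 hx

omit hyp in
/-- Arrays which are killed by the Hodge Lie algebra are combinations of Hodge arrays. -/
theorem mem_of_kill {n : ℕ} {a : (Fin (n + 1) → ι) → L}
    (h : ∀ x ∈ ho H, dk (Fin (n + 1)) x *ᵥ (fun w => j (a w)) = 0) :
    a ∈ Submodule.span L (cL L '' (BB H (Fin (n + 1)) : Set _)) := by
  refine desc_span j ?_
  have h1 : ∀ g ∈ GG H, kp (Fin (n + 1)) g *ᵥ (fun w => j (a w)) = fun w => j (a w) :=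
    fun g hg => fix_of_NgT (fun σ => h _ (Ng_mem σ)) hg
  let C : Submodule ℂ ((Fin (n + 1) → ι) → ℂ) :=
    { carrier := {v | ∀ g ∈ GG H, kp (Fin (n + 1)) g *ᵥ v = v}
      add_mem' := fun {a b} ha hb g hg => by rw [Matrix.mulVec_add, ha g hg, hb g hg]
      zero_mem' := fun g _ => Matrix.mulVec_zero _
      smul_mem' := fun c a ha g hg => by rw [Matrix.mulVec_smul, ha g hg] }
  have hC : ∀ (σ : ℂ ≃+* ℂ), ∀ v ∈ C, (fun i => σ (v i)) ∈ C := by
    intro σ v h1 g hg
    have h5 := h1 (g.map σ.symm) (GG_map H σ.symm hg)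
    funext i
    have h6 := congrArg σ (congrFun h5 i)
    rw [Matrix.mulVec, dotProduct, map_sum] at h6
    rw [Matrix.mulVec, dotProduct, ← h6]
    refine Finset.sum_congr rfl fun j _ => ?_
    rw [map_mul, kp_apply, kp_apply, map_prod]
    congr 1
    refine Finset.prod_congr rfl fun k _ => ?_
    rw [Matrix.map_apply, RingEquiv.apply_symm_apply]
  have hdC : (fun w => j (a w)) ∈ C := h1
  rw [Pool.Agent.W437.HD.span_rational C hC] at hdC
  refine Submodule.span_mono ?_ hdC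
  rintro v ⟨h2, u, rfl⟩
  refine ⟨cL L u, ⟨u, ?_, rfl⟩, cast_cL u⟩
  intro t ht
  exact h2 _ (Submonoid.subset_closure (l_mem_gens H ht))

/-- **The Tate arrays are combinations of Hodge arrays: self-adjoint centres.** -/
theorem arr_adj (htop : ∃ v : Fin (Module.finrank ℂ D.V) → D.V, pL D.L v ≠ 0)
    (hP : cQ D.pr1 * cQ H.Qir = cQ H.Qir * (cQ D.pr1)ᵀ)
    (hadj : ∀ x : Matrix ι ι ℚ, D.IsCE x → cQ x * cQ H.Qir = cQ H.Qir * (cQ x)ᵀ)
    {n : ℕ} {a : (Fin (n + 1) → ι) → L} (ha : P.IsT n a) :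
    a ∈ Submodule.span L (cL L '' (BB H (Fin (n + 1)) : Set _)) :=
  mem_of_kill (j := j) fun _ hx => lsp_kill ha ((isGrad hyp).eq_of_adj htop hP hadj (D.ho_le_dl hx))

/-- **The Tate arrays are combinations of Hodge arrays.** -/
theorem arr_cen (htop : ∃ v : Fin (Module.finrank ℂ D.V) → D.V, pL D.L v ≠ 0)
    (hP : cQ D.pr1 * cQ H.Qir = cQ H.Qir * (cQ D.pr1)ᵀ)
    (hC : ∀ z ∈ ho H, (∀ y ∈ Gs D j P, z * y = y * z) →
      ∀ n a, P.IsT n a → dk (Fin (n + 1)) z *ᵥ (fun w => j (a w)) = 0)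
    {n : ℕ} {a : (Fin (n + 1) → ι) → L} (ha : P.IsT n a) :
    a ∈ Submodule.span L (cL L '' (BB H (Fin (n + 1)) : Set _)) := by
  refine mem_of_kill (j := j) fun x hx => ?_
  obtain ⟨y, hy, z, hz, hxz, hc⟩ := (isGrad hyp).decomp htop hP (D.ho_le_dl hx)
  have hz' : z ∈ ho H := by
    have h1 : z = x - y := by rw [hxz]; abel
    rw [h1]
    exact Submodule.sub_mem _ hx ((isGrad hyp).le_ho hy)
  have h1 := hC z hz' (fun y hy => hc y (subset_lsp hy)) n a ha
  have h2 : dk (Fin (n + 1)) (y + z) = dk (Fin (n + 1)) y + dk (Fin (n + 1)) z :=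
    (dkL (Fin (n + 1))).map_add y z
  rw [hxz, h2, Matrix.add_mulVec, lsp_kill ha hy, h1, add_zero]

end Pool.Agent.L0h10.TS
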