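import Pool.Agent.N996.FP.Dk
import Pool.Agent.N996.BP.Geo1

/-!
# Descent of solutions and of spans, derivations of words
-/

set_option linter.unusedSectionVars false

namespace Pool.Agent.L0h10.TS

open Matrix Module Pool.Agent.N996.BP Pool.Agent.N996.FP

section desc

variable {L L' : Type} [Field L] [Field L'] (j : L →+* L') {m : Type} [Fintype m]

/-- Solutions of linear equations with coefficients in a subfield. -/
lemma desc_sol {I : Type*} (M : I → m → L) {v : m → L'} (hv : ∀ k, ∑ i, j (M k i) * v i = 0) :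
    v ∈ Submodule.span L' {x | ∃ u : m → L, (∀ k, ∑ i, M k i * u i = 0) ∧
      x = fun i => j (u i)} := by
  classical
  let _ : Algebra L L' := j.toAlgebra
  let w := Basis.ofVectorSpace L L'
  let F : Finset (Basis.ofVectorSpaceIndex L L') := Finset.univ.biUnion fun i : m =>
    (w.repr (v i)).support
  have h1 : v = ∑ b ∈ F, (w b) • (fun i => j (w.repr (v i) b)) := by
    funext i
    rw [Finset.sum_apply]
    conv_lhs => rw [← w.linearCombination_repr (v i), Finsupp.linearCombination_apply,
      Finsupp.sum]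
    have h2 : (w.repr (v i)).support ⊆ F := fun b hb =>
      Finset.mem_biUnion.2 ⟨i, Finset.mem_univ _, hb⟩
    rw [Finset.sum_subset h2]
    · refine Finset.sum_congr rfl fun b _ => ?_
      rw [Pi.smul_apply, smul_eq_mul, Algebra.smul_def, mul_comm]
      rfl
    · intro b _ hb
      rw [Finsupp.notMem_support_iff.1 hb, zero_smul]
  rw [h1]
  refine Submodule.sum_mem _ fun b _ => Submodule.smul_mem _ _ (Submodule.subset_span
    ⟨fun i => w.repr (v i) b, fun k => ?_, rfl⟩)
  have h3 := congrArg (fun x => w.repr x b) (hv k)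
  simp only [map_sum, map_zero, Finsupp.coe_zero, Pi.zero_apply, Finsupp.coe_finsetSum,
    Finset.sum_apply] at h3
  rw [← h3]
  refine Finset.sum_congr rfl fun i _ => ?_
  have h4 : j (M k i) * v i = M k i • v i := by
    rw [Algebra.smul_def]
    rfl
  rw [h4, map_smul, Finsupp.smul_apply, smul_eq_mul]

/-- Descent of spans. -/
lemma desc_span {B : Set (m → L)} {u : m → L}
    (h : (fun i => j (u i)) ∈ Submodule.span L' ((fun b : m → L => fun i => j (b i)) '' B)) :
    u ∈ Submodule.span L B := by
  classical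
  by_contra hu
  obtain ⟨f, hf, hf0⟩ := Submodule.exists_dual_map_eq_bot_of_notMem hu inferInstance
  have hf1 : ∀ b ∈ Submodule.span L B, f b = 0 := by
    intro b hb
    have h1 := Submodule.mem_map_of_mem (f := f) hb
    rw [hf0, Submodule.mem_bot] at h1
    exact h1
  have hfs : ∀ x : m → L, f x = ∑ i, f (Pi.single i 1) * x i := by
    intro x
    conv_lhs => rw [pi_eq_sum_univ' x, map_sum]
    refine Finset.sum_congr rfl fun i _ => ?_
    rw [map_smul, smul_eq_mul, mul_comm]
  let g : (m → L') →ₗ[L'] L' :=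
    { toFun := fun x => ∑ i, j (f (Pi.single i 1)) * x i
      map_add' := fun x y => by
        rw [← Finset.sum_add_distrib]
        exact Finset.sum_congr rfl fun i _ => by rw [Pi.add_apply, mul_add]
      map_smul' := fun c x => by
        rw [RingHom.id_apply, smul_eq_mul, Finset.mul_sum]
        exact Finset.sum_congr rfl fun i _ => by rw [Pi.smul_apply, smul_eq_mul]; ring }
  have hg : ∀ x : m → L, g (fun i => j (x i)) = j (f x) := by
    intro x
    rw [hfs, map_sum]
    exact Finset.sum_congr rfl fun i _ => by rw [map_mul]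
  have hk : Submodule.span L' ((fun b : m → L => fun i => j (b i)) '' B) ≤ LinearMap.ker g := by
    refine Submodule.span_le.2 ?_
    rintro _ ⟨b, hb, rfl⟩
    change g (fun i => j (b i)) = 0
    rw [hg, hf1 b (Submodule.subset_span hb), map_zero]
  have h2 := hk h
  rw [LinearMap.mem_ker, hg, map_eq_zero_iff _ j.injective] at h2
  exact hf h2

end desc

section dk

variable {ι : Type} [Fintype ι] [DecidableEq ι] {κ : Type} [Fintype κ] [DecidableEq κ]
  {l : Type} [Fintype l] [DecidableEq l]

lemma dk_mulVec_apply (x : Matrix ι ι ℂ) (a : (κ → ι) → ℂ) (w : κ → ι) :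
    (dk κ x *ᵥ a) w = ∑ k, ∑ t, x (w k) t * a (Function.update w k t) := by
  rw [dk, Matrix.sum_mulVec, Finset.sum_apply]
  refine Finset.sum_congr rfl fun k _ => ?_
  rw [Matrix.mulVec, dotProduct]
  rw [← Finset.sum_subset (Finset.subset_univ (Finset.univ.image fun t => Function.update w k t))]
  · rw [Finset.sum_image fun a _ b _ hab => by
      have := congrFun hab k
      rwa [Function.update_self, Function.update_self] at this]
    refine Finset.sum_congr rfl fun t _ => ?_
    congr 1
    rw [slot_apply, Function.update_self, Finset.prod_eq_one, mul_one]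
    intro m hm
    rw [Function.update_of_ne (Finset.ne_of_mem_erase hm), Matrix.one_apply_eq]
  · intro v _ hv
    have h1 : ∃ m, m ≠ k ∧ w m ≠ v m := by
      by_contra hcon
      push Not at hcon
      apply hv
      rw [Finset.mem_image]
      refine ⟨v k, Finset.mem_univ _, ?_⟩
      funext m
      by_cases hm : m = k
      · subst hm; rw [Function.update_self]
      · rw [Function.update_of_ne hm, hcon m hm]
    obtain ⟨m, hm, hne⟩ := h1
    rw [slot_apply, Finset.prod_eq_zero (i := m) (Finset.mem_erase.2 ⟨hm, Finset.mem_univ _⟩),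
      mul_zero, zero_mul]
    rw [Matrix.one_apply_ne hne]

lemma dk_rei (e : κ ≃ l) (x : Matrix ι ι ℂ) (a : (κ → ι) → ℂ) :
    dk l x *ᵥ rei e a = rei e (dk κ x *ᵥ a) := by
  funext w
  rw [rei, dk_mulVec_apply, dk_mulVec_apply, ← Equiv.sum_comp e]
  refine Finset.sum_congr rfl fun k _ => Finset.sum_congr rfl fun t _ => ?_
  rw [rei, Function.comp_apply]
  congr 2
  funext m
  rw [Function.comp_apply]
  by_cases hm : m = k
  · subst hm; rw [Function.update_self, Function.update_self]
  · rw [Function.update_of_ne hm, Function.update_of_ne fun h => hm (e.injective h)]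
    rfl

lemma dk_empty [IsEmpty κ] (x : Matrix ι ι ℂ) (a : (κ → ι) → ℂ) : dk κ x *ᵥ a = 0 := by
  funext w
  rw [dk_mulVec_apply, Finset.univ_eq_empty, Finset.sum_empty]
  rfl

/-- The product of an array and a vector. -/
def sn1 {R : Type*} [Mul R] {n : ℕ} (z : (Fin (n + 1) → ι) → R) (v : ι → R) :
    (Fin (n + 1 + 1) → ι) → R := fun w => z (fun i => w i.castSucc) * v (w (Fin.last _))

lemma update_castSucc {n : ℕ} (w : Fin (n + 1) → ι) (k : Fin n) (t : ι) :
    (fun i : Fin n => Function.update w k.castSucc t i.castSucc) =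
      Function.update (fun i : Fin n => w i.castSucc) k t := by
  funext i
  by_cases hi : i = k
  · subst hi; rw [Function.update_self, Function.update_self]
  · rw [Function.update_of_ne hi, Function.update_of_ne fun h => hi (Fin.castSucc_injective _ h)]

lemma dk_sn1 (n : ℕ) (x : Matrix ι ι ℂ) (z : (Fin (n + 1) → ι) → ℂ) (v : ι → ℂ) :
    dk (Fin (n + 1 + 1)) x *ᵥ sn1 z v = sn1 (dk (Fin (n + 1)) x *ᵥ z) v + sn1 z (x *ᵥ v) := by
  funext w
  rw [dk_mulVec_apply, Fin.sum_univ_castSucc, Pi.add_apply, sn1, sn1, dk_mulVec_apply,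
    Matrix.mulVec, dotProduct, Finset.sum_mul, Finset.mul_sum]
  congr 1
  · refine Finset.sum_congr rfl fun k _ => ?_
    rw [Finset.sum_mul]
    refine Finset.sum_congr rfl fun t _ => ?_
    rw [sn1, update_castSucc, Function.update_of_ne (Fin.castSucc_lt_last k).ne']
    ring
  · refine Finset.sum_congr rfl fun t _ => ?_
    rw [sn1, Function.update_self]
    have h1 : (fun i : Fin (n + 1) => Function.update w (Fin.last (n + 1)) t i.castSucc) =
        fun i => w i.castSucc := by
      funext i
      rw [Function.update_of_ne (Fin.castSucc_lt_last i).ne]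
    rw [h1]
    ring

lemma kp_sn1 {R : Type*} [CommRing R] (n : ℕ) (g : Matrix ι ι R) (z : (Fin (n + 1) → ι) → R)
    (v : ι → R) : kp (Fin (n + 1 + 1)) g *ᵥ sn1 z v = sn1 (kp (Fin (n + 1)) g *ᵥ z) (g *ᵥ v) := by
  funext w
  obtain ⟨u, x, rfl⟩ : ∃ u x, w = Fin.snoc (α := fun _ => ι) u x :=
    ⟨Fin.init w, w (Fin.last _), (Fin.snoc_init_self w).symm⟩
  rw [sn1, Matrix.mulVec, dotProduct, Geo.sum_snoc]
  simp only [Fin.snoc_castSucc, Fin.snoc_last]
  rw [Matrix.mulVec, Matrix.mulVec, dotProduct, dotProduct, Finset.sum_mul_sum]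
  refine Finset.sum_congr rfl fun a _ => Finset.sum_congr rfl fun b _ => ?_
  rw [Geo.kp_snoc, sn1]
  simp only [Fin.snoc_castSucc, Fin.snoc_last]
  ring

end dk

end Pool.Agent.L0h10.TS
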