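import Pool.Agent.L0h10.TS.Defs
import Pool.Agent.Y133.Half.Growth
import Pool.Agent.L0h10.TS.Grd2
import Pool.Agent.N996.BP.Geo2
import Pool.Agent.Y121.AHS.HL

/-!
# Coordinates of the cohomology of the powers with extended coefficients
-/

set_option linter.unusedSectionVars false

open CategoryTheory AlgebraicGeometry TensorProduct

universe u

namespace Pool.Agent.L0h10.TS

open Module
open Pool.Agent.H914 Pool.Agent.H914.VarClass Pool.Agent.H914.VarClass.Obj
  Pool.Agent.H914.WeilCohomology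
open Pool.Agent.Y121.AHS
open Pool.Agent.Y133.Half Pool.Agent.N996.BP.Geo Pool.Agent.N996.BP

variable {k : Type u} [Field k] {𝒱 : VarClass k} {ops : CycleOps 𝒱}
  {W : WeilCohomology.{u, 0} ops} {X Y : 𝒱.Obj} {F : Type} [Field F] [Algebra W.K F]

lemma mulL_add_left (a b c : HL W F X) : mulL (a + b) c = mulL a c + mulL b c :=
  add_mul (R := F ⊗[W.K] W.H X) a b c

lemma mulL_add_right (a b c : HL W F X) : mulL a (b + c) = mulL a b + mulL a c :=
  mul_add (R := F ⊗[W.K] W.H X) a b c

lemma mulL_smL (r s : F) (a b : HL W F X) : mulL (smL r a) (smL s b) = smL (r * s) (mulL a b) :=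
  smul_mul_smul_comm r (show F ⊗[W.K] W.H X from a) s (show F ⊗[W.K] W.H X from b)

lemma mulL_em (a b : W.H X) : mulL (emL W F a) (emL W F b) = emL W F (a * b) := by
  change ((1 : F) ⊗ₜ[W.K] a) * ((1 : F) ⊗ₜ[W.K] b) = (1 : F) ⊗ₜ[W.K] (a * b)
  rw [Algebra.TensorProduct.tmul_mul_tmul, mul_one]

lemma mapL_add (f : X ⟶ Y) (a b : HL W F Y) : mapL f (a + b) = mapL f a + mapL f b :=
  ((W.map f).toLinearMap.baseChange F).map_add a b

lemma mapL_smL (f : X ⟶ Y) (r : F) (a : HL W F Y) : mapL f (smL r a) = smL r (mapL f a) :=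
  ((W.map f).toLinearMap.baseChange F).map_smul r a

lemma mapL_em (f : X ⟶ Y) (a : W.H Y) : mapL f (emL W F a) = emL W F (W.map f a) :=
  LinearMap.baseChange_tmul _ _ _

lemma cross_def {n : ℕ} (a : HL W F (pw X n)) (b : HL W F X) :
    cross a b = mulL (mapL (pfst X n) a) (mapL (psnd X n) b) := rfl

lemma cross_add_left {n : ℕ} (a b : HL W F (pw X n)) (c : HL W F X) :
    cross (a + b) c = cross a c + cross b c := by
  rw [cross_def, mapL_add, mulL_add_left]; rfl

lemma cross_add_right {n : ℕ} (a : HL W F (pw X n)) (b c : HL W F X) :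
    cross a (b + c) = cross a b + cross a c := by
  rw [cross_def, mapL_add, mulL_add_right]; rfl

lemma cross_smL {n : ℕ} (r s : F) (a : HL W F (pw X n)) (b : HL W F X) :
    cross (smL r a) (smL s b) = smL (r * s) (cross a b) := by
  rw [cross_def, mapL_smL, mapL_smL, mulL_smL]; rfl

lemma smL_zero (r : F) : smL r (0 : HL W F X) = 0 := smul_zero (A := F ⊗[W.K] W.H X) r

lemma smL_add (r : F) (a b : HL W F X) : smL r (a + b) = smL r a + smL r b :=
  smul_add (A := F ⊗[W.K] W.H X) r a b

lemma smL_one (a : HL W F X) : smL (1 : F) a = a := one_smul F (show F ⊗[W.K] W.H X from a)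

lemma smL_smL (r s : F) (a : HL W F X) : smL r (smL s a) = smL (r * s) a :=
  smul_smul r s (show F ⊗[W.K] W.H X from a)

lemma smL_eq (r : F) (a : HL W F X) : smL r a = r • a := rfl

lemma emL_add (a b : W.H X) : emL W F (a + b) = emL W F a + emL W F b :=
  TensorProduct.tmul_add (1 : F) a b

lemma emL_zero : emL W F (0 : W.H X) = 0 := TensorProduct.tmul_zero _ (1 : F)

lemma emL_smul (r : W.K) (a : W.H X) : emL W F (r • a) = smL (algebraMap W.K F r) (emL W F a) := by
  change (1 : F) ⊗ₜ[W.K] (r • a) = (algebraMap W.K F r) • ((1 : F) ⊗ₜ[W.K] a)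
  rw [TensorProduct.smul_tmul', smul_eq_mul, mul_one, ← TensorProduct.smul_tmul,
    Algebra.smul_def, mul_one]

lemma emL_sum {α : Type*} (s : Finset α) (f : α → W.H X) :
    emL W F (∑ i ∈ s, f i) = ∑ i ∈ s, emL W F (f i) := by
  classical
  induction s using Finset.induction_on with
  | empty => rw [Finset.sum_empty, Finset.sum_empty, emL_zero]
  | insert a s ha ih => rw [Finset.sum_insert ha, Finset.sum_insert ha, emL_add, ih]

lemma smL_sum {α : Type*} (r : F) (s : Finset α) (f : α → HL W F X) :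
    smL r (∑ i ∈ s, f i) = ∑ i ∈ s, smL r (f i) := by
  classical
  induction s using Finset.induction_on with
  | empty => rw [Finset.sum_empty, Finset.sum_empty, smL_zero]
  | insert a s ha ih => rw [Finset.sum_insert ha, Finset.sum_insert ha, smL_add, ih]

lemma mapL_zero (f : X ⟶ Y) : mapL f (0 : HL W F Y) = 0 :=
  ((W.map f).toLinearMap.baseChange F).map_zero

lemma mulL_zero_left (a : HL W F X) : mulL 0 a = 0 := zero_mul (M₀ := F ⊗[W.K] W.H X) a

lemma mulL_zero_right (a : HL W F X) : mulL a 0 = 0 := mul_zero (M₀ := F ⊗[W.K] W.H X) a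

lemma cross_zero_left {n : ℕ} (c : HL W F X) : cross (0 : HL W F (pw X n)) c = 0 := by
  rw [cross_def, mapL_zero, mulL_zero_left]

lemma cross_zero_right {n : ℕ} (a : HL W F (pw X n)) : cross a (0 : HL W F X) = 0 := by
  rw [cross_def, mapL_zero, mulL_zero_right]

lemma cross_sum_left {n : ℕ} {α : Type*} (s : Finset α) (f : α → HL W F (pw X n)) (c : HL W F X) :
    cross (∑ i ∈ s, f i) c = ∑ i ∈ s, cross (f i) c := by
  classical
  induction s using Finset.induction_on with
  | empty => rw [Finset.sum_empty, Finset.sum_empty, cross_zero_left]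
  | insert a s ha ih => rw [Finset.sum_insert ha, Finset.sum_insert ha, cross_add_left, ih]

lemma cross_sum_right {n : ℕ} {α : Type*} (s : Finset α) (a : HL W F (pw X n))
    (f : α → HL W F X) : cross a (∑ i ∈ s, f i) = ∑ i ∈ s, cross a (f i) := by
  classical
  induction s using Finset.induction_on with
  | empty => rw [Finset.sum_empty, Finset.sum_empty, cross_zero_right]
  | insert b s hb ih => rw [Finset.sum_insert hb, Finset.sum_insert hb, cross_add_right, ih]

variable {ι : Type} [Fintype ι] [DecidableEq ι] (e : Basis ι W.K (W.H X)) (F)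

/-- The coordinates. -/
noncomputable def vB {κ : Type} [Fintype κ] {Z : 𝒱.Obj} (b : Basis κ W.K (W.H Z)) :
    (κ → F) ≃ₗ[F] HL W F Z := ((b.baseChange F).equivFun.symm : (κ → F) ≃ₗ[F] (F ⊗[W.K] W.H Z))

variable {F}

lemma vB_apply {κ : Type} [Fintype κ] {Z : 𝒱.Obj} (b : Basis κ W.K (W.H Z)) (z : κ → F) :
    vB F b z = ∑ w, smL (z w) (emL W F (b w)) := by
  have h1 : ((b.baseChange F).equivFun.symm z : F ⊗[W.K] W.H Z) =
      ∑ w, z w • ((1 : F) ⊗ₜ[W.K] b w) := by
    rw [Basis.equivFun_symm_apply]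
    refine Finset.sum_congr rfl fun w _ => ?_
    rw [Basis.baseChange_apply]
  exact h1

lemma vB_smul {κ : Type} [Fintype κ] {Z : 𝒱.Obj} (b : Basis κ W.K (W.H Z)) (c : F) (z : κ → F) :
    vB F b (c • z) = smL c (vB F b z) := (vB F b).map_smul c z

variable (F)

/-- The coordinates on the powers. -/
noncomputable def ve (n : ℕ) : ((Fin (n + 1) → ι) → F) ≃ₗ[F] HL W F (pw X n) := vB F (wb e n)

variable {F}

lemma ve_apply (n : ℕ) (z : (Fin (n + 1) → ι) → F) :
    ve F e n z = ∑ w, smL (z w) (emL W F (wb e n w)) := vB_apply _ z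

lemma ve_smul (n : ℕ) (c : F) (z : (Fin (n + 1) → ι) → F) :
    ve F e n (c • z) = smL c (ve F e n z) := (ve F e n).map_smul c z

lemma ve_zero (z : (Fin (0 + 1) → ι) → F) :
    ve F e 0 z = (vB F e fun i => z fun _ => i : HL W F X) := by
  rw [ve_apply]
  refine Eq.trans ?_ (vB_apply e _).symm
  rw [← (Equiv.funUnique (Fin 1) ι).symm.sum_comp]
  refine Finset.sum_congr rfl fun i _ => ?_
  have h1 : wb e 0 ((Equiv.funUnique (Fin 1) ι).symm i) = e i := wb_zero e _
  rw [h1]
  rfl

lemma cross_em (n : ℕ) (w : Fin (n + 1) → ι) (i : ι) :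
    cross (emL W F (wb e n w)) (emL W F (e i)) =
      emL W F (wb e (n + 1) (Fin.snoc (α := fun _ => ι) w i)) := by
  have h1 : wb e (n + 1) (Fin.snoc (α := fun _ => ι) w i) =
      W.map (pfst X n) (wb e n w) * W.map (psnd X n) (e i) := by
    rw [wb_succ, Fin.snoc_last]
    have h2 : (fun j : Fin (n + 1) => (Fin.snoc (α := fun _ => ι) w i : Fin (n + 2) → ι)
        j.castSucc) = w := by
      funext j
      rw [Fin.snoc_castSucc]
    rw [h2]
  rw [h1, cross_def, mapL_em, mapL_em, ← mulL_em]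

lemma cross_ve (n : ℕ) (z : (Fin (n + 1) → ι) → F) (v : ι → F) :
    cross (ve F e n z) (vB F e v) = ve F e (n + 1) (sn1 z v) := by
  rw [ve_apply, vB_apply, cross_sum_left, ve_apply]
  refine Eq.trans ?_ (sum_snoc n _).symm
  refine Finset.sum_congr rfl fun w _ => ?_
  rw [cross_sum_right]
  refine Finset.sum_congr rfl fun i _ => ?_
  rw [cross_smL, cross_em, sn1]
  simp only [Fin.snoc_castSucc, Fin.snoc_last]

/-- Every class is a sum of products. -/
lemma ve_succ (n : ℕ) (z : (Fin (n + 1 + 1) → ι) → F) :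
    z = ∑ w : Fin (n + 1) → ι, ∑ i : ι, z (Fin.snoc (α := fun _ => ι) w i) •
      sn1 (Pi.single w 1) (Pi.single i 1) := by
  funext v
  rw [Finset.sum_apply, Finset.sum_eq_single fun j => v j.castSucc]
  · rw [Finset.sum_apply, Finset.sum_eq_single (v (Fin.last _))]
    · rw [Pi.smul_apply, sn1, Pi.single_eq_same, Pi.single_eq_same, mul_one, smul_eq_mul, mul_one]
      congr 1
      exact (Fin.snoc_init_self v).symm
    · intro i _ hi
      rw [Pi.smul_apply, sn1, Pi.single_eq_of_ne (Ne.symm hi), mul_zero, smul_zero]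
    · intro h; exact absurd (Finset.mem_univ _) h
  · intro w _ hw
    rw [Finset.sum_apply]
    refine Finset.sum_eq_zero fun i _ => ?_
    rw [Pi.smul_apply, sn1, Pi.single_eq_of_ne (Ne.symm hw), zero_mul, smul_zero]
  · intro h; exact absurd (Finset.mem_univ _) h

lemma emL_clw [CharZero F] (n : ℕ) (a : (Fin (n + 1) → ι) → ℚ) :
    emL W F (clw e n a) = ve F e n (cL F a) := by
  rw [clw, emL_sum, ve_apply]
  refine Finset.sum_congr rfl fun w _ => ?_
  rw [emL_smul, map_ratCast]
  rfl

end Pool.Agent.L0h10.TS
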